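import Mathlib

/-!
Roots in cycles of length divisible by `q`.
-/

namespace Pool.Agent.Lib.MP_06b9d2_gr

/-- the number of the roots of `P` in its splitting field which lie in cycles of `σ` of length divisible by `q` -/
noncomputable def Cy (P : Polynomial ℚ) (σ : P.Gal) (q : ℕ) : ℕ :=
  Set.ncard {α : P.SplittingField | Polynomial.aeval α P = 0 ∧ ∀ j : ℕ, (σ ^ j) α = α → q ∣ j}

end Pool.Agent.Lib.MP_06b9d2_gr
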