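import Pool.Agent.Lib.MP_06b9d2_gr.CyD

/-!
Module GX-CyDeg. A root in a cycle of `σ` of length divisible by `q` has degree at least `q`.
-/

namespace Pool.Agent.Lib.MP_06b9d2_gr

private theorem cyDeg_aux {L : Type*} [Field L] [Algebra ℚ L] [FiniteDimensional ℚ L] (σ : L ≃ₐ[ℚ] L) (q : ℕ)
    (α : L) (h : ∀ j : ℕ, (σ ^ j) α = α → q ∣ j) : q ≤ (minpoly ℚ α).natDegree := by
  classical
  have hint : IsIntegral ℚ α := Algebra.IsIntegral.isIntegral α
  have hroot : ∀ i : ℕ, Polynomial.aeval ((σ ^ i) α) (minpoly ℚ α) = 0 := by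
    intro i
    have h1 := Polynomial.aeval_algHom_apply ((σ ^ i : L ≃ₐ[ℚ] L) : L →ₐ[ℚ] L) α (minpoly ℚ α)
    rw [minpoly.aeval, map_zero] at h1
    exact h1
  have key : ∀ i j : ℕ, i < j → j < q → (σ ^ i) α ≠ (σ ^ j) α := by
    intro i j hij hjq he
    have h2 : (σ ^ (j - i)) α = α := by
      have h3 : σ ^ j = σ ^ i * σ ^ (j - i) := by
        rw [← pow_add]
        congr 1
        omega
      rw [h3, AlgEquiv.mul_apply] at he
      exact ((σ ^ i).injective he).symm
    have h4 := Nat.le_of_dvd (by omega) (h _ h2)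
    omega
  have hinj : Set.InjOn (fun i : ℕ => (σ ^ i) α) (Finset.range q) := by
    intro i hi j hj hij
    have hi' := Finset.mem_range.1 (Finset.mem_coe.1 hi)
    have hj' := Finset.mem_range.1 (Finset.mem_coe.1 hj)
    rcases lt_trichotomy i j with h | h | h
    · exact absurd hij (key i j h hj')
    · exact h
    · exact absurd hij.symm (key j i h hi')
  have hcard : ((Finset.range q).image fun i : ℕ => (σ ^ i) α).card = q := by
    rw [Finset.card_image_of_injOn hinj, Finset.card_range]
  have hG' : (minpoly ℚ α).map (algebraMap ℚ L) ≠ 0 :=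
    (Polynomial.map_ne_zero_iff (algebraMap ℚ L).injective).2 (minpoly.ne_zero hint)
  have hdeg := Polynomial.card_le_degree_of_subset_roots
    (p := (minpoly ℚ α).map (algebraMap ℚ L))
    (Z := (Finset.range q).image fun i : ℕ => (σ ^ i) α) (by
      intro y hy
      rw [Finset.mem_val, Finset.mem_image] at hy
      obtain ⟨i, _, rfl⟩ := hy
      rw [Polynomial.mem_roots hG', Polynomial.IsRoot.def, Polynomial.eval_map_algebraMap]
      exact hroot i)
  rw [hcard, Polynomial.natDegree_map] at hdeg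
  exact hdeg

/-- the cycle of such a root has at least `q` elements, which are conjugates -/
theorem cy_deg (P : Polynomial ℚ) (hP : P ≠ 0) (σ : P.Gal) (q : ℕ) (α : P.SplittingField)
    (hα : Polynomial.aeval α P = 0) (h : ∀ j : ℕ, (σ ^ j) α = α → q ∣ j) :
    q ≤ (minpoly ℚ α).natDegree :=
  cyDeg_aux σ q α h

end Pool.Agent.Lib.MP_06b9d2_gr
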