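import Pool.Agent.Lib.MP_06b9d2_gr.Red

/-!
Module GX-RedD. Reduction modulo a prime fixed by `τ`: the degree of the reduction is divisible by `n`.

As `Red.lean` (`red`), with a divisibility. Let `c = Function.minimalPeriod τ w` (`c ∣ s`, `c ≥ 1`; `n ∣ c` by `hn c`). The elements `τ^[i] w`, `i < c`, are distinct (`τ` is injective) and stay distinct modulo `Q` for `p > B` (`δ`, `B = |Norm δ|` as in `red`). On the finite field `k = 𝓞 N / Q` the map `t` induced by `τ` is an `𝔽_p`-algebra endomorphism, so a power `x ↦ x ^ (p ^ m)` of the Frobenius map (`FiniteField.bijective_frobeniusAlgHom_pow` or similar). With `d = natDegree (minpoly (ZMod p) wbar)`: `wbar ^ (p ^ d) = wbar` (`FiniteField.pow_finrank_eq_pow...`: the field `ZMod p⟮wbar⟯` has `p ^ d` elements), so `t^[d] wbar = wbar ^ (p ^ (m d)) = wbar`, and `c ∣ d`: otherwise `t^[d % c] wbar = wbar` with `0 < d % c < c`. `v = ι wbar`; `minpoly.algHom_eq`/`minpoly.algebraMap_eq` for the degree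 of `v`.
-/

namespace Pool.Agent.Lib.MP_06b9d2_gr

open NumberField

private theorem redD_dvd (N : Type*) [Field N] [NumberField N] (δ : 𝓞 N) (p : ℕ) (hp : p.Prime)
    (Q : Ideal (𝓞 N)) (hQ : Q.IsPrime) (hpQ : (p : 𝓞 N) ∈ Q) (hδ : δ ∈ Q) :
    (p : ℤ) ∣ Algebra.norm ℤ δ := by
  by_contra hc
  have h1 : ((Algebra.norm ℤ δ : ℤ) : 𝓞 N) ∈ Q := by
    obtain ⟨c, hc'⟩ := Ideal.absNorm_dvd_norm_of_mem hδ
    rw [hc', Int.cast_mul]
    refine Q.mul_mem_right _ ?_
    have h2 := Ideal.absNorm_mem Q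
    exact_mod_cast h2
  have h2 : IsCoprime (p : ℤ) (Algebra.norm ℤ δ) :=
    (Prime.coprime_iff_not_dvd (Nat.prime_iff_prime_int.1 hp)).2 hc
  obtain ⟨a, b, hab⟩ := h2
  refine hQ.ne_top ((Ideal.eq_top_iff_one Q).2 ?_)
  have h3 : ((a : 𝓞 N)) * (p : 𝓞 N) + (b : 𝓞 N) * ((Algebra.norm ℤ δ : ℤ) : 𝓞 N) = 1 := by
    exact_mod_cast congrArg (fun z : ℤ => (z : 𝓞 N)) hab
  rw [← h3]
  exact Q.add_mem (Q.mul_mem_left _ hpQ) (Q.mul_mem_left _ h1)

/-- In a finite field `k` of characteristic `p`, an endomorphism `t` satisfies `t^[d] w = w` for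
`d` the degree of `w`. -/
private theorem redD_frob (k : Type*) [Field k] [Finite k] (p : ℕ) [Fact p.Prime]
    [Algebra (ZMod p) k] (t : k →+* k) (w : k) :
    t^[(minpoly (ZMod p) w).natDegree] w = w := by
  classical
  have : Fintype k := Fintype.ofFinite k
  have : Module.Finite (ZMod p) k := Module.Finite.of_finite
  have hint : IsIntegral (ZMod p) w := Algebra.IsIntegral.isIntegral w
  set d := (minpoly (ZMod p) w).natDegree with hd
  -- `w ^ (p ^ d) = w`
  have h1 : w ^ (p ^ d) = w := by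
    have hfin : Module.finrank (ZMod p) (IntermediateField.adjoin (ZMod p) {w}) = d :=
      IntermediateField.adjoin.finrank hint
    have : Fintype (IntermediateField.adjoin (ZMod p) {w}) := Fintype.ofFinite _
    have hcard : Fintype.card (IntermediateField.adjoin (ZMod p) {w}) = p ^ d := by
      rw [Module.card_eq_pow_finrank (K := ZMod p), hfin, ZMod.card]
    have h2 := FiniteField.pow_card (IntermediateField.AdjoinSimple.gen (ZMod p) w)
    rw [hcard] at h2
    have h3 := congrArg (algebraMap (IntermediateField.adjoin (ZMod p) {w}) k) h2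
    rwa [map_pow, IntermediateField.AdjoinSimple.algebraMap_gen] at h3
  -- `t` is a power of the Frobenius map
  obtain ⟨m, hm⟩ : ∃ m : ℕ, ∀ y : k, t y = y ^ (p ^ m) := by
    have hcomm : t.comp (algebraMap (ZMod p) k) = algebraMap (ZMod p) k := RingHom.ext_zmod _ _
    let T : k →ₐ[ZMod p] k :=
      { t with commutes' := fun r => congrArg (fun g : ZMod p →+* k => g r) hcomm }
    obtain ⟨m, hm⟩ := (FiniteField.bijective_frobeniusAlgHom_pow (ZMod p) k).2 T
    refine ⟨m.1, fun y => ?_⟩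
    have h4 : T y = (FiniteField.frobeniusAlgHom (ZMod p) k ^ m.1) y := by rw [← hm]
    have h5 : ∀ (j : ℕ) (y : k), (FiniteField.frobeniusAlgHom (ZMod p) k ^ j) y = y ^ (p ^ j) := by
      intro j
      induction j with
      | zero => intro y; simp
      | succ j ih =>
        intro y
        rw [pow_succ', AlgHom.mul_apply, ih, FiniteField.coe_frobeniusAlgHom]
        simp only [ZMod.card]
        rw [← pow_mul, pow_succ]
    rw [h5] at h4
    exact h4
  have h6 : ∀ (j : ℕ) (y : k), t^[j] y = y ^ (p ^ (m * j)) := by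
    intro j
    induction j with
    | zero => intro y; simp
    | succ j ih =>
      intro y
      rw [Function.iterate_succ_apply', ih, hm, ← pow_mul, ← pow_add]
      congr 2
  have h7 : ∀ j : ℕ, w ^ (p ^ (d * j)) = w := by
    intro j
    induction j with
    | zero => simp
    | succ j ih =>
      rw [Nat.mul_succ, pow_add, pow_mul, ih, h1]
  rw [h6, mul_comm m d, h7]

theorem redD (N : Type*) [Field N] [NumberField N] (w : 𝓞 N) (τ : 𝓞 N →+* 𝓞 N) (s n : ℕ)
    (hs : 1 ≤ s) (hτs : τ^[s] w = w) (hn : ∀ i : ℕ, τ^[i] w = w → n ∣ i)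
    (hinj : Function.Injective τ) :
    ∃ B : ℕ, ∀ (p : ℕ) [Fact p.Prime] (Q : Ideal (𝓞 N)), B < p → Q.IsPrime → (p : 𝓞 N) ∈ Q →
      (∀ x ∈ Q, τ x ∈ Q) →
      ∃ v : AlgebraicClosure (ZMod p), (∀ F : Polynomial ℤ, Polynomial.aeval w F = 0 →
        Polynomial.aeval v F = 0) ∧ n ∣ (minpoly (ZMod p) v).natDegree := by
  classical
  obtain ⟨c, hc⟩ : ∃ c : ℕ, c = Function.minimalPeriod (τ : 𝓞 N → 𝓞 N) w := ⟨_, rfl⟩
  have hcpos : 0 < c := by
    rw [hc]
    exact Function.minimalPeriod_pos_of_mem_periodicPts (Function.mk_mem_periodicPts hs hτs)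
  have hnc : n ∣ c := hn c (by rw [hc]; exact Function.iterate_minimalPeriod)
  have hdist : ∀ i j : ℕ, i < j → j < c → τ^[i] w ≠ τ^[j] w := by
    intro i j hij hjc h
    have h1 : τ^[i] (τ^[j - i] w) = τ^[i] w := by
      rw [← Function.iterate_add_apply, Nat.add_sub_cancel' hij.le, h]
    have h2 : τ^[j - i] w = w := hinj.iterate i h1
    have h3 : Function.minimalPeriod (τ : 𝓞 N → 𝓞 N) w ≤ j - i :=
      Function.IsPeriodicPt.minimalPeriod_le (Nat.sub_pos_of_lt hij) h2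
    omega
  obtain ⟨δ, hδ⟩ : ∃ δ : 𝓞 N, δ = ∏ x ∈ (Finset.range c ×ˢ Finset.range c).filter (fun x => x.1 < x.2),
      (τ^[x.1] w - τ^[x.2] w) := ⟨_, rfl⟩
  have hδ0 : δ ≠ 0 := by
    rw [hδ, Finset.prod_ne_zero_iff]
    intro x hx
    rw [Finset.mem_filter, Finset.mem_product, Finset.mem_range, Finset.mem_range] at hx
    exact sub_ne_zero.2 (hdist x.1 x.2 hx.2 hx.1.2)
  have hnorm : Algebra.norm ℤ δ ≠ 0 := Algebra.norm_ne_zero_iff.2 hδ0
  refine ⟨(Algebra.norm ℤ δ).natAbs, fun p hp Q hB hQ hpQ hτ => ?_⟩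
  have hpp : p.Prime := hp.out
  have hδQ : δ ∉ Q := by
    intro hmem
    have h1 := redD_dvd N δ p hpp Q hQ hpQ hmem
    have h2 : p ∣ (Algebra.norm ℤ δ).natAbs := Int.natCast_dvd.1 h1
    have h3 := Nat.le_of_dvd (Int.natAbs_pos.2 hnorm) h2
    omega
  have hne : Q ≠ ⊥ := by
    intro h
    rw [h, Ideal.mem_bot] at hpQ
    exact hpp.ne_zero (by exact_mod_cast hpQ)
  have hmax : Q.IsMaximal := hQ.isMaximal hne
  let : Field (𝓞 N ⧸ Q) := Ideal.Quotient.field Q
  have : Finite (𝓞 N ⧸ Q) := Ideal.finiteQuotientOfFreeOfNeBot Q hne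
  have : CharP (𝓞 N ⧸ Q) p := by
    rw [CharP.charP_iff_prime_eq_zero hpp, ← map_natCast (Ideal.Quotient.mk Q), Ideal.Quotient.eq_zero_iff_mem]
    exact hpQ
  let : Algebra (ZMod p) (𝓞 N ⧸ Q) := ZMod.algebra _ p
  have : Module.Finite (ZMod p) (𝓞 N ⧸ Q) := Module.Finite.of_finite
  have : Algebra.IsAlgebraic (ZMod p) (𝓞 N ⧸ Q) := Algebra.IsAlgebraic.of_finite _ _
  obtain ⟨ι⟩ : Nonempty ((𝓞 N ⧸ Q) →ₐ[ZMod p] AlgebraicClosure (ZMod p)) := ⟨IsAlgClosed.lift⟩
  refine ⟨ι (Ideal.Quotient.mk Q w), ?_, ?_⟩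
  · intro F hF
    have h1 := Polynomial.aeval_algHom_apply ((ι : (𝓞 N ⧸ Q) →+* AlgebraicClosure (ZMod p)).comp
      (Ideal.Quotient.mk Q)).toIntAlgHom w F
    rw [hF, map_zero] at h1
    exact h1
  · have hι : Function.Injective ι := ι.toRingHom.injective
    rw [minpoly.algHom_eq ι hι]
    obtain ⟨t, ht⟩ : ∃ t : (𝓞 N ⧸ Q) →+* (𝓞 N ⧸ Q), ∀ y, t (Ideal.Quotient.mk Q y) =
        Ideal.Quotient.mk Q (τ y) :=
      ⟨Ideal.quotientMap Q τ (fun x hx => hτ x hx), fun y => Ideal.quotientMap_mk⟩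
    have hit : ∀ i : ℕ, t^[i] (Ideal.Quotient.mk Q w) = Ideal.Quotient.mk Q (τ^[i] w) := by
      intro i
      induction i with
      | zero => rfl
      | succ i ih => rw [Function.iterate_succ_apply', ih, ht, Function.iterate_succ_apply']
    have hfr := redD_frob (𝓞 N ⧸ Q) p t (Ideal.Quotient.mk Q w)
    set d := (minpoly (ZMod p) (Ideal.Quotient.mk Q w)).natDegree with hd
    rw [hit] at hfr
    have hmod : τ^[d % c] w = τ^[d] w := by
      rw [hc]
      exact Function.iterate_mod_minimalPeriod_eq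
    refine hnc.trans (Nat.dvd_of_mod_eq_zero ?_)
    by_contra hr
    have hrc : d % c < c := Nat.mod_lt _ hcpos
    rw [← hmod] at hfr
    have key : Ideal.Quotient.mk Q w ≠ Ideal.Quotient.mk Q (τ^[d % c] w) := by
      intro h
      rw [Ideal.Quotient.eq] at h
      refine hδQ ?_
      rw [hδ, ← Finset.mul_prod_erase _ _ (show (0, d % c) ∈ (Finset.range c ×ˢ Finset.range c).filter
        (fun x => x.1 < x.2) from ?_)]
      · exact Q.mul_mem_right _ h
      · rw [Finset.mem_filter, Finset.mem_product, Finset.mem_range, Finset.mem_range]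
        exact ⟨⟨hcpos, hrc⟩, Nat.pos_of_ne_zero hr⟩
    exact key hfr.symm

end Pool.Agent.Lib.MP_06b9d2_gr
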