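import Pool.Agent.Lib.MP_06b9d2_gr.Dec
import Pool.Agent.Lib.MP_06b9d2_gr.RedD

/-!
Module GX-CycD. As `Cyc.lean` (`cyc`) with a divisibility.
-/

namespace Pool.Agent.Lib.MP_06b9d2_gr

open NumberField

private theorem prime_mem {N : Type*} [Field N] [NumberField N] (Q : Ideal (𝓞 N)) (hQ : Q.IsPrime)
    (hQ0 : Q ≠ ⊥) : ∃ p : ℕ, p.Prime ∧ (p : 𝓞 N) ∈ Q := by
  have h1 : ((Ideal.absNorm Q : ℕ) : 𝓞 N) ∈ Q := Ideal.absNorm_mem Q
  have h2 : Ideal.absNorm Q ≠ 0 := by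
    rw [Ne, Ideal.absNorm_eq_zero_iff]
    exact hQ0
  have h3 : ∀ m : ℕ, m ≠ 0 → (m : 𝓞 N) ∈ Q → ∃ p : ℕ, p.Prime ∧ (p : 𝓞 N) ∈ Q := by
    intro m
    induction m using Nat.strong_induction_on with
    | _ m ih =>
      intro hm hmQ
      by_cases h1m : m = 1
      · subst h1m
        exfalso
        apply hQ.ne_top
        rw [Ideal.eq_top_iff_one]
        simpa using hmQ
      · obtain ⟨p, hp, k, rfl⟩ := Nat.exists_prime_and_dvd h1m
        rw [Nat.cast_mul] at hmQ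
        rcases hQ.mem_or_mem hmQ with h | h
        · exact ⟨p, hp, h⟩
        · have hk : k ≠ 0 := by
            rintro rfl
            exact hm (mul_zero _)
          refine ih k ?_ hk h
          have := hp.two_le
          have hk1 : 0 < k := Nat.pos_of_ne_zero hk
          nlinarith
  exact h3 _ h2 h1

private theorem exists_Q {N : Type*} [Field N] [NumberField N] (p : ℕ) (hp : p.Prime) :
    ∃ Q : Ideal (𝓞 N), Q.IsPrime ∧ (p : 𝓞 N) ∈ Q := by
  have hm : (Ideal.span {(p : ℤ)} : Ideal ℤ).IsMaximal := by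
    have h1 : (Ideal.span {(p : ℤ)} : Ideal ℤ).IsPrime := by
      rw [Ideal.span_singleton_prime (by exact_mod_cast hp.ne_zero)]
      exact Nat.prime_iff_prime_int.1 hp
    refine h1.isMaximal ?_
    rw [Ne, Ideal.span_singleton_eq_bot]
    exact_mod_cast hp.ne_zero
  obtain ⟨Q, hQ, hQ2⟩ := Ideal.exists_ideal_over_maximal_of_isIntegral (S := 𝓞 N)
    (Ideal.span {(p : ℤ)}) (by
      rw [(RingHom.injective_iff_ker_eq_bot _).1 (FaithfulSMul.algebraMap_injective ℤ (𝓞 N))]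
      exact bot_le)
  refine ⟨Q, hQ.isPrime, ?_⟩
  have h1 : (p : ℤ) ∈ Q.comap (algebraMap ℤ (𝓞 N)) := by
    rw [hQ2]
    exact Ideal.mem_span_singleton_self _
  rw [Ideal.mem_comap] at h1
  simpa using h1

private theorem fin_S (L : Type*) [Field L] [NumberField L] (M : ℕ) :
    {q : Ideal (𝓞 L) | ∃ m : ℕ, 1 ≤ m ∧ m ≤ M ∧ (m : 𝓞 L) ∈ q}.Finite := by
  classical
  have h1 : {q : Ideal (𝓞 L) | ∃ m : ℕ, 1 ≤ m ∧ m ≤ M ∧ (m : 𝓞 L) ∈ q} ⊆
      ⋃ m ∈ Finset.Icc 1 M, {q : Ideal (𝓞 L) | q ∣ Ideal.span {(m : 𝓞 L)}} := by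
    rintro q ⟨m, hm1, hm2, hm3⟩
    simp only [Set.mem_iUnion, Finset.mem_Icc, Set.mem_ofPred_eq]
    refine ⟨m, ⟨hm1, hm2⟩, ?_⟩
    rw [Ideal.dvd_span_singleton]
    exact hm3
  refine Set.Finite.subset ?_ h1
  refine Set.Finite.biUnion (Finset.finite_toSet _) ?_
  intro m hm
  have hm1 : 1 ≤ m := (Finset.mem_Icc.1 hm).1
  have h0 : (Ideal.span {(m : 𝓞 L)} : Ideal (𝓞 L)) ≠ 0 := by
    rw [Ne, Ideal.zero_eq_bot, Ideal.span_singleton_eq_bot]
    exact_mod_cast (by omega : m ≠ 0)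
  have h2 : Finite {q : Ideal (𝓞 L) // q ∣ Ideal.span {(m : 𝓞 L)}} :=
    @Finite.of_fintype _ (UniqueFactorizationMonoid.fintypeSubtypeDvd _ h0)
  exact Set.finite_coe_iff.1 h2

theorem cycD (N : Type*) [Field N] [NumberField N] (w : 𝓞 N) (τ : N ≃ₐ[ℚ] N) (b n : ℕ)
    (hb : orderOf τ = 2 ^ b) (hn : ∀ i : ℕ, (τ ^ i) (w : N) = w → n ∣ i) (B : ℕ) :
    ∃ (p : ℕ) (_ : Fact p.Prime), B < p ∧
      ∃ v : AlgebraicClosure (ZMod p), (∀ F : Polynomial ℤ, Polynomial.aeval w F = 0 →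
        Polynomial.aeval v F = 0) ∧ n ∣ (minpoly (ZMod p) v).natDegree := by
  obtain ⟨T, hT⟩ : ∃ T : 𝓞 N →+* 𝓞 N, T = (RingOfIntegers.mapRingEquiv (τ : N ≃+* N)).toRingHom :=
    ⟨_, rfl⟩
  have hTc : ∀ x : 𝓞 N, ((T x : 𝓞 N) : N) = τ (x : N) := by
    intro x
    rw [hT]
    rfl
  have hTi : ∀ i : ℕ, ∀ x : 𝓞 N, ((T^[i] x : 𝓞 N) : N) = (τ ^ i) (x : N) := by
    intro i
    induction i with
    | zero => intro x; simp
    | succ i ih =>
      intro x
      rw [Function.iterate_succ_apply', hTc, ih, pow_succ', AlgEquiv.mul_apply]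
  have hTn : ∀ i : ℕ, T^[i] w = w → n ∣ i := by
    intro i hi
    refine hn i ?_
    rw [← hTi, hi]
  have hTs : T^[2 ^ b] w = w := by
    apply RingOfIntegers.ext
    rw [hTi, ← hb, pow_orderOf_eq_one, AlgEquiv.one_apply]
  have hTinj : Function.Injective T := by
    rw [hT]
    exact (RingOfIntegers.mapRingEquiv (τ : N ≃+* N)).injective
  obtain ⟨B1, hB1⟩ := redD N w T (2 ^ b) n Nat.one_le_two_pow hTs hTn hTinj
  by_cases hb0 : b = 0
  · subst hb0
    have hτ : τ = 1 := by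
      rw [pow_zero, orderOf_eq_one_iff] at hb
      exact hb
    obtain ⟨p, hp1, hp2⟩ := Nat.exists_infinite_primes (B + B1 + 1)
    have : Fact p.Prime := ⟨hp2⟩
    obtain ⟨Q, hQ, hpQ⟩ := exists_Q (N := N) p hp2
    refine ⟨p, inferInstance, by omega, ?_⟩
    refine hB1 p Q (by omega) hQ hpQ ?_
    intro x hx
    have h1 : T x = x := by
      apply RingOfIntegers.ext
      rw [hTc, hτ]
      rfl
    rw [h1]
    exact hx
  · obtain ⟨b', rfl⟩ : ∃ b', b = b' + 1 := ⟨b - 1, by omega⟩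
    obtain ⟨L, hL⟩ : ∃ L : IntermediateField ℚ N,
        L = IntermediateField.fixedField (Subgroup.zpowers τ) := ⟨_, rfl⟩
    have hfix : IntermediateField.fixingSubgroup L = Subgroup.zpowers τ := by
      rw [hL]
      exact IntermediateField.fixingSubgroup_fixedField _
    have hmem : τ ∈ IntermediateField.fixingSubgroup L := by
      rw [hfix]
      exact Subgroup.mem_zpowers τ
    obtain ⟨ϕ, hϕ⟩ : ∃ ϕ : IntermediateField.fixingSubgroup L ≃* (N ≃ₐ[L] N),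
        ϕ = IntermediateField.fixingSubgroupEquiv L := ⟨_, rfl⟩
    have hϕc : ∀ (g : IntermediateField.fixingSubgroup L) (x : N), ϕ g x = (g : N ≃ₐ[ℚ] N) x := by
      intro g x
      rw [hϕ]
      rfl
    have hGal : IsGalois L N := by
      apply IsGalois.of_card_aut_eq_finrank
      rw [← Nat.card_congr ϕ.toEquiv, hfix]
      subst hL
      exact (IntermediateField.finrank_fixedField_eq_card (Subgroup.zpowers τ)).symm
    obtain ⟨τ', hτ'⟩ : ∃ τ' : N ≃ₐ[L] N, τ' = ϕ ⟨τ, hmem⟩ := ⟨_, rfl⟩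
    have hτc : ∀ x : N, τ' x = τ x := by
      intro x
      rw [hτ', hϕc]
    have hord : orderOf τ' = 2 ^ (b' + 1) := by
      rw [hτ', MulEquiv.orderOf_eq, ← hb]
      exact Subgroup.orderOf_mk τ hmem
    have hgen : ∀ g : N ≃ₐ[L] N, g ∈ Subgroup.zpowers τ' := by
      intro g
      obtain ⟨g', hg'⟩ := ϕ.surjective g
      have h1 : (g' : N ≃ₐ[ℚ] N) ∈ Subgroup.zpowers τ := by
        rw [← hfix]
        exact g'.2
      obtain ⟨k, hk⟩ := Subgroup.mem_zpowers_iff.1 h1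
      rw [Subgroup.mem_zpowers_iff]
      refine ⟨k, ?_⟩
      rw [hτ', ← map_zpow, ← hg']
      congr 1
      apply Subtype.ext
      rw [← hk]
      rfl
    obtain ⟨Q, hQ, hQ0, hQS, hQτ⟩ := dec L N τ' hgen b' hord
      {q : Ideal (𝓞 L) | ∃ m : ℕ, 1 ≤ m ∧ m ≤ B + B1 ∧ (m : 𝓞 L) ∈ q} (fin_S L (B + B1))
    obtain ⟨p, hp, hpQ⟩ := prime_mem Q hQ hQ0
    have hpB : B + B1 < p := by
      by_contra hcon
      apply hQS
      refine ⟨p, hp.one_lt.le, by omega, ?_⟩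
      rw [Ideal.mem_comap, map_natCast]
      exact hpQ
    have : Fact p.Prime := ⟨hp⟩
    refine ⟨p, inferInstance, by omega, ?_⟩
    refine hB1 p Q (by omega) hQ hpQ ?_
    intro x hx
    have h1 : T x = RingOfIntegers.mapRingEquiv (τ' : N ≃+* N) x := by
      apply RingOfIntegers.ext
      rw [hTc, RingOfIntegers.mapRingEquiv_apply]
      exact (hτc _).symm
    rw [h1]
    exact hQτ x hx

end Pool.Agent.Lib.MP_06b9d2_gr
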