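import Mathlib

/-!
Module GR-Nrm. In a quadratic extension two distinct primes above `q` have the norm of `q`.

`∑_{Q above q} e_Q f_Q = 2` (`Ideal.sum_ramification_inertia`), all `e`, `f` are at least `1`, so `f_{Q1} = f_{Q2} = 1`, and `N Q = N q ^ f` (`Ideal.absNorm_eq_pow_inertiaDeg`-like, or by counting: `#(𝓞 L' / Q) = #(𝓞 L / q) ^ f`, `Module.card_eq_pow_finrank`).
-/

namespace Pool.Agent.Lib.MP_06b9d2_gr

open NumberField

theorem nrm (L L' : Type*) [Field L] [NumberField L] [Field L'] [NumberField L'] [Algebra L L']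
    (h2 : Module.finrank L L' = 2) (q : Ideal (𝓞 L)) (hq : q.IsPrime) (hq0 : q ≠ ⊥)
    (Q1 Q2 : Ideal (𝓞 L')) (h1 : Q1.IsPrime) (h2' : Q2.IsPrime) (hne : Q1 ≠ Q2)
    (hQ1 : Ideal.comap (algebraMap (𝓞 L) (𝓞 L')) Q1 = q)
    (hQ2 : Ideal.comap (algebraMap (𝓞 L) (𝓞 L')) Q2 = q) :
    Ideal.absNorm Q1 = Ideal.absNorm q ∧ Ideal.absNorm Q2 = Ideal.absNorm q := by
  classical
  have : q.IsMaximal := hq.isMaximal hq0
  have : Q1.IsPrime := h1
  have : Q2.IsPrime := h2'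
  have l1 : Q1.LiesOver q := ⟨hQ1.symm⟩
  have l2 : Q2.LiesOver q := ⟨hQ2.symm⟩
  have hsum := Ideal.sum_ramification_inertia (𝓞 L') L L' (p := q) hq0
  rw [h2] at hsum
  have m1 : Q1 ∈ IsDedekindDomain.primesOverFinset q (𝓞 L') :=
    (IsDedekindDomain.mem_primesOverFinset_iff hq0 _).mpr ⟨h1, l1⟩
  have m2 : Q2 ∈ IsDedekindDomain.primesOverFinset q (𝓞 L') :=
    (IsDedekindDomain.mem_primesOverFinset_iff hq0 _).mpr ⟨h2', l2⟩
  have hpair : ∑ P ∈ ({Q1, Q2} : Finset (Ideal (𝓞 L'))),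
      Ideal.ramificationIdx' q P * Ideal.inertiaDeg' q P ≤ 2 := by
    rw [← hsum]
    apply Finset.sum_le_sum_of_subset
    intro P hP
    rw [Finset.mem_insert, Finset.mem_singleton] at hP
    rcases hP with rfl | rfl
    · exact m1
    · exact m2
  rw [Finset.sum_pair hne] at hpair
  have e1 : 0 < Ideal.ramificationIdx' q Q1 :=
    Nat.pos_iff_ne_zero.mpr (Ideal.IsDedekindDomain.ramificationIdx'_ne_zero_of_liesOver Q1 hq0)
  have e2 : 0 < Ideal.ramificationIdx' q Q2 :=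
    Nat.pos_iff_ne_zero.mpr (Ideal.IsDedekindDomain.ramificationIdx'_ne_zero_of_liesOver Q2 hq0)
  have f1 : 0 < Ideal.inertiaDeg' q Q1 := Nat.pos_iff_ne_zero.mpr (Ideal.inertiaDeg'_ne_zero q Q1)
  have f2 : 0 < Ideal.inertiaDeg' q Q2 := Nat.pos_iff_ne_zero.mpr (Ideal.inertiaDeg'_ne_zero q Q2)
  have a1 : Ideal.inertiaDeg' q Q1 ≤ Ideal.ramificationIdx' q Q1 * Ideal.inertiaDeg' q Q1 :=
    Nat.le_mul_of_pos_left _ e1
  have a2 : Ideal.inertiaDeg' q Q2 ≤ Ideal.ramificationIdx' q Q2 * Ideal.inertiaDeg' q Q2 :=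
    Nat.le_mul_of_pos_left _ e2
  have b1 : Ideal.inertiaDeg' q Q1 = 1 := by omega
  have b2 : Ideal.inertiaDeg' q Q2 = 1 := by omega
  constructor
  · rw [Ideal.absNorm_eq_pow_inertiaDeg'_of_liesOver Q1 q hq hq0, b1, pow_one]
  · rw [Ideal.absNorm_eq_pow_inertiaDeg'_of_liesOver Q2 q hq hq0, b2, pow_one]

end Pool.Agent.Lib.MP_06b9d2_gr
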