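import Pool.Agent.Lib.MP_06b9d2_gr.Ins
import Pool.Agent.Lib.MP_06b9d2_gr.Nrm

/-!
Module GR-Dec. Primes of `N` fixed by `τ` (`N / L` cyclic of order `2 ^ (b + 1)`, generated by `τ`).

`L' = IntermediateField.fixedField (Subgroup.zpowers (τ ^ 2)) : IntermediateField L N`; `finrank L L' = 2` (`finrank L' N = orderOf (τ ^ 2) = 2 ^ b`, `finrank L N = card (N ≃ₐ[L] N) = 2 ^ (b + 1)`). `ins` for `L`, `L'`, `S` gives `q`; let `Q` be a prime of `𝓞 N` above `q` (`Ideal.exists_ideal_over_maximal_of_isIntegral`). If some `g = τ ^ i` with `i` odd satisfies `g Q = Q` then `τ Q = Q`: `τ = g ^ j` for some `j` (the order of `τ` is a power of `2`), done. Otherwise the two primes `Q ∩ 𝓞 L'` and `τ Q ∩ 𝓞 L'` of `L'` are above `q`; they are distinct: if they are equal then by the transitivity of `Gal (N / L')` on the primes above it (`Ideal.exists_map_eq_of_isGalois`, or `IsGaloisGroup` version) there is `h` with `h (τ Q)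 = Q`, `h ∈ Gal (N / L') = zpowers (τ ^ 2)` (`IntermediateField.fixingSubgroup_fixedField`), so `h * τ` is an odd power of `τ` which fixes `Q`. By `nrm` both have the norm of `q`, against the choice of `q`.
-/

namespace Pool.Agent.Lib.MP_06b9d2_gr

open NumberField

theorem dec (L N : Type*) [Field L] [NumberField L] [Field N] [NumberField N] [Algebra L N]
    [IsGalois L N] (τ : N ≃ₐ[L] N) (hgen : ∀ g : N ≃ₐ[L] N, g ∈ Subgroup.zpowers τ) (b : ℕ)
    (hb : orderOf τ = 2 ^ (b + 1)) (S : Set (Ideal (𝓞 L))) (hS : S.Finite) :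
    ∃ Q : Ideal (𝓞 N), Q.IsPrime ∧ Q ≠ ⊥ ∧ Ideal.comap (algebraMap (𝓞 L) (𝓞 N)) Q ∉ S ∧
      ∀ x ∈ Q, RingOfIntegers.mapRingEquiv (τ : N ≃+* N) x ∈ Q := by
  classical
  let H : Subgroup (N ≃ₐ[L] N) := Subgroup.zpowers (τ ^ 2)
  let L' : IntermediateField L N := FixedPoints.intermediateField H
  have hL' : NumberField L' := inferInstance
  have hcardG : Module.finrank L N = 2 ^ (b + 1) := by
    rw [← IsGalois.card_aut_eq_finrank, ← hb]
    exact (orderOf_eq_card_of_forall_mem_zpowers hgen).symm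
  have hcardH : Module.finrank L' N = 2 ^ b := by
    have h1 : Module.finrank L' N = Nat.card H :=
      IsGaloisGroup.finrank_fixedPoints_eq_card_subgroup (N ≃ₐ[L] N) L N H
    rw [h1, Nat.card_zpowers, orderOf_pow' _ two_ne_zero, hb]
    have h2 : Nat.gcd (2 ^ (b + 1)) 2 = 2 := by
      apply Nat.gcd_eq_right
      rw [pow_succ]
      exact Dvd.intro_left _ rfl
    rw [h2, pow_succ, Nat.mul_div_cancel _ (by norm_num : 0 < 2)]
  have h2 : Module.finrank L L' = 2 := by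
    have h1 := Module.finrank_mul_finrank L L' N
    rw [hcardG, hcardH, pow_succ, mul_comm (2 ^ b) 2] at h1
    exact Nat.eq_of_mul_eq_mul_right (by positivity) h1
  obtain ⟨q, hq, hq0, hqS, hno⟩ := ins L L' S hS
  obtain ⟨Q, -, hQ, hQq⟩ := Ideal.exists_ideal_over_prime_of_isIntegral (S := 𝓞 N) q ⊥ (by
    rw [Ideal.comap_bot_of_injective _ (FaithfulSMul.algebraMap_injective (𝓞 L) (𝓞 N))]
    exact bot_le)
  have hQ0 : Q ≠ ⊥ := by
    rintro rfl
    rw [Ideal.comap_bot_of_injective _ (FaithfulSMul.algebraMap_injective (𝓞 L) (𝓞 N))] at hQq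
    exact hq0 hQq.symm
  refine ⟨Q, hQ, hQ0, by rw [hQq]; exact hqS, ?_⟩
  -- the action
  have hact : ∀ (g : N ≃ₐ[L] N) (x : 𝓞 N),
      RingOfIntegers.mapRingEquiv (g : N ≃+* N) x = g • x := by
    intro g x
    apply RingOfIntegers.ext
    rfl
  have key : ∀ i : ℕ, Odd i → (∀ x ∈ Q, (τ ^ i) • x ∈ Q) → ∀ x ∈ Q, τ • x ∈ Q := by
    intro i hi hfix
    have hcop : i.Coprime (orderOf τ) := by
      rw [hb]
      exact (Nat.Coprime.pow_right _ (Nat.Coprime.symm (Nat.coprime_two_left.2 hi)))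
    obtain ⟨j, hj⟩ := exists_pow_eq_self_of_coprime hcop
    have hall : ∀ (n : ℕ), ∀ x ∈ Q, ((τ ^ i) ^ n) • x ∈ Q := by
      intro n
      induction n with
      | zero => intro x hx; rw [pow_zero, one_smul]; exact hx
      | succ n ih => intro x hx; rw [pow_succ', mul_smul]; exact hfix _ (ih x hx)
    intro x hx
    have h1 := hall j x hx
    rwa [hj] at h1
  by_contra hcon
  have hodd : ∀ i : ℕ, Odd i → ¬ ∀ x ∈ Q, (τ ^ i) • x ∈ Q := by
    intro i hi hfix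
    apply hcon
    intro x hx
    rw [hact]
    exact key i hi hfix x hx
  apply hno
  let f : 𝓞 N →+* 𝓞 N := MulSemiringAction.toRingHom (N ≃ₐ[L] N) (𝓞 N) τ
  let Q' : Ideal (𝓞 N) := Ideal.comap f Q
  have hQ' : Q'.IsPrime := Ideal.comap_isPrime f Q
  have hmemQ' : ∀ x : 𝓞 N, x ∈ Q' ↔ τ • x ∈ Q := fun x => Iff.rfl
  let Q1 : Ideal (𝓞 L') := Ideal.comap (algebraMap (𝓞 L') (𝓞 N)) Q
  let Q2 : Ideal (𝓞 L') := Ideal.comap (algebraMap (𝓞 L') (𝓞 N)) Q'
  have h1p : Q1.IsPrime := Ideal.comap_isPrime _ Q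
  have h2p : Q2.IsPrime := Ideal.comap_isPrime _ Q'
  have hfixL : ∀ x : 𝓞 L, τ • (algebraMap (𝓞 L) (𝓞 N) x) = algebraMap (𝓞 L) (𝓞 N) x := by
    intro x
    apply RingOfIntegers.ext
    exact τ.commutes (x : L)
  have htower : ∀ x : 𝓞 L, algebraMap (𝓞 L') (𝓞 N) (algebraMap (𝓞 L) (𝓞 L') x) =
      algebraMap (𝓞 L) (𝓞 N) x := fun x => rfl
  have hc1 : Ideal.comap (algebraMap (𝓞 L) (𝓞 L')) Q1 = q := by
    rw [← hQq]
    ext x
    rw [Ideal.mem_comap, Ideal.mem_comap, Ideal.mem_comap, htower]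
  have hc2 : Ideal.comap (algebraMap (𝓞 L) (𝓞 L')) Q2 = q := by
    rw [← hQq]
    ext x
    have hfx : f (algebraMap (𝓞 L) (𝓞 N) x) = algebraMap (𝓞 L) (𝓞 N) x := hfixL x
    rw [Ideal.mem_comap, Ideal.mem_comap, Ideal.mem_comap, htower, hfx, Ideal.mem_comap]
  have hne : Q1 ≠ Q2 := by
    intro heq
    have hlo1 : Q.LiesOver Q1 := ⟨rfl⟩
    have hlo2 : Q'.LiesOver Q1 := ⟨heq⟩
    have hG : IsGaloisGroup H L' N := IsGaloisGroup.subgroup (N ≃ₐ[L] N) L N H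
    have hG' : IsGaloisGroup H (𝓞 L') (𝓞 N) :=
      IsGaloisGroup.of_isFractionRing H (𝓞 L') (𝓞 N) L' N
    obtain ⟨σ, hσ⟩ := Ideal.exists_smul_eq_of_isGaloisGroup Q1 Q Q' H
    obtain ⟨σ, hσm⟩ := σ
    -- `σ = τ ^ (2 i)`, a natural power
    obtain ⟨i, hi⟩ : ∃ i : ℕ, (τ ^ 2) ^ i = σ := by
      have := (mem_powers_iff_mem_zpowers (x := τ ^ 2) (y := σ)).2 hσm
      exact this
    apply hodd (2 * i + 1) ⟨i, rfl⟩
    intro x hx
    have h3 : σ • x ∈ Q' := by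
      rw [← hσ]
      exact Ideal.smul_mem_pointwise_smul (⟨σ, hσm⟩ : H) x Q hx
    rw [hmemQ'] at h3
    rw [pow_succ', mul_smul, pow_mul, hi]
    exact h3
  obtain ⟨hn1, hn2⟩ := nrm L L' h2 q hq hq0 Q1 Q2 h1p h2p hne hc1 hc2
  exact ⟨Q1, Q2, h1p, h2p, hne, hc1, hc2, hn1, hn2⟩

end Pool.Agent.Lib.MP_06b9d2_gr
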