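import Pool.Agent.Lib.L1.Eis
import Pool.Agent.Lib.L1.SpanC
import Pool.Agent.Lib.MP_06b9d2_nt.MD.HeckeQ

/-!
MP_06b9d2_nt (Maeda), growth of the degrees: the Hecke operator `T_2` on power series and cusp forms over any ring.
-/

namespace Pool.Agent.Lib.MP_06b9d2_gr

open UpperHalfPlane Pool.Agent.L1 Pool.Agent.Lib.MP_06b9d2_nt
open scoped MatrixGroups ModularForm

/-- the Hecke operator `T_2` of weight `k` on power series -/
noncomputable def H2 (R : Type) [CommRing R] (k : ℕ) : PowerSeries R →ₗ[R] PowerSeries R where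
  toFun f := PowerSeries.mk fun m => PowerSeries.coeff (2 * m) f +
    2 ^ (k - 1) * (if 2 ∣ m then PowerSeries.coeff (m / 2) f else 0)
  map_add' f g := by
    ext m
    simp only [PowerSeries.coeff_mk, map_add]
    split_ifs <;> ring
  map_smul' c f := by
    ext m
    simp only [PowerSeries.coeff_mk, PowerSeries.coeff_smul, smul_eq_mul, RingHom.id_apply]
    split_ifs <;> ring

/-- the cusp forms of weight `k` over `R` -/
noncomputable def SC (R : Type) [CommRing R] (k : ℕ) : Submodule R (PowerSeries R) :=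
  ML R k ⊓ LinearMap.ker (PowerSeries.coeff (R := R) 0)

theorem coeff_H2 (R : Type) [CommRing R] (k m : ℕ) (f : PowerSeries R) :
    PowerSeries.coeff m (H2 R k f) = PowerSeries.coeff (2 * m) f +
      2 ^ (k - 1) * (if 2 ∣ m then PowerSeries.coeff (m / 2) f else 0) := by
  show PowerSeries.coeff m (PowerSeries.mk fun m => PowerSeries.coeff (2 * m) f +
    2 ^ (k - 1) * (if 2 ∣ m then PowerSeries.coeff (m / 2) f else 0)) = _
  rw [PowerSeries.coeff_mk]

theorem map_H2 {R S : Type} [CommRing R] [CommRing S] (φ : R →+* S) (k : ℕ) (f : PowerSeries R) :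
    PowerSeries.map φ (H2 R k f) = H2 S k (PowerSeries.map φ f) := by
  ext m
  rw [PowerSeries.coeff_map, coeff_H2, coeff_H2, map_add, map_mul, map_pow, map_ofNat]
  split_ifs <;> simp

end Pool.Agent.Lib.MP_06b9d2_gr
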