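import Pool.Agent.Lib.MP_06b9d2_nt.MF.Main

/-!
The dihedral eigenvalue modulo `p` in weight `3 (p + 1) / 2` (`Dih.lean`), with its exact degree.
-/

namespace Pool.Agent.Lib.MP_06b9d2_gr

open UpperHalfPlane Pool.Agent.L1 Pool.Agent.Lib.MP_06b9d2_nt Pool.Agent.Lib.MP_06b9d2_nt.ME
  Pool.Agent.Lib.MP_06b9d2_nt.MF
open scoped MatrixGroups ModularForm

private theorem dih_two {p : ℕ} [Fact p.Prime] (h8 : p % 8 = 7) :
    (2 : ZMod p) ≠ 0 ∧ (2 : ZMod p) ^ ((p - 1) / 2) = 1 := by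
  have h2 : (2 : ZMod p) ≠ 0 := by
    intro h
    have h3 : ((2 : ℕ) : ZMod p) = 0 := by exact_mod_cast h
    rw [ZMod.natCast_eq_zero_iff] at h3
    have := Nat.le_of_dvd two_pos h3
    omega
  refine ⟨h2, ?_⟩
  have h3 : IsSquare (2 : ZMod p) := (ZMod.exists_sq_eq_two_iff (by omega)).2 (Or.inr h8)
  have h4 := (ZMod.euler_criterion p h2).1 h3
  have h5 : (p - 1) / 2 = p / 2 := by omega
  rw [h5]
  exact h4

private theorem dih_root {p : ℕ} [Fact p.Prime] {K : Type} [Field K] [Algebra (ZMod p) K]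
    (G : Polynomial ℤ) (w : ZMod p) (lam : K)
    (h : ∑ i ∈ Finset.range (G.natDegree + 1),
      algebraMap (ZMod p) K (((G.coeff i : ℤ) : ZMod p) * w ^ i) * lam ^ i = 0) :
    Polynomial.aeval (algebraMap (ZMod p) K w * lam) (G.map (Int.castRingHom (ZMod p))) = 0 := by
  rw [Polynomial.aeval_eq_sum_range' (n := G.natDegree + 1)
    (Nat.lt_succ_of_le Polynomial.natDegree_map_le)]
  rw [← h]
  refine Finset.sum_congr rfl fun i _ => ?_
  rw [Polynomial.coeff_map, Algebra.smul_def, mul_pow, map_mul, map_pow, mul_assoc]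
  rfl

/-- the cusp form `Δ ^ N` -/
private theorem dih_form (N : ℕ) (hN : N ≠ 0) : ∃ f : CuspForm 𝒮ℒ ((12 * N : ℕ) : ℤ),
    PowerSeries.map (Int.castRingHom ℂ) (Delz ^ N) = qExpansion 1 f := by
  have hd : PowerSeries.map (Int.castRingHom ℂ) (Delz ^ N) = dl ℂ ^ N := by
    rw [map_pow]
    rfl
  have hm : PowerSeries.map (Int.castRingHom ℂ) (Delz ^ N) ∈ ML ℂ (12 * N) := by
    rw [hd, mul_comm]
    exact pow_mem_ML dl_mem N
  obtain ⟨f, hf⟩ := exists_form_of_mem hm ((12 * N : ℕ) : ℤ) rfl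
  refine ⟨ModularForm.toCuspForm f ?_, hf.symm⟩
  rw [hf, PowerSeries.coeff_map, PowerSeries.coeff_zero_eq_constantCoeff_apply, map_pow,
    ← PowerSeries.coeff_zero_eq_constantCoeff_apply, coeff_zero_Delz, zero_pow hN, map_zero]

private theorem d2_dvd {p : ℕ} [Fact p.Prime] (μ : AlgebraicClosure (ZMod p)) (j : ℕ)
    (h : μ ^ (p ^ j) = μ) : (minpoly (ZMod p) μ).natDegree ∣ j := by
  have hint : IsIntegral (ZMod p) μ := (AlgebraicClosure.isAlgebraic (ZMod p)).isIntegral.isIntegral μ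
  have hirr := minpoly.irreducible hint
  refine hirr.natDegree_dvd_of_dvd_X_pow_card_pow_sub_X (k := ZMod p) ?_
  rw [Nat.card_zmod]
  refine minpoly.dvd _ _ ?_
  rw [map_sub, map_pow, Polynomial.aeval_X, h, sub_self]

theorem dih2 {p m r : ℕ} [Fact p.Prime] (h8 : p % 8 = 7) (hm : 1 ≤ m) (x y : ℤ) (hx : Odd x)
    (hy : Odd y) (h : x ^ 2 + p * y ^ 2 = 2 ^ (m + 2)) (hpy : ¬ (p : ℤ) ∣ y)
    (hmin : ∀ (m' : ℕ) (x' y' : ℤ), 1 ≤ m' → m' < m → Odd x' → Odd y' →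
      x' ^ 2 + p * y' ^ 2 ≠ 2 ^ (m' + 2)) (hpm : ¬ p ∣ m)
    (hr0 : 1 ≤ r) (hr : ∀ j, 1 ≤ j → j < r → ¬ m ∣ p ^ j - 1 ∧ ¬ m ∣ p ^ j + 1)
    (hr1 : m ∣ p ^ r - 1 ∨ m ∣ p ^ r + 1) :
    ∃ v : AlgebraicClosure (ZMod p), (minpoly (ZMod p) v).natDegree = r ∧
      ∀ (T : CuspForm 𝒮ℒ ((12 * Np p 0 : ℕ) : ℤ) →ₗ[ℂ] CuspForm 𝒮ℒ ((12 * Np p 0 : ℕ) : ℤ)),
        IsHecke ((12 * Np p 0 : ℕ) : ℤ) 2 T →
        ∀ F : Polynomial ℤ, Polynomial.aeval T F = 0 → Polynomial.aeval v F = 0 := by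
  obtain ⟨h20, h2p⟩ := dih_two (p := p) h8
  obtain ⟨u, hu, hφ⟩ := grp h8 hm x y hx hy h hpy hmin
  have hN8 : 8 * Np p 0 = 1 + p := by
    have := eight_Np h8 0
    simpa using this
  have hN0 : Np p 0 ≠ 0 := by omega
  have h8' : (8 : ZMod p) ≠ 0 := by
    have : (8 : ZMod p) = 2 ^ 3 := by norm_num
    rw [this]
    exact pow_ne_zero _ h20
  have hm0 : ((m : ℕ) : AlgebraicClosure (ZMod p)) ≠ 0 := by
    intro h0
    rw [CharP.cast_eq_zero_iff (AlgebraicClosure (ZMod p)) p] at h0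
    exact hpm h0
  have : NeZero ((m : ℕ) : ZMod p) := ⟨by
    intro h0
    rw [CharP.cast_eq_zero_iff (ZMod p) p] at h0
    exact hpm h0⟩
  obtain ⟨ζ, hζ⟩ := HasEnoughRootsOfUnity.exists_primitiveRoot (AlgebraicClosure (ZMod p)) m
  refine ⟨algebraMap (ZMod p) (AlgebraicClosure (ZMod p)) (2 ^ (0 + 1)) * (ζ + ζ⁻¹), ?_, ?_⟩
  · obtain ⟨v, hv⟩ : ∃ v : AlgebraicClosure (ZMod p),
        v = algebraMap (ZMod p) (AlgebraicClosure (ZMod p)) (2 ^ (0 + 1)) * (ζ + ζ⁻¹) := ⟨_, rfl⟩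
    have hint : IsIntegral (ZMod p) v := (AlgebraicClosure.isAlgebraic (ZMod p)).isIntegral.isIntegral v
    rw [← hv]
    refine le_antisymm (Nat.le_of_dvd hr0 (d2_dvd v r ?_)) ?_
    · rw [hv, mul_pow, ← map_pow, ZMod.pow_card_pow]
      congr 1
      rw [add_pow_char_pow]
      have hp1 : 1 ≤ p ^ r := Nat.one_le_pow _ _ (Fact.out : p.Prime).pos
      have hζ0 : ζ ≠ 0 := hζ.ne_zero (by omega)
      rcases hr1 with h1 | h1
      · obtain ⟨c, hc⟩ := h1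
        have h2 : ζ ^ p ^ r = ζ := by
          rw [show p ^ r = m * c + 1 by omega, pow_succ, pow_mul, hζ.pow_eq_one, one_pow, one_mul]
        rw [inv_pow, h2]
      · obtain ⟨c, hc⟩ := h1
        have h2 : ζ ^ p ^ r = ζ⁻¹ := by
          exact eq_inv_of_mul_eq_one_left (by rw [← pow_succ, hc, pow_mul, hζ.pow_eq_one, one_pow])
        rw [inv_pow, h2, inv_inv, add_comm]
    rw [hv]
    have hG : minpoly (ZMod p) (algebraMap (ZMod p) (AlgebraicClosure (ZMod p)) (2 ^ (0 + 1)) *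
        (ζ + ζ⁻¹)) ≠ 0 := by
      rw [← hv]
      exact minpoly.ne_zero hint
    have hGr := minpoly.aeval (ZMod p) (algebraMap (ZMod p) (AlgebraicClosure (ZMod p)) (2 ^ (0 + 1)) *
        (ζ + ζ⁻¹))
    generalize minpoly (ZMod p) (algebraMap (ZMod p) (AlgebraicClosure (ZMod p)) (2 ^ (0 + 1)) *
        (ζ + ζ⁻¹)) = G at hG hGr ⊢
    have hw0 : (2 : ZMod p) ^ (0 + 1) ≠ 0 := pow_ne_zero _ h20
    have hcomp : G.comp (Polynomial.C ((2 : ZMod p) ^ (0 + 1)) * Polynomial.X) ≠ 0 := by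
      intro h0
      rcases Polynomial.comp_eq_zero_iff.1 h0 with h1 | ⟨_, h1⟩
      · exact hG h1
      · have h2 := congrArg Polynomial.natDegree h1
        rw [Polynomial.natDegree_C_mul_X _ hw0, Polynomial.natDegree_C] at h2
        exact one_ne_zero h2
    have hfin := deg hm hr ζ hζ _ hcomp (by
      rw [Polynomial.aeval_comp, map_mul, Polynomial.aeval_C, Polynomial.aeval_X]
      exact hGr)
    rwa [Polynomial.natDegree_comp, Polynomial.natDegree_C_mul_X _ hw0, mul_one] at hfin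
  · intro T hT F hF
    obtain ⟨f, hf⟩ := dih_form (Np p 0) hN0
    set φ : ℤ → ZMod p := fun t => ph p 1 0 (fun _ => t) with hφd
    have hodd : ∀ t, φ (-t) = -φ t := by
      intro t
      show ph p 1 0 (fun _ => -t) = -ph p 1 0 (fun _ => t)
      rw [hφ, hφ]
      by_cases hd : (m : ℤ) ∣ t
      · rw [if_pos hd, if_pos (hd.neg_right), Int.neg_ediv_of_dvd hd]
        push_cast
        ring
      · rw [if_neg hd, if_neg (fun hc => hd ((dvd_neg).1 hc)), neg_zero]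
    have hh : (2 : ZMod p) ^ ((((12 * Np p 0 : ℕ) : ℤ) - 1)).toNat = 2 ^ (2 * (0 + 1)) := by
      have h1 : ((((12 * Np p 0 : ℕ) : ℤ) - 1)).toNat = 2 * (0 + 1) + 3 * ((p - 1) / 2) := by omega
      rw [h1, pow_add, mul_comm 3, pow_mul _ ((p - 1) / 2) 3, h2p, one_pow, mul_one]
    have hco : ∀ j : ℕ, ((PowerSeries.coeff (2 ^ j) (Delz ^ Np p 0) : ℤ) : ZMod p) =
        8 * (2 ^ (0 + 1)) ^ j * φ ((j : ℤ) + 1) := by
      intro j
      rw [form_one h8]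
      simp only [hφd]
      ring
    have hseq := seq2 (by omega) (by omega) hT f (Delz ^ Np p 0) hf 8 h8' 0 hh φ hodd hco F hF
    have hrt := root hm u hu φ hφ (fun i => ((F.coeff i : ℤ) : ZMod p) * (2 ^ (0 + 1)) ^ i)
      F.natDegree hseq ζ hζ.pow_eq_one
    have hrx := dih_root F (2 ^ (0 + 1)) (ζ + ζ⁻¹) hrt
    rw [Polynomial.aeval_def, Polynomial.eval₂_map] at hrx
    have hcomp : (algebraMap (ZMod p) (AlgebraicClosure (ZMod p))).comp
        (Int.castRingHom (ZMod p)) = algebraMap ℤ (AlgebraicClosure (ZMod p)) :=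
      RingHom.ext_int _ _
    rw [hcomp] at hrx
    exact hrx

end Pool.Agent.Lib.MP_06b9d2_gr
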