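import Pool.Agent.Lib.MP_06b9d2_gr.Defs

/-!
Module GR-Eg. An eigenform over a field `K` for a root `v` of the characteristic polynomial.

`M.map (Int.cast : ℤ → K)` has the characteristic polynomial `M.charpoly.map` (`Matrix.charpoly_map`) with the root `v`, so there is an eigenvector `c ≠ 0` (`Module.End.hasEigenvalue_iff_isRoot_charpoly` for `Matrix.toLin'`, or `Matrix.exists_mulVec_eq_zero_iff` for `scalar v - M`). `h = ∑ c_i • bas K k (i + 1)`; `map_H2` and `map_bas` give `H2 K k (bas K k (j + 1)) = ∑ M i j • bas K k (i + 1)`, so `H2 K k h = v • h`. For the least `i` with `c_i ≠ 0` the coefficient `i + 1` of `h` is `c_i` (`coeff_bas_lt`, `coeff_bas_self`), and `i + 1 < dd k`. `h ∈ SC K k`: `Submodule.subset_span`, `coeff_bas_lt`.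
-/

namespace Pool.Agent.Lib.MP_06b9d2_gr

open UpperHalfPlane Pool.Agent.L1 Pool.Agent.Lib.MP_06b9d2_nt
open scoped MatrixGroups ModularForm

private theorem eg_vec {K : Type} [Field K] {n : ℕ} (M : Matrix (Fin n) (Fin n) ℤ) (v : K)
    (hv : Polynomial.aeval v M.charpoly = 0) :
    ∃ c : Fin n → K, c ≠ 0 ∧ ∀ i, ∑ j, (M i j : K) * c j = v * c i := by
  have h1 : (M.map (Int.castRingHom K)).charpoly.eval v = 0 := by
    rw [Matrix.charpoly_map, Polynomial.eval_map]
    exact hv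
  rw [Matrix.eval_charpoly] at h1
  obtain ⟨c, hc, h2⟩ := Matrix.exists_mulVec_eq_zero_iff.2 h1
  refine ⟨c, hc, fun i => ?_⟩
  have h3 := congrFun h2 i
  rw [Matrix.sub_mulVec] at h3
  simp only [Pi.sub_apply, Pi.zero_apply, Matrix.scalar_apply] at h3
  rw [Matrix.mulVec_diagonal] at h3
  have h4 : (M.map (Int.castRingHom K)).mulVec c i = ∑ j, (M i j : K) * c j := rfl
  rw [h4] at h3
  exact (sub_eq_zero.1 h3).symm

theorem eg (K : Type) [Field K] (k : ℕ) (M : Matrix (Fin (dd k - 1)) (Fin (dd k - 1)) ℤ)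
    (hM : ∀ j : Fin (dd k - 1), H2 ℤ k (bas ℤ k ((j : ℕ) + 1)) =
        ∑ i : Fin (dd k - 1), M i j • bas ℤ k ((i : ℕ) + 1)) (v : K)
    (hv : Polynomial.aeval v M.charpoly = 0) :
    ∃ h ∈ SC K k, H2 K k h = v • h ∧ ∃ m, 1 ≤ m ∧ m < dd k ∧ PowerSeries.coeff m h ≠ 0 := by
  classical
  obtain ⟨c, hc, hMc⟩ := eg_vec M v hv
  have hMK : ∀ j : Fin (dd k - 1), H2 K k (bas K k ((j : ℕ) + 1)) =
      ∑ i : Fin (dd k - 1), (M i j : K) • bas K k ((i : ℕ) + 1) := by
    intro j
    have h1 := congrArg (PowerSeries.map (Int.castRingHom K)) (hM j)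
    rw [map_H2, map_bas, map_sum] at h1
    rw [h1]
    refine Finset.sum_congr rfl fun i _ => ?_
    rw [map_zsmul, map_bas, Int.cast_smul_eq_zsmul]
  have hlt : ∀ i : Fin (dd k - 1), (i : ℕ) + 1 < dd k := fun i => by
    have := i.2
    omega
  refine ⟨∑ i, c i • bas K k ((i : ℕ) + 1), ?_, ?_, ?_⟩
  · refine Submodule.sum_mem _ fun i _ => Submodule.smul_mem _ _ ⟨?_, ?_⟩
    · exact Submodule.subset_span ⟨⟨(i : ℕ) + 1, hlt i⟩, rfl⟩
    · show _ = _
      exact coeff_bas_lt (by omega)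
  · rw [map_sum, Finset.smul_sum]
    have h1 : ∀ i : Fin (dd k - 1), H2 K k (c i • bas K k ((i : ℕ) + 1)) =
        ∑ j : Fin (dd k - 1), ((M j i : K) * c i) • bas K k ((j : ℕ) + 1) := by
      intro i
      rw [map_smul, hMK, Finset.smul_sum]
      refine Finset.sum_congr rfl fun j _ => ?_
      rw [smul_smul, mul_comm]
    rw [Finset.sum_congr rfl fun i _ => h1 i, Finset.sum_comm]
    refine Finset.sum_congr rfl fun j _ => ?_
    rw [← Finset.sum_smul, hMc j, smul_smul]
  · obtain ⟨i0, hi0⟩ := Function.ne_iff.1 hc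
    obtain ⟨i, hi, hmin⟩ := Finset.exists_min_image (Finset.univ.filter fun i => c i ≠ 0) (fun i => (i : ℕ))
      ⟨i0, by simpa using hi0⟩
    rw [Finset.mem_filter] at hi
    refine ⟨(i : ℕ) + 1, by omega, hlt i, ?_⟩
    have h1 : PowerSeries.coeff ((i : ℕ) + 1) (∑ i, c i • bas K k ((i : ℕ) + 1)) = c i := by
      rw [map_sum, Finset.sum_eq_single i]
      · rw [PowerSeries.coeff_smul, coeff_bas_self, smul_eq_mul, mul_one]
      · intro j _ hj
        rw [PowerSeries.coeff_smul]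
        by_cases hcj : c j = 0
        · rw [hcj, zero_smul]
        · have h2 := hmin j (by simpa using hcj)
          have h3 : (i : ℕ) ≠ j := fun h => hj (Fin.ext h.symm)
          rw [coeff_bas_lt (by omega), smul_zero]
      · intro h
        exact absurd (Finset.mem_univ i) h
    rw [h1]
    exact hi.2

end Pool.Agent.Lib.MP_06b9d2_gr
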