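import Pool.Agent.Lib.MP_06b9d2_gr.CyD

/-!
Module GX-Trn. Transfer of the cycles from `T'` to `T = R (T')` (pure algebra).

Let `L = P'.SplittingField`, `ι : L → ℂ`. The eigenvalues of `T` are the `R (α)`, `α` an eigenvalue of `T'` (`spectrum.map_polynomial_aeval_of_nonempty`), so all roots of `P` in `ℂ` are images of elements `R (α)`, `α ∈ P'.rootSet L`, and `P` splits in `L` (`ι` is injective and the roots of `P.map ℂ` are in `ι L`). `κ : P.SplittingField →ₐ[ℚ] L` (`Polynomial.SplittingField.lift`), `σ : P.Gal` with `κ (σ x) = σ' (κ x)` (`Polynomial.Gal.restrict P L σ'`, `AlgEquiv.restrictNormal_commutes`). The set for `P'`, `σ'`, `q'` maps by `α ↦ R (α)` into the image under `κ` of the set for `P`, `σ`, `q`; the fibres have at most `b` elements: the `ι α` in the fibre of `β` are distinct eigenvalues of `T'` with eigenvectors in `ker (T - ι β)`, linearly independent. If `(σ ^ j) β = β` then `(σ' ^ (j i)) α`, `0 ≤ i ≤ b`, are in the fibre, so two of them are equal, `(σ' ^ (i j)) α = α` for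 some `1 ≤ i ≤ b`, `q' ∣ i j`, `q ∣ j`. `Finset.card_le_mul_card_image`.
-/

namespace Pool.Agent.Lib.MP_06b9d2_gr

open Polynomial in
private theorem fib {V : Type*} [AddCommGroup V] [Module ℂ V] [Module.Finite ℂ V]
    (T T' : V →ₗ[ℂ] V) (P' R : Polynomial ℚ)
    (hP' : P'.map (algebraMap ℚ ℂ) = LinearMap.charpoly T')
    (hR : T = Polynomial.aeval T' (R.map (algebraMap ℚ ℂ))) (b : ℕ)
    (hb : ∀ β : ℂ, Module.finrank ℂ (LinearMap.ker (T - β • LinearMap.id)) ≤ b)
    {L : Type*} [Field L] [Algebra ℚ L] (ι : L →ₐ[ℚ] ℂ) (β : L) (F : Finset L)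
    (hF : ∀ γ ∈ F, aeval γ P' = 0 ∧ aeval γ R = β) : F.card ≤ b := by
  have h1 : ∀ γ : F, ∃ v : V, Module.End.HasEigenvector (R := ℂ) (M := V) T' (ι γ) v := by
    intro γ
    have h2 : Module.End.HasEigenvalue (R := ℂ) (M := V) T' (ι γ) := by
      rw [Module.End.hasEigenvalue_iff_isRoot_charpoly, ← hP', Polynomial.IsRoot.def,
        Polynomial.eval_map_algebraMap, Polynomial.aeval_algHom_apply, (hF γ γ.2).1, map_zero]
    exact h2.exists_hasEigenvector
  choose v hv using h1
  have h2 : LinearIndependent ℂ v :=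
    Module.End.eigenvectors_linearIndependent' T' (fun γ : F => ι γ)
      (fun a c h => Subtype.ext (ι.injective h)) v hv
  have h3 : ∀ γ : F, v γ ∈ LinearMap.ker (T - (ι β) • LinearMap.id) := by
    intro γ
    have h4 := Module.End.aeval_apply_of_hasEigenvector (p := R.map (algebraMap ℚ ℂ)) (hv γ)
    rw [← hR, Polynomial.eval_map_algebraMap, Polynomial.aeval_algHom_apply, (hF γ γ.2).2] at h4
    rw [LinearMap.mem_ker, LinearMap.sub_apply, h4, LinearMap.smul_apply, LinearMap.id_apply,
      sub_self]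
  have h4 : LinearIndependent ℂ
      (fun γ : F => (⟨v γ, h3 γ⟩ : LinearMap.ker (T - (ι β) • LinearMap.id))) :=
    LinearIndependent.of_comp (Submodule.subtype _) h2
  have h5 := h4.fintype_card_le_finrank
  rw [Fintype.card_coe] at h5
  exact h5.trans (hb _)

open Polynomial in
theorem trn {V : Type*} [AddCommGroup V] [Module ℂ V] [Module.Finite ℂ V] (T T' : V →ₗ[ℂ] V)
    (P P' R : Polynomial ℚ) (hP : P.map (algebraMap ℚ ℂ) = LinearMap.charpoly T)
    (hP' : P'.map (algebraMap ℚ ℂ) = LinearMap.charpoly T')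
    (hR : T = Polynomial.aeval T' (R.map (algebraMap ℚ ℂ))) (b : ℕ)
    (hb : ∀ β : ℂ, Module.finrank ℂ (LinearMap.ker (T - β • LinearMap.id)) ≤ b)
    (q q' : ℕ) (hq : ∀ i j : ℕ, 1 ≤ i → i ≤ b → q' ∣ i * j → q ∣ j) (σ' : P'.Gal) :
    ∃ σ : P.Gal, Cy P' σ' q' ≤ b * Cy P σ q := by
  classical
  have hP0 : P ≠ 0 := by
    intro h
    rw [h, Polynomial.map_zero] at hP
    exact (LinearMap.charpoly_monic T).ne_zero hP.symm
  have hP'0 : P' ≠ 0 := by
    intro h
    rw [h, Polynomial.map_zero] at hP'
    exact (LinearMap.charpoly_monic T').ne_zero hP'.symm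
  obtain ⟨ι⟩ : Nonempty (P'.SplittingField →ₐ[ℚ] ℂ) := ⟨IsAlgClosed.lift⟩
  -- values of `R` at roots of `P'` are roots of `P`
  have hroot : ∀ α : P'.SplittingField, aeval α P' = 0 → aeval (aeval α R) P = 0 := by
    intro α hα
    have h2 : Module.End.HasEigenvalue (R := ℂ) (M := V) T' (ι α) := by
      rw [Module.End.hasEigenvalue_iff_isRoot_charpoly, ← hP', Polynomial.IsRoot.def,
        Polynomial.eval_map_algebraMap, Polynomial.aeval_algHom_apply, hα, map_zero]
    obtain ⟨v, hv⟩ := h2.exists_hasEigenvector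
    have h4 := Module.End.aeval_apply_of_hasEigenvector (p := R.map (algebraMap ℚ ℂ)) hv
    rw [← hR, Polynomial.eval_map_algebraMap, Polynomial.aeval_algHom_apply] at h4
    have h5 : Module.End.HasEigenvalue (R := ℂ) (M := V) T (ι (aeval α R)) :=
      Module.End.hasEigenvalue_of_hasEigenvector
        (Module.End.hasEigenvector_iff.2 ⟨Module.End.mem_eigenspace_iff.2 h4, hv.2⟩)
    rw [Module.End.hasEigenvalue_iff_isRoot_charpoly, ← hP, Polynomial.IsRoot.def,
      Polynomial.eval_map_algebraMap, Polynomial.aeval_algHom_apply] at h5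
    have h6 : ι (aeval (aeval α R) P) = ι 0 := by rw [h5, map_zero]
    exact ι.injective h6
  -- the roots of `P'` in `ℂ` are in the range
  have hsp' : (P'.map (algebraMap ℚ P'.SplittingField)).Splits := SplittingField.splits P'
  have hran' : ∀ x : ℂ, aeval x P' = 0 → ∃ α : P'.SplittingField, aeval α P' = 0 ∧ ι α = x := by
    intro x hx
    have h1 : x ∈ ((P'.map (algebraMap ℚ P'.SplittingField)).map
        (ι : P'.SplittingField →+* ℂ)).roots := by
      rw [Polynomial.map_map, Polynomial.mem_roots (by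
        rw [Ne, Polynomial.map_eq_zero_iff (RingHom.injective _)]
        exact hP'0), Polynomial.IsRoot.def, Polynomial.eval_map]
      have h2 : ((ι : P'.SplittingField →+* ℂ).comp (algebraMap ℚ P'.SplittingField)) =
          algebraMap ℚ ℂ := Subsingleton.elim _ _
      rw [h2, ← Polynomial.aeval_def, hx]
    rw [Splits.roots_map hsp', Multiset.mem_map] at h1
    obtain ⟨α, h1, h2⟩ := h1
    refine ⟨α, ?_, h2⟩
    have h3 := Polynomial.isRoot_of_mem_roots h1
    rw [Polynomial.IsRoot.def, Polynomial.eval_map_algebraMap] at h3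
    exact h3
  -- `P` splits
  have hspl : (P.map (algebraMap ℚ P'.SplittingField)).Splits := by
    refine Splits.of_splits_map (ι : P'.SplittingField →+* ℂ) (IsAlgClosed.splits _) ?_
    intro x hx
    have h2 : ((ι : P'.SplittingField →+* ℂ).comp (algebraMap ℚ P'.SplittingField)) =
        algebraMap ℚ ℂ := Subsingleton.elim _ _
    rw [Polynomial.map_map, h2, hP] at hx
    have h3 := Polynomial.isRoot_of_mem_roots hx
    rw [← Module.End.mem_spectrum_iff_isRoot_charpoly] at h3
    have hne : (spectrum ℂ (T' : Module.End ℂ V)).Nonempty := by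
      have hnt : Nontrivial V := by
        by_contra hcon
        rw [not_nontrivial_iff_subsingleton] at hcon
        have : Subsingleton (Module.End ℂ V) := inferInstance
        rw [spectrum.of_subsingleton] at h3
        exact h3
      obtain ⟨μ, hμ⟩ := Module.End.exists_eigenvalue (K := ℂ) (V := V) T'
      exact ⟨μ, hμ.mem_spectrum⟩
    have h4 := spectrum.map_polynomial_aeval_of_nonempty (𝕜 := ℂ) (T' : Module.End ℂ V)
      (R.map (algebraMap ℚ ℂ)) hne
    rw [← hR] at h4
    rw [h4] at h3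
    obtain ⟨μ, hμ, hμx⟩ := h3
    rw [Module.End.mem_spectrum_iff_isRoot_charpoly, ← hP', Polynomial.IsRoot.def,
      Polynomial.eval_map_algebraMap] at hμ
    obtain ⟨α, hα, rfl⟩ := hran' μ hμ
    refine ⟨aeval α R, ?_⟩
    rw [← hμx]
    show ι (aeval α R) = eval (ι α) (R.map (algebraMap ℚ ℂ))
    rw [Polynomial.eval_map_algebraMap, Polynomial.aeval_algHom_apply]
  let κ : P.SplittingField →ₐ[ℚ] P'.SplittingField := SplittingField.lift P hspl
  letI : Algebra P.SplittingField P'.SplittingField := κ.toRingHom.toAlgebra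
  have hist : IsScalarTower ℚ P.SplittingField P'.SplittingField :=
    IsScalarTower.of_algebraMap_eq fun x => (κ.commutes x).symm
  have hsf : IsSplittingField ℚ P.SplittingField P := IsSplittingField.splittingField P
  have hnorm : Normal ℚ P.SplittingField := Normal.of_isSplittingField P
  obtain ⟨σ, hσ⟩ : ∃ σ : P.Gal, ∀ x, κ (σ x) = σ' (κ x) :=
    ⟨AlgEquiv.restrictNormal (σ' : P'.SplittingField ≃ₐ[ℚ] P'.SplittingField) P.SplittingField,
      fun x => AlgEquiv.restrictNormal_commutes
        (σ' : P'.SplittingField ≃ₐ[ℚ] P'.SplittingField) P.SplittingField x⟩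
  have hσj : ∀ (j : ℕ) (x : P.SplittingField), κ ((σ ^ j) x) = (σ' ^ j) (κ x) := by
    intro j
    induction j with
    | zero => intro x; rfl
    | succ j ih =>
      intro x
      rw [pow_succ, pow_succ]
      show κ ((σ ^ j) (σ x)) = (σ' ^ j) (σ' (κ x))
      rw [ih, hσ]
  refine ⟨σ, ?_⟩
  unfold Cy
  set A : Set P'.SplittingField :=
    {α | aeval α P' = 0 ∧ ∀ j : ℕ, (σ' ^ j) α = α → q' ∣ j} with hA
  set B : Set P.SplittingField :=
    {β | aeval β P = 0 ∧ ∀ j : ℕ, (σ ^ j) β = β → q ∣ j} with hB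
  have hAfin : A.Finite := by
    refine (P'.rootSet_finite P'.SplittingField).subset fun α hα => ?_
    rw [Polynomial.mem_rootSet]
    exact ⟨hP'0, hα.1⟩
  have hBfin : B.Finite := by
    refine (P.rootSet_finite P.SplittingField).subset fun α hα => ?_
    rw [Polynomial.mem_rootSet]
    exact ⟨hP0, hα.1⟩
  -- fibres
  have hfib : ∀ β : P'.SplittingField, ∀ F : Finset P'.SplittingField,
      (∀ γ ∈ F, aeval γ P' = 0 ∧ aeval γ R = β) → F.card ≤ b :=
    fun β F hF => fib T T' P' R hP' hR b hb ι β F hF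
  have hspP : (P.map (algebraMap ℚ P.SplittingField)).Splits := SplittingField.splits P
  -- the map
  have hmap : ∀ α ∈ A, ∃ β ∈ B, κ β = aeval α R := by
    intro α hα
    obtain ⟨hα1, hα2⟩ := hα
    have h1 := hroot α hα1
    have h2 : aeval α R ∈ ((P.map (algebraMap ℚ P.SplittingField)).map
        (κ : P.SplittingField →+* P'.SplittingField)).roots := by
      rw [Polynomial.map_map, Polynomial.mem_roots (by
        rw [Ne, Polynomial.map_eq_zero_iff (RingHom.injective _)]
        exact hP0), Polynomial.IsRoot.def, Polynomial.eval_map]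
      have h2 : ((κ : P.SplittingField →+* P'.SplittingField).comp
          (algebraMap ℚ P.SplittingField)) = algebraMap ℚ P'.SplittingField :=
        Subsingleton.elim _ _
      rw [h2, ← Polynomial.aeval_def, h1]
    rw [Splits.roots_map hspP, Multiset.mem_map] at h2
    obtain ⟨β, h2, h3⟩ := h2
    have h4 := Polynomial.isRoot_of_mem_roots h2
    rw [Polynomial.IsRoot.def, Polynomial.eval_map_algebraMap] at h4
    refine ⟨β, ⟨h4, fun j hj => ?_⟩, h3⟩
    have h3' : κ β = aeval α R := h3
    have h5 : (σ' ^ j) (aeval α R) = aeval α R := by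
      rw [← h3', ← hσj, hj]
    have h6 : ∀ i : ℕ, ((σ' ^ j) ^ i) (aeval α R) = aeval α R := by
      intro i
      induction i with
      | zero => rfl
      | succ i ih =>
        rw [pow_succ]
        show ((σ' ^ j) ^ i) ((σ' ^ j) (aeval α R)) = aeval α R
        rw [h5, ih]
    have h7 : ∀ i : ℕ, aeval (((σ' ^ j) ^ i) α) P' = 0 ∧
        aeval (((σ' ^ j) ^ i) α) R = aeval α R := by
      intro i
      have e1 : ∀ Q : Polynomial ℚ, aeval (((σ' ^ j) ^ i) α) Q = ((σ' ^ j) ^ i) (aeval α Q) :=
        fun Q => Polynomial.aeval_algHom_apply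
          (AlgEquiv.toAlgHom (show P'.SplittingField ≃ₐ[ℚ] P'.SplittingField from
            ((σ' ^ j) ^ i))) α Q
      rw [e1, e1, hα1, h6, map_zero]
      exact ⟨rfl, rfl⟩
    -- pigeonhole
    have h8 : ¬ Set.InjOn (fun i : ℕ => ((σ' ^ j) ^ i) α) (Finset.range (b + 1) : Set ℕ) := by
      intro hinj
      have h9 := hfib (aeval α R) ((Finset.range (b + 1)).image
        (fun i : ℕ => ((σ' ^ j) ^ i) α)) (by
          intro γ hγ
          rw [Finset.mem_image] at hγ
          obtain ⟨i, -, rfl⟩ := hγ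
          exact h7 i)
      rw [Finset.card_image_of_injOn hinj, Finset.card_range] at h9
      omega
    obtain ⟨i1, hi1, i2, hi2, h9, h10⟩ : ∃ i1 : ℕ, i1 < b + 1 ∧ ∃ i2 : ℕ, i2 < b + 1 ∧
        ((σ' ^ j) ^ i1) α = ((σ' ^ j) ^ i2) α ∧ i1 < i2 := by
      by_contra hcon
      push Not at hcon
      apply h8
      intro a ha c hc hac
      rw [Finset.coe_range, Set.mem_Iio] at ha hc
      rcases lt_trichotomy a c with h | h | h
      · exact absurd h (not_lt.2 (hcon a ha c hc hac))
      · exact h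
      · exact absurd h (not_lt.2 (hcon c hc a ha hac.symm))
    have h11 : (σ' ^ ((i2 - i1) * j)) α = α := by
      have e1 : ((σ' ^ j) ^ i2) α = ((σ' ^ j) ^ i1) ((σ' ^ ((i2 - i1) * j)) α) := by
        show ((σ' ^ j) ^ i2) α = (((σ' ^ j) ^ i1) * (σ' ^ ((i2 - i1) * j))) α
        congr 1
        rw [← pow_mul, ← pow_mul, ← pow_add]
        congr 1
        obtain ⟨d, rfl⟩ := Nat.exists_eq_add_of_lt h10
        have : i1 + d + 1 - i1 = d + 1 := by omega
        rw [this]
        ring
      rw [e1] at h9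
      exact (((σ' ^ j) ^ i1 : P'.Gal).injective h9).symm
    exact hq (i2 - i1) j (by omega) (by omega) (hα2 _ h11)
  -- counting
  have h1 : hAfin.toFinset.card ≤ b * (hAfin.toFinset.image (fun α => aeval α R)).card := by
    refine Finset.card_le_mul_card_image _ b fun β _ => ?_
    refine hfib β _ fun γ hγ => ?_
    rw [Finset.mem_filter, Set.Finite.mem_toFinset] at hγ
    exact ⟨hγ.1.1, hγ.2⟩
  have h2 : (hAfin.toFinset.image (fun α => aeval α R)).card ≤ hBfin.toFinset.card := by
    calc (hAfin.toFinset.image (fun α => aeval α R)).card ≤ (hBfin.toFinset.image κ).card := by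
          refine Finset.card_le_card fun x hx => ?_
          rw [Finset.mem_image] at hx ⊢
          obtain ⟨α, hα, rfl⟩ := hx
          rw [Set.Finite.mem_toFinset] at hα
          obtain ⟨β, hβ, h⟩ := hmap α hα
          exact ⟨β, by rw [Set.Finite.mem_toFinset]; exact hβ, h⟩
      _ ≤ _ := Finset.card_image_le
  rw [Set.ncard_eq_toFinset_card A hAfin, Set.ncard_eq_toFinset_card B hBfin]
  exact h1.trans (Nat.mul_le_mul_left _ h2)

end Pool.Agent.Lib.MP_06b9d2_gr
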