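import Pool.Agent.Lib.MP_06b9d2_gr.PL
import Pool.Agent.Lib.MP_06b9d2_gr.Trn

/-!
Module GX-PLG. Transfer from `T_2` to `T_n` (any `n ≥ 1`), Galois form.

As `dg_hecke` in `PL.lean`, but with the roles exchanged: `MP_06b9d2_tls.hecke_rat` for `KerOne 2` gives `T = R (T_2)`, `R ∈ ℚ[X]` (check its exact statement); `P'` = the rational characteristic polynomial of `T_2` (`MP_06b9d2_tls.concl` for `2`, `F.map ℚ`; or `hm`); `trn`.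
-/

namespace Pool.Agent.Lib.MP_06b9d2_gr

open UpperHalfPlane Pool.Agent.L1 Pool.Agent.Lib.MP_06b9d2_nt
open scoped MatrixGroups ModularForm

theorem cy_hecke {n : ℕ} (hn : 1 ≤ n) (k : ℤ) (hk : Even k) (b q q' m : ℕ)
    (hq : ∀ i j : ℕ, 1 ≤ i → i ≤ b → q' ∣ i * j → q ∣ j)
    (h : ∀ [Module.Finite ℂ (CuspForm 𝒮ℒ k)] (T : CuspForm 𝒮ℒ k →ₗ[ℂ] CuspForm 𝒮ℒ k),
      IsHecke k 2 T → ∀ P : Polynomial ℚ, P.map (algebraMap ℚ ℂ) = LinearMap.charpoly T →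
        ∃ σ : P.Gal, m ≤ Cy P σ q')
    (Γ : Subgroup (GL (Fin 2) ℝ)) (hΓ : Γ = 𝒮ℒ) [Γ.HasDetOne]
    [Module.Finite ℂ (CuspForm Γ k)] (T : CuspForm Γ k →ₗ[ℂ] CuspForm Γ k)
    (hT : ∀ (f : CuspForm Γ k) (τ : UpperHalfPlane),
      T f τ = ∑ a ∈ n.divisors, ∑ b ∈ Finset.range (n / a),
        ((n : ℂ) ^ (k - 1) * ((n / a : ℕ) : ℂ) ^ (-k)) *
          f (UpperHalfPlane.ofComplex (((a : ℂ) * (τ : ℂ) + (b : ℂ)) / ((n / a : ℕ) : ℂ))))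
    (hb : ∀ β : ℂ, Module.finrank ℂ (LinearMap.ker (T - β • LinearMap.id)) ≤ b)
    (P : Polynomial ℚ) (hP : P.map (algebraMap ℚ ℂ) = LinearMap.charpoly T) :
    ∃ σ : P.Gal, m ≤ b * Cy P σ q := by
  subst hΓ
  have : NeZero n := ⟨by omega⟩
  have hK : Pool.Agent.Lib.MP_06b9d2_tls.KerOne 2 := by
    have h := Pool.Agent.Lib.MP_06b9d2_tls.kerOne_ppow 2 Nat.prime_two (Or.inl rfl) 1 le_rfl
    rwa [pow_one] at h
  obtain ⟨T', hT'⟩ := Pool.Agent.Lib.MP_06b9d2_p2.hecke_ex k 2 (by norm_num)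
  obtain ⟨⟨F, -, hF, -⟩, -⟩ :=
    Pool.Agent.Lib.MP_06b9d2_tls.concl (n := 2) (by norm_num) hK _ rfl k hk T' hT'
  obtain ⟨R, hR⟩ := Pool.Agent.Lib.MP_06b9d2_tls.hecke_rat (n := 2) (m := n) hK k hk T' T hT' hT
  have hP' : (F.map (Int.castRingHom ℚ)).map (algebraMap ℚ ℂ) = LinearMap.charpoly T' := by
    rw [← hF, Polynomial.map_map]
    congr 1
  obtain ⟨σ', hσ'⟩ := h T' hT' _ hP'
  obtain ⟨σ, hσ⟩ := trn T T' P _ R hP hP' hR b hb q q' hq σ'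
  exact ⟨σ, hσ'.trans hσ⟩

end Pool.Agent.Lib.MP_06b9d2_gr
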