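import Mathlib

/-!
Module GR-Res. The residue degree of `x`.

The set `S` of the `j` with `‖x ^ 2 ^ j - x‖ < 1` contains `0`, is closed under addition (`x ^ 2 ^ (i + j) - x ^ 2 ^ j = (x ^ 2 ^ i - x) ^ 2 ^ j` modulo the maximal ideal: the residue field has characteristic `2`) and under subtraction: if `j`, `i + j ∈ S` then `(x ^ 2 ^ i - x) ^ 2 ^ j = x ^ 2 ^ (i + j) - x ^ 2 ^ j = x - x = 0` modulo the maximal ideal, so `i ∈ S` (the norm is multiplicative). So `gcd j (2 ^ e) = 2 ^ f ∈ S` for `j ∈ S`; `f ≤ a` would give `2 ^ a ∈ S`. So `2 ^ a ∣ 2 ^ f ∣ j`. (It may be convenient to work in the residue field `IsLocalRing.ResidueField` of the valuation ring `𝒪[PadicAlgCl 2]`, or with `‖x - y‖ < 1` and the ultrametric inequality; `‖(2 : PadicAlgCl 2)‖ < 1`, `‖x‖ ≤ 1`.)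
-/

namespace Pool.Agent.Lib.MP_06b9d2_gr

private theorem Res_add {u v : PadicAlgCl 2} (hu : ‖u‖ < 1) (hv : ‖v‖ < 1) : ‖u + v‖ < 1 :=
  lt_of_le_of_lt (PadicAlgCl.isNonarchimedean 2 u v) (max_lt hu hv)

private theorem Res_sub {u v : PadicAlgCl 2} (hu : ‖u‖ < 1) (hv : ‖v‖ < 1) : ‖u - v‖ < 1 := by
  rw [sub_eq_add_neg]
  exact Res_add hu (by rwa [norm_neg])

private theorem Res_sub_le {u v : PadicAlgCl 2} (hu : ‖u‖ ≤ 1) (hv : ‖v‖ ≤ 1) : ‖u - v‖ ≤ 1 := by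
  rw [sub_eq_add_neg]
  exact (PadicAlgCl.isNonarchimedean 2 u (-v)).trans (max_le hu (by rwa [norm_neg]))

private theorem Res_two : ‖(2 : PadicAlgCl 2)‖ < 1 := by
  have h := PadicAlgCl.norm_extends 2 (2 : ℚ_[2])
  have h1 : ((2 : ℚ_[2]) : PadicAlgCl 2) = 2 := by norm_cast
  rw [h1] at h
  rw [h]
  have h2 : ‖((2 : ℕ) : ℚ_[2])‖ < 1 := Padic.norm_p_lt_one
  exact_mod_cast h2

private theorem Res_pow (n : ℕ) {u v : PadicAlgCl 2} (hu : ‖u‖ ≤ 1) (hv : ‖v‖ ≤ 1) :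
    ‖(u - v) ^ 2 ^ n - (u ^ 2 ^ n - v ^ 2 ^ n)‖ < 1 := by
  induction n with
  | zero => simp
  | succ n ih =>
    set a := (u - v) ^ 2 ^ n with ha
    set b := u ^ 2 ^ n with hb
    set c := v ^ 2 ^ n with hc
    have hb1 : ‖b‖ ≤ 1 := by
      rw [hb, norm_pow]
      exact pow_le_one₀ (norm_nonneg _) hu
    have hc1 : ‖c‖ ≤ 1 := by
      rw [hc, norm_pow]
      exact pow_le_one₀ (norm_nonneg _) hv
    have ha1 : ‖a‖ ≤ 1 := by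
      rw [ha, norm_pow]
      exact pow_le_one₀ (norm_nonneg _) (Res_sub_le hu hv)
    have e1 : (u - v) ^ 2 ^ (n + 1) = a ^ 2 := by rw [ha, ← pow_mul, pow_succ]
    have e2 : u ^ 2 ^ (n + 1) = b ^ 2 := by rw [hb, ← pow_mul, pow_succ]
    have e3 : v ^ 2 ^ (n + 1) = c ^ 2 := by rw [hc, ← pow_mul, pow_succ]
    rw [e1, e2, e3]
    have e4 : a ^ 2 - (b ^ 2 - c ^ 2) = (a - (b - c)) * (a + (b - c)) + 2 * (c * (c - b)) := by ring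
    rw [e4]
    refine Res_add ?_ ?_
    · rw [norm_mul]
      have h1 : ‖a + (b - c)‖ ≤ 1 :=
        (PadicAlgCl.isNonarchimedean 2 _ _).trans (max_le ha1 (Res_sub_le hb1 hc1))
      calc ‖a - (b - c)‖ * ‖a + (b - c)‖ ≤ ‖a - (b - c)‖ * 1 :=
            mul_le_mul_of_nonneg_left h1 (norm_nonneg _)
        _ < 1 := by rwa [mul_one]
    · rw [norm_mul, norm_mul]
      have h1 : ‖c‖ * ‖c - b‖ ≤ 1 := mul_le_one₀ hc1 (norm_nonneg _) (Res_sub_le hc1 hb1)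
      calc ‖(2 : PadicAlgCl 2)‖ * (‖c‖ * ‖c - b‖) ≤ ‖(2 : PadicAlgCl 2)‖ * 1 :=
            mul_le_mul_of_nonneg_left h1 (norm_nonneg _)
        _ < 1 := by rw [mul_one]; exact Res_two

theorem res (x : PadicAlgCl 2) (hx : ‖x‖ ≤ 1) (a e : ℕ) (ha : ‖x ^ 2 ^ 2 ^ a - x‖ = 1)
    (he : ‖x ^ 2 ^ 2 ^ e - x‖ < 1) (j : ℕ) (hj : ‖x ^ 2 ^ j - x‖ < 1) : 2 ^ a ∣ j := by
  have hF : ∀ i : ℕ, ‖x ^ 2 ^ i‖ ≤ 1 := fun i => by
    rw [norm_pow]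
    exact pow_le_one₀ (norm_nonneg _) hx
  have key : ∀ i j : ℕ, ‖(x ^ 2 ^ i - x) ^ 2 ^ j - (x ^ 2 ^ (i + j) - x ^ 2 ^ j)‖ < 1 := by
    intro i j
    have h := Res_pow j (hF i) hx
    have e1 : (x ^ 2 ^ i) ^ 2 ^ j = x ^ 2 ^ (i + j) := by rw [← pow_mul, ← pow_add]
    rwa [e1] at h
  have hadd : ∀ i j : ℕ, ‖x ^ 2 ^ i - x‖ < 1 → ‖x ^ 2 ^ j - x‖ < 1 → ‖x ^ 2 ^ (i + j) - x‖ < 1 := by
    intro i j h1 h2
    have h3 : ‖(x ^ 2 ^ i - x) ^ 2 ^ j‖ < 1 := by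
      rw [norm_pow]
      exact pow_lt_one₀ (norm_nonneg _) h1 (by positivity)
    have h4 := Res_add (Res_sub h3 (key i j)) h2
    have e1 : (x ^ 2 ^ i - x) ^ 2 ^ j - ((x ^ 2 ^ i - x) ^ 2 ^ j - (x ^ 2 ^ (i + j) - x ^ 2 ^ j)) +
        (x ^ 2 ^ j - x) = x ^ 2 ^ (i + j) - x := by ring
    rwa [e1] at h4
  have hsub : ∀ i j : ℕ, ‖x ^ 2 ^ j - x‖ < 1 → ‖x ^ 2 ^ (i + j) - x‖ < 1 → ‖x ^ 2 ^ i - x‖ < 1 := by
    intro i j h1 h2
    have h3 := Res_add (key i j) (Res_sub h2 h1)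
    have e1 : (x ^ 2 ^ i - x) ^ 2 ^ j - (x ^ 2 ^ (i + j) - x ^ 2 ^ j) +
        ((x ^ 2 ^ (i + j) - x) - (x ^ 2 ^ j - x)) = (x ^ 2 ^ i - x) ^ 2 ^ j := by ring
    rw [e1, norm_pow] at h3
    by_contra h4
    exact absurd (one_le_pow₀ (not_lt.1 h4)) (not_le.2 h3)
  have h0 : ‖x ^ 2 ^ 0 - x‖ < 1 := by simp
  have hmul : ∀ m n : ℕ, ‖x ^ 2 ^ m - x‖ < 1 → ‖x ^ 2 ^ (m * n) - x‖ < 1 := by
    intro m n h
    induction n with
    | zero => simp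
    | succ n ih =>
      rw [Nat.mul_succ]
      exact hadd _ _ ih h
  have hgcd : ∀ m n : ℕ, ‖x ^ 2 ^ m - x‖ < 1 → ‖x ^ 2 ^ n - x‖ < 1 →
      ‖x ^ 2 ^ Nat.gcd m n - x‖ < 1 := by
    intro m n
    induction m, n using Nat.gcd.induction with
    | H0 n => intro _ h; simpa using h
    | H1 m n hm ih =>
      intro h1 h2
      rw [Nat.gcd_rec]
      refine ih ?_ h1
      refine hsub (n % m) (m * (n / m)) (hmul m _ h1) ?_
      rw [Nat.mod_add_div]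
      exact h2
  have h1 := hgcd j (2 ^ e) hj he
  obtain ⟨f, -, hf⟩ := (Nat.dvd_prime_pow Nat.prime_two).1 (Nat.gcd_dvd_right j (2 ^ e))
  rw [hf] at h1
  have hfa : a ≤ f := by
    by_contra hlt
    have h2 := hmul (2 ^ f) (2 ^ (a - f)) h1
    rw [← pow_add, Nat.add_sub_cancel' (not_le.1 hlt).le, ha] at h2
    exact lt_irrefl _ h2
  exact (pow_dvd_pow 2 hfa).trans (hf ▸ Nat.gcd_dvd_left j (2 ^ e))

end Pool.Agent.Lib.MP_06b9d2_gr
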