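import Pool.Agent.Lib.MP_06b9d2_gr.Two
import Pool.Agent.Lib.MP_06b9d2_gr.CycD
import Pool.Agent.Lib.MP_06b9d2_gr.Res

/-!
Module GX-PrD. As `Pr.lean` (`pr`) with a divisibility.
-/

namespace Pool.Agent.Lib.MP_06b9d2_gr

open NumberField

theorem prD (u : PadicAlgCl 2) (hu : IsIntegral ℤ u) (H a e : ℕ) (hx : ‖u / 2 ^ H‖ ≤ 1)
    (ha : ‖(u / 2 ^ H) ^ 2 ^ 2 ^ a - u / 2 ^ H‖ = 1)
    (he : ‖(u / 2 ^ H) ^ 2 ^ 2 ^ e - u / 2 ^ H‖ < 1) (B : ℕ) :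
    ∃ (p : ℕ) (_ : Fact p.Prime), B < p ∧
      ∃ v : AlgebraicClosure (ZMod p), (∀ F : Polynomial ℤ, Polynomial.aeval u F = 0 →
        Polynomial.aeval v F = 0) ∧ 2 ^ a ∣ (minpoly (ZMod p) v).natDegree := by
  obtain ⟨N, _, _, ι, w, σ, hw, hσ⟩ := two u hu H (2 ^ a) hx
    (fun j hj => res (u / 2 ^ H) hx a e ha he j hj)
  have hfin : 0 < orderOf σ := orderOf_pos σ
  obtain ⟨b, c, hc, hbc⟩ := Nat.exists_eq_two_pow_mul_odd hfin.ne'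
  have hc0 : c ≠ 0 := fun h => by rw [h] at hc; exact absurd hc (by decide)
  have hord : orderOf (σ ^ c) = 2 ^ b := by
    rw [orderOf_pow_of_dvd hc0 ⟨2 ^ b, by rw [hbc]; ring⟩, hbc]
    exact Nat.mul_div_cancel _ (Nat.pos_of_ne_zero hc0)
  have hn : ∀ i : ℕ, ((σ ^ c) ^ i) (w : N) = w → 2 ^ a ∣ i := by
    intro i hi
    rw [← pow_mul] at hi
    have h1 := hσ (c * i) hi
    exact (Nat.Coprime.pow_left a (Nat.coprime_two_left.2 hc)).dvd_of_dvd_mul_left h1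
  obtain ⟨p, hp, hBp, v, hv, hG⟩ := cycD N w (σ ^ c) b (2 ^ a) hord hn B
  refine ⟨p, hp, hBp, v, fun F hF => hv F ?_, hG⟩
  have h1 : Polynomial.aeval u F = ι (algebraMap (𝓞 N) N (Polynomial.aeval w F)) := by
    rw [← hw]
    exact Polynomial.aeval_algHom_apply (ι.comp (algebraMap (𝓞 N) N)).toIntAlgHom w F
  rw [h1] at hF
  have h2 : algebraMap (𝓞 N) N (Polynomial.aeval w F) = 0 :=
    (map_eq_zero_iff ι ι.injective).1 hF
  exact (map_eq_zero_iff _ (RingOfIntegers.coe_injective)).1 h2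

end Pool.Agent.Lib.MP_06b9d2_gr
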