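import Pool.Agent.Lib.MP_06b9d2_gr.PMG
import Pool.Agent.Lib.MP_06b9d2_gr.PrD
import Pool.Agent.Lib.MP_06b9d2_p2.Cons

/-!
Module GX-PNG. As `PN.lean` (`growP`), Galois form (`prD`, `propG`; for `q ∣ d`: `Cy P σ d ≤ Cy P σ q`, `Set.ncard_le_ncard`, the sets of roots are finite). The case `a = 0` needs nothing special (`d ≥ 1`).
-/

namespace Pool.Agent.Lib.MP_06b9d2_gr

open UpperHalfPlane Pool.Agent.L1 Pool.Agent.Lib.MP_06b9d2_nt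
open scoped MatrixGroups ModularForm

theorem growG (hI : ∀ a : ℕ, ∃ (N H : ℕ) (f : CuspForm 𝒮ℒ ((4 * N : ℕ) : ℤ)) (c : ℂ) (c' : PadicAlgCl 2),
      3 ≤ N ∧ f ≠ 0 ∧
      (∀ T : CuspForm 𝒮ℒ ((4 * N : ℕ) : ℤ) →ₗ[ℂ] CuspForm 𝒮ℒ ((4 * N : ℕ) : ℤ),
        IsHecke ((4 * N : ℕ) : ℤ) 2 T → T f = c • f) ∧
      IsAlgebraic ℚ c ∧ minpoly ℚ c' = minpoly ℚ c ∧ ‖c'‖ = (2 : ℝ) ^ (-(H : ℤ)) ∧
      ‖(c' / 2 ^ H) ^ 2 ^ 2 ^ a - c' / 2 ^ H‖ = 1 ∧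
      ∃ e : ℕ, ‖(c' / 2 ^ H) ^ 2 ^ 2 ^ e - c' / 2 ^ H‖ < 1) (a : ℕ) :
    ∃ C : ℕ, ∀ k : ℤ, (C : ℤ) ≤ k → Even k → ∀ [Module.Finite ℂ (CuspForm 𝒮ℒ k)]
      (T : CuspForm 𝒮ℒ k →ₗ[ℂ] CuspForm 𝒮ℒ k), IsHecke k 2 T →
      ∀ P : Polynomial ℚ, P.map (algebraMap ℚ ℂ) = LinearMap.charpoly T →
        ∃ σ : P.Gal, k ≤ (C : ℤ) * (Cy P σ (2 ^ a) : ℤ) := by
  classical
  obtain ⟨N, H, f, c, c', hN, hf, hfT, hcal, hmin, hnorm, ha, e, he⟩ := hI a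
  have hk1 : 1 ≤ 4 * N := by omega
  clear hN
  revert hk1 f
  generalize 4 * N = k0
  intro f hf hfT hk1
  obtain ⟨T0, hT0⟩ := Pool.Agent.Lib.MP_06b9d2_p2.hecke_ex (k0 : ℤ) 2 (by norm_num)
  obtain ⟨Φ, hΦ, -⟩ := Pool.Agent.Lib.MP_06b9d2_nt.MU.Phi_ex k0
  have hfin : Module.Finite ℂ (CuspForm 𝒮ℒ (k0 : ℤ)) :=
    Module.Finite.of_injective Φ hΦ.1
  have hev : Module.End.HasEigenvalue T0 c :=
    Module.End.hasEigenvalue_of_hasEigenvector (x := f)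
      ⟨Module.End.mem_eigenspace_iff.2 (hfT T0 hT0), hf⟩
  have hrootc : (LinearMap.charpoly T0).IsRoot c :=
    (Module.End.hasEigenvalue_iff_isRoot_charpoly _ _).1 hev
  have hrt : ∀ F : Polynomial ℤ, F.map (Int.castRingHom ℂ) = LinearMap.charpoly T0 →
      Polynomial.aeval c F = 0 := by
    intro F hF
    have h1 := hrootc
    rw [← hF, Polynomial.IsRoot.def, Polynomial.eval_map] at h1
    exact h1
  obtain ⟨M, hM, -⟩ := hm k0 T0 hT0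
  have hroot : Polynomial.aeval c M.charpoly = 0 := hrt _ hM.symm
  have key : ∀ F : Polynomial ℤ, Polynomial.aeval c F = 0 ↔ Polynomial.aeval c' F = 0 := by
    intro F
    have h1 : Polynomial.aeval c F = Polynomial.aeval c (F.map (Int.castRingHom ℚ)) := by
      rw [← algebraMap_int_eq, Polynomial.aeval_map_algebraMap]
    have h2 : Polynomial.aeval c' F = Polynomial.aeval c' (F.map (Int.castRingHom ℚ)) := by
      rw [← algebraMap_int_eq, Polynomial.aeval_map_algebraMap]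
    rw [h1, h2, ← minpoly.dvd_iff, ← minpoly.dvd_iff, hmin]
  have hint : IsIntegral ℤ c' := ⟨M.charpoly, M.charpoly_monic, (key _).1 hroot⟩
  have hx : ‖c' / 2 ^ H‖ ≤ 1 := by
    have h2 : ‖(2 : PadicAlgCl 2)‖ = (2 : ℝ)⁻¹ := by
      have h3 := PadicAlgCl.norm_extends 2 (2 : ℚ_[2])
      have h4 : ‖(2 : ℚ_[2])‖ = ((2 : ℕ) : ℝ)⁻¹ := by
        exact_mod_cast (Padic.norm_p (p := 2))
      rw [h4] at h3
      rw [← map_ofNat (algebraMap ℚ_[2] (PadicAlgCl 2)) 2]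
      simpa using h3
    rw [norm_div, norm_pow, h2, hnorm, zpow_neg, zpow_natCast, inv_pow, div_self (by positivity)]
  obtain ⟨p, hp, hBp, v, hv, hdeg⟩ := prD c' hint H a e hx ha he (max 5 k0)
  have hp5 : 5 < p := lt_of_le_of_lt (le_max_left _ _) hBp
  have hpk : k0 < p := lt_of_le_of_lt (le_max_right _ _) hBp
  have hpZ : (5 : ℤ) < p := by exact_mod_cast hp5
  have hkZ : (k0 : ℤ) < p := by exact_mod_cast hpk
  have hk0Z : (1 : ℤ) ≤ k0 := by exact_mod_cast hk1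
  refine ⟨2 * (k0 + p ^ 2), ?_⟩
  intro k hk hke hkfin T hT P hP
  have hCz : (((2 * (k0 + p ^ 2) : ℕ)) : ℤ) = 2 * ((k0 : ℤ) + (p : ℤ) ^ 2) := by push_cast; ring
  rw [hCz] at hk ⊢
  -- the number of steps
  have hD : (0 : ℤ) < (p : ℤ) ^ 2 - 1 := by nlinarith
  have hK0 : ((p : ℤ) + 1) * (((p : ℤ) - 3) / 2) ≤ (p : ℤ) ^ 2 - 1 := by
    have h1 : ((p : ℤ) - 3) / 2 ≤ (p : ℤ) - 1 := by omega
    have h2 : (0 : ℤ) ≤ (p : ℤ) + 1 := by omega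
    nlinarith [mul_le_mul_of_nonneg_left h1 h2]
  set K0 : ℤ := (k0 : ℤ) + ((p : ℤ) + 1) * (((p : ℤ) - 3) / 2) with hK0d
  have hK0le : K0 ≤ (k0 : ℤ) + (p : ℤ) ^ 2 - 1 := by rw [hK0d]; linarith
  have hkK : 0 ≤ k - K0 := by nlinarith
  have hq0 : 0 ≤ (k - K0) / ((p : ℤ) ^ 2 - 1) := Int.ediv_nonneg hkK hD.le
  obtain ⟨m, hm'⟩ := Int.eq_ofNat_of_zero_le hq0
  have hdm := Int.mul_ediv_add_emod (k - K0) ((p : ℤ) ^ 2 - 1)
  have hmod := Int.emod_nonneg (k - K0) hD.ne'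
  have hmod2 := Int.emod_lt_of_pos (k - K0) hD
  rw [hm'] at hdm
  have hmle : K0 + ((p : ℤ) ^ 2 - 1) * (m : ℤ) ≤ k := by linarith
  have hmgt : k < K0 + ((p : ℤ) ^ 2 - 1) * ((m : ℤ) + 1) := by nlinarith
  obtain ⟨σ, hσ⟩ := propG (p := p) hp5.le k0 hk1 T0 hT0 v
    (fun F hF => hv F ((key F).1 (hrt F hF))) k hke T hT m hmle P hP
  refine ⟨σ, ?_⟩
  have hd1 : 0 < (minpoly (ZMod p) v).natDegree :=
    minpoly.natDegree_pos (Algebra.IsIntegral.isIntegral v)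
  have hP0 : P ≠ 0 := by
    rintro rfl
    rw [Polynomial.map_zero] at hP
    exact (LinearMap.charpoly_monic T).ne_zero hP.symm
  have hmono : Cy P σ (minpoly (ZMod p) v).natDegree ≤ Cy P σ (2 ^ a) := by
    unfold Cy
    refine Set.ncard_le_ncard ?_ ?_
    · intro α hα
      exact ⟨hα.1, fun j hj => hdeg.trans (hα.2 j hj)⟩
    · refine Set.Finite.subset (P.rootSet_finite P.SplittingField) ?_
      intro α hα
      exact (Polynomial.mem_rootSet).2 ⟨hP0, hα.1⟩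
  have hcard : m + 1 ≤ Cy P σ (2 ^ a) := by
    have h2 : 1 * (m + 1) ≤ (minpoly (ZMod p) v).natDegree * (m + 1) :=
      Nat.mul_le_mul_right _ hd1
    omega
  have hcardZ : (m : ℤ) + 1 ≤ ((Cy P σ (2 ^ a) : ℕ) : ℤ) := by exact_mod_cast hcard
  have hfin2 : k ≤ 2 * ((k0 : ℤ) + (p : ℤ) ^ 2) * ((m : ℤ) + 1) := by
    have hm0 : (0 : ℤ) ≤ m := by positivity
    nlinarith [mul_nonneg hm0 (show (0 : ℤ) ≤ (k0 : ℤ) by positivity), mul_nonneg hm0 hD.le]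
  have hpos : (0 : ℤ) ≤ 2 * ((k0 : ℤ) + (p : ℤ) ^ 2) := by positivity
  exact hfin2.trans (mul_le_mul_of_nonneg_left hcardZ hpos)

end Pool.Agent.Lib.MP_06b9d2_gr
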