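import Pool.Agent.Lib.MP_06b9d2_bz.PartI
import Pool.Agent.Lib.MP_06b9d2_gr.PNG
import Pool.Agent.Lib.MP_06b9d2_gr.PLG
import Pool.Agent.Lib.MP_06b9d2_gr.CyDeg
import Pool.Agent.Lib.MP_06b9d2_gr.Dih2
import Pool.Agent.Lib.MP_06b9d2_bm.GGr
import Pool.Agent.Lib.MP_06b9d2_lf.GoodN

/-!
MP_06b9d2_nt, growth of the degrees (Theorem G): the final assembly, Galois form.
-/

namespace Pool.Agent.Lib.MP_06b9d2_gr

open UpperHalfPlane Pool.Agent.L1 Pool.Agent.Lib.MP_06b9d2_nt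
open Pool.Agent.Lib.MP_06b9d2_tls (KerOne)
open Pool.Agent.Lib.MP_06b9d2_bm (bd kerB_bd mult_Z)
open scoped MatrixGroups ModularForm

theorem cy_eq (P : Polynomial ℚ) (hP : P ≠ 0) (σ : P.Gal) (q : ℕ) :
    Set.ncard {α : P.SplittingField | Polynomial.aeval α P = 0 ∧ q ≤ (minpoly ℚ α).natDegree ∧
      ∀ j : ℕ, (σ ^ j) α = α → q ∣ j} = Cy P σ q := by
  unfold Cy
  congr 1
  ext α
  constructor
  · rintro ⟨h1, -, h2⟩
    exact ⟨h1, h2⟩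
  · rintro ⟨h1, h2⟩
    exact ⟨h1, cy_deg P hP σ q α h1 h2, h2⟩

/-- `k ≤ C * m` in terms of a lower bound for `m` -/
private theorem fing_ceil {k : ℤ} {C m : ℕ} (hC : 0 < C) (hk : (C : ℤ) ≤ k) :
    (k.toNat + C - 1) / C ≤ m ↔ k ≤ (C : ℤ) * (m : ℤ) := by
  have h5 : (k.toNat : ℤ) = k := Int.toNat_of_nonneg (by omega)
  have h6 : k ≤ (C : ℤ) * (m : ℤ) ↔ k.toNat ≤ C * m := by
    constructor
    · intro h
      have h7 : (k.toNat : ℤ) ≤ ((C * m : ℕ) : ℤ) := by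
        rw [h5]
        push_cast
        exact h
      exact_mod_cast h7
    · intro h
      have h7 : (k.toNat : ℤ) ≤ ((C * m : ℕ) : ℤ) := by exact_mod_cast h
      rw [h5] at h7
      push_cast at h7
      exact h7
  rw [h6, ← Nat.lt_succ_iff, Nat.succ_eq_add_one, Nat.div_lt_iff_lt_mul hC, add_mul, one_mul, mul_comm m]
  omega

/-- a positive constant -/
private theorem fing_pos (a : ℕ) : ∃ C : ℕ, 0 < C ∧ ∀ k : ℤ, (C : ℤ) ≤ k → Even k →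
    ∀ [Module.Finite ℂ (CuspForm 𝒮ℒ k)] (T : CuspForm 𝒮ℒ k →ₗ[ℂ] CuspForm 𝒮ℒ k), IsHecke k 2 T →
      ∀ P : Polynomial ℚ, P.map (algebraMap ℚ ℂ) = LinearMap.charpoly T →
        ∃ σ : P.Gal, (k.toNat + C - 1) / C ≤ Cy P σ (2 ^ a) := by
  obtain ⟨C, hC⟩ := growG Pool.Agent.BZ.partI a
  refine ⟨C + 1, Nat.succ_pos _, ?_⟩
  intro k hk hke _ T hT P hP
  obtain ⟨σ, hσ⟩ := hC k (by push_cast at hk; omega) hke T hT P hP
  refine ⟨σ, ?_⟩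
  rw [fing_ceil (Nat.succ_pos _) hk]
  push_cast
  have h2 : (0 : ℤ) ≤ (Cy P σ (2 ^ a) : ℤ) := Int.natCast_nonneg _
  nlinarith

private theorem fing_q1 (q : ℕ) : ∀ i j : ℕ, 1 ≤ i → i ≤ 1 → q ∣ i * j → q ∣ j := by
  intro i j h1 h2 h
  have : i = 1 := by omega
  rwa [this, one_mul] at h

private theorem fing_q2 (a b : ℕ) : ∀ i j : ℕ, 1 ≤ i → i ≤ b → 2 ^ (a + b) ∣ i * j → 2 ^ a ∣ j := by
  intro i j h1 h2 h
  obtain ⟨s, c, hc, rfl⟩ := Nat.exists_eq_two_pow_mul_odd (n := i) (by omega)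
  have hs : s ≤ b := by
    have h3 : s < 2 ^ s := Nat.lt_two_pow_self
    have h4 : 2 ^ s ≤ 2 ^ s * c := Nat.le_mul_of_pos_right _ hc.pos
    omega
  have h5 : 2 ^ (a + (b - s)) ∣ c * j := by
    have h6 : 2 ^ s * 2 ^ (a + (b - s)) ∣ 2 ^ s * (c * j) := by
      rw [← pow_add, show s + (a + (b - s)) = a + b by omega, ← mul_assoc]
      exact h
    exact Nat.dvd_of_mul_dvd_mul_left (by positivity) h6
  have h7 : 2 ^ (a + (b - s)) ∣ j :=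
    (Nat.Coprime.pow_left _ (Nat.coprime_two_left.2 hc)).dvd_of_dvd_mul_left h5
  exact (pow_dvd_pow 2 (Nat.le_add_right a (b - s))).trans h7

theorem fing_one (a : ℕ) : ∃ C : ℕ, ∀ n : ℕ, 1 ≤ n ∧ KerOne n → ∀ k : ℤ, Even k → (C : ℤ) ≤ k →
    ∀ (Γ : Subgroup (GL (Fin 2) ℝ)) (_ : Γ = 𝒮ℒ) [Γ.HasDetOne]
    [Module.Finite ℂ (CuspForm Γ k)] (T : CuspForm Γ k →ₗ[ℂ] CuspForm Γ k)
    (_ : ∀ (f : CuspForm Γ k) (τ : UpperHalfPlane),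
      T f τ = ∑ a ∈ n.divisors, ∑ b ∈ Finset.range (n / a),
        ((n : ℂ) ^ (k - 1) * ((n / a : ℕ) : ℂ) ^ (-k)) *
          f (UpperHalfPlane.ofComplex (((a : ℂ) * (τ : ℂ) + (b : ℂ)) / ((n / a : ℕ) : ℂ))))
    (P : Polynomial ℚ) (_ : P.map (algebraMap ℚ ℂ) = LinearMap.charpoly T),
    ∃ σ : P.Gal, k ≤ (C : ℤ) * (Cy P σ (2 ^ a) : ℤ) := by
  obtain ⟨C, hC0, hC⟩ := fing_pos a
  refine ⟨C, ?_⟩
  intro n hn k hk hk2 Γ hΓ _ _ T hT P hP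
  subst hΓ
  obtain ⟨σ, hσ⟩ := cy_hecke hn.1 k hk 1 (2 ^ a) (2 ^ a) _ (fing_q1 _)
    (fun T2 hT2 P2 hP2 => hC k hk2 hk T2 hT2 P2 hP2) 𝒮ℒ rfl T hT
    (Pool.Agent.Lib.MP_06b9d2_tls.ker_leZ hn.2 k hk T hT) P hP
  refine ⟨σ, ?_⟩
  rw [one_mul] at hσ
  exact (fing_ceil hC0 hk2).1 hσ

theorem fing_two (a n : ℕ) (h2 : 2 ≤ n) (h6 : ¬ 6 ∣ n) : ∃ C : ℕ, ∀ k : ℤ, Even k → (C : ℤ) ≤ k →
    ∀ (Γ : Subgroup (GL (Fin 2) ℝ)) (_ : Γ = 𝒮ℒ) [Γ.HasDetOne]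
    [Module.Finite ℂ (CuspForm Γ k)] (T : CuspForm Γ k →ₗ[ℂ] CuspForm Γ k)
    (_ : ∀ (f : CuspForm Γ k) (τ : UpperHalfPlane),
      T f τ = ∑ a ∈ n.divisors, ∑ b ∈ Finset.range (n / a),
        ((n : ℂ) ^ (k - 1) * ((n / a : ℕ) : ℂ) ^ (-k)) *
          f (UpperHalfPlane.ofComplex (((a : ℂ) * (τ : ℂ) + (b : ℂ)) / ((n / a : ℕ) : ℂ))))
    (P : Polynomial ℚ) (_ : P.map (algebraMap ℚ ℂ) = LinearMap.charpoly T),
    ∃ σ : P.Gal, k ≤ (C : ℤ) * (Cy P σ (2 ^ a) : ℤ) := by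
  obtain ⟨C, hC0, hC⟩ := fing_pos (a + bd n)
  have hb : 0 < bd n := by
    unfold Pool.Agent.Lib.MP_06b9d2_bm.bd
    split_ifs <;> positivity
  refine ⟨C * bd n, ?_⟩
  intro k hk hk2 Γ hΓ _ _ T hT P hP
  have hk3 : (C : ℤ) ≤ k := by
    refine le_trans ?_ hk2
    push_cast
    have h7 : (1 : ℤ) ≤ (bd n : ℤ) := by exact_mod_cast hb
    have h8 : (0 : ℤ) ≤ (C : ℤ) := Int.natCast_nonneg _
    nlinarith
  subst hΓ
  obtain ⟨σ, hσ⟩ := cy_hecke (by omega : 1 ≤ n) k hk (bd n) (2 ^ a) (2 ^ (a + bd n)) _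
    (fing_q2 a (bd n)) (fun T2 hT2 P2 hP2 => hC k hk3 hk T2 hT2 P2 hP2) 𝒮ℒ rfl T hT
    (mult_Z (kerB_bd n h2 h6) k hk T hT) P hP
  refine ⟨σ, ?_⟩
  rw [fing_ceil hC0 hk3] at hσ
  push_cast at hσ ⊢
  rw [mul_assoc]
  exact hσ

private theorem fing_sub (k : ℤ) (hk : k ≤ 0) : Subsingleton (CuspForm 𝒮ℒ k) := by
  rcases hk.lt_or_eq with h | rfl
  · refine subsingleton_of_forall_eq 0 fun f => ?_
    have h1 := form_neg_zero h (CuspForm.toModularFormₗ f)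
    have h2 := (ModularForm.qExpansion_eq_zero_iff one_pos one_mem_strictPeriods_SL
      (CuspForm.toModularFormₗ f)).1 h1
    apply CuspForm.toModularFormₗ_injective
    rw [h2, map_zero]
  · obtain ⟨Φ, hΦ, -⟩ := Pool.Agent.Lib.MP_06b9d2_nt.MU.Phi_ex 0
    have h0 : IsEmpty (Fin (dd 0 - 1)) := by
      rw [show dd 0 - 1 = 0 by decide]
      infer_instance
    have h1 : Subsingleton (CuspForm 𝒮ℒ ((0 : ℕ) : ℤ)) := hΦ.1.subsingleton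
    exact h1

theorem fing_three {p : ℕ} (hp : p.Prime) (h5 : 5 ≤ p) (k₀ : ℤ) (Γ : Subgroup (GL (Fin 2) ℝ))
    (hΓ : Γ = 𝒮ℒ) [Γ.HasDetOne] [Module.Finite ℂ (CuspForm Γ k₀)]
    (T₀ : CuspForm Γ k₀ →ₗ[ℂ] CuspForm Γ k₀)
    (hT₀ : ∀ (f : CuspForm Γ k₀) (τ : UpperHalfPlane),
      T₀ f τ = ∑ a ∈ (2 : ℕ).divisors, ∑ b ∈ Finset.range (2 / a),
        (((2 : ℕ) : ℂ) ^ (k₀ - 1) * ((2 / a : ℕ) : ℂ) ^ (-k₀)) *
          f (UpperHalfPlane.ofComplex (((a : ℂ) * (τ : ℂ) + (b : ℂ)) / ((2 / a : ℕ) : ℂ))))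
    (F : Polynomial ℤ) (hF : F.map (Int.castRingHom ℂ) = LinearMap.charpoly T₀)
    (g : Polynomial (ZMod p)) (hg : Irreducible g) (hgF : g ∣ F.map (Int.castRingHom (ZMod p)))
    (n : ℕ) (hn : 1 ≤ n ∧ KerOne n) (m : ℕ) (k : ℤ) (hk : Even k)
    (hk2 : k₀ + ((p : ℤ) + 1) * (((p : ℤ) - 3) / 2) + ((p : ℤ) ^ 2 - 1) * m ≤ k)
    [Module.Finite ℂ (CuspForm Γ k)] (T : CuspForm Γ k →ₗ[ℂ] CuspForm Γ k)
    (hT : ∀ (f : CuspForm Γ k) (τ : UpperHalfPlane),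
      T f τ = ∑ a ∈ n.divisors, ∑ b ∈ Finset.range (n / a),
        ((n : ℂ) ^ (k - 1) * ((n / a : ℕ) : ℂ) ^ (-k)) *
          f (UpperHalfPlane.ofComplex (((a : ℂ) * (τ : ℂ) + (b : ℂ)) / ((n / a : ℕ) : ℂ))))
    (P : Polynomial ℚ) (hP : P.map (algebraMap ℚ ℂ) = LinearMap.charpoly T) :
    ∃ σ : P.Gal, g.natDegree * (m + 1) ≤ Cy P σ g.natDegree := by
  subst hΓ
  have : Fact p.Prime := ⟨hp⟩
  have hinj : Function.Injective (Polynomial.map (Int.castRingHom ℂ)) :=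
    Polynomial.map_injective _ Int.cast_injective
  -- the root
  obtain ⟨v, hv⟩ := IsAlgClosed.exists_aeval_eq_zero (AlgebraicClosure (ZMod p)) g
    (fun h0 => hg.1 (Polynomial.isUnit_iff_degree_eq_zero.2 h0))
  have hdeg : (minpoly (ZMod p) v).natDegree = g.natDegree := by
    rw [← minpoly.eq_of_irreducible hg hv, Polynomial.natDegree_mul_C]
    exact inv_ne_zero (Polynomial.leadingCoeff_ne_zero.2 hg.ne_zero)
  have hvF : Polynomial.aeval v F = 0 := by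
    have h1 : Polynomial.aeval v (F.map (Int.castRingHom (ZMod p))) = 0 := by
      obtain ⟨q, hq⟩ := hgF
      rw [hq, map_mul, hv, zero_mul]
    rw [Polynomial.aeval_def, Polynomial.eval₂_map] at h1
    have hcomp : (algebraMap (ZMod p) (AlgebraicClosure (ZMod p))).comp
        (Int.castRingHom (ZMod p)) = algebraMap ℤ (AlgebraicClosure (ZMod p)) :=
      RingHom.ext_int _ _
    rw [hcomp] at h1
    exact h1
  -- the weight `k₀` is positive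
  have hk1 : 1 ≤ k₀ := by
    by_contra hneg
    push Not at hneg
    have hsub : Subsingleton (CuspForm 𝒮ℒ k₀) := fing_sub k₀ (by omega)
    have h1 : LinearMap.charpoly T₀ = 1 := by
      have h2 : (LinearMap.charpoly T₀).natDegree = 0 := by
        rw [LinearMap.charpoly_natDegree, Module.finrank_zero_of_subsingleton]
      exact (LinearMap.charpoly_monic T₀).natDegree_eq_zero.1 h2
    have h3 : F = 1 := by
      apply hinj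
      rw [hF, h1, Polynomial.map_one]
    rw [h3, map_one] at hvF
    exact one_ne_zero hvF
  obtain ⟨k0, rfl⟩ : ∃ k0 : ℕ, k₀ = (k0 : ℤ) := ⟨k₀.toNat, by omega⟩
  rw [← hdeg]
  obtain ⟨σ, hσ⟩ := cy_hecke hn.1 k hk 1 _ (minpoly (ZMod p) v).natDegree
    ((minpoly (ZMod p) v).natDegree * (m + 1)) (fing_q1 _)
    (fun T2 hT2 P2 hP2 => propG h5 k0 (by omega) T₀ hT₀ v (by
      intro F' hF'
      have : F' = F := hinj (by rw [hF', hF])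
      rw [this]
      exact hvF) k hk T2 hT2 m hk2 P2 hP2) 𝒮ℒ rfl T hT
    (Pool.Agent.Lib.MP_06b9d2_tls.ker_leZ hn.2 k hk T hT) P hP
  rw [one_mul] at hσ
  exact ⟨σ, hσ⟩

theorem fing_four {p h r : ℕ} (hp : p.Prime) (h8 : p % 8 = 7) (hh : 1 ≤ h) (x y : ℤ) (hx : Odd x)
    (hy : Odd y) (hxy : x ^ 2 + p * y ^ 2 = 2 ^ (h + 2)) (hpy : ¬ (p : ℤ) ∣ y)
    (hmin : ∀ (h' : ℕ) (x' y' : ℤ), 1 ≤ h' → h' < h → Odd x' → Odd y' →
      x' ^ 2 + p * y' ^ 2 ≠ 2 ^ (h' + 2)) (hph : ¬ p ∣ h)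
    (hr0 : 1 ≤ r) (hr : ∀ j, 1 ≤ j → j < r → ¬ h ∣ p ^ j - 1 ∧ ¬ h ∣ p ^ j + 1)
    (hr1 : h ∣ p ^ r - 1 ∨ h ∣ p ^ r + 1)
    (n : ℕ) (hn : 1 ≤ n ∧ KerOne n) (m : ℕ) (k : ℤ) (hk : Even k)
    (hk2 : (p : ℤ) * (p + 1) / 2 + ((p : ℤ) ^ 2 - 1) * m ≤ k)
    (Γ : Subgroup (GL (Fin 2) ℝ)) (hΓ : Γ = 𝒮ℒ) [Γ.HasDetOne]
    [Module.Finite ℂ (CuspForm Γ k)] (T : CuspForm Γ k →ₗ[ℂ] CuspForm Γ k)
    (hT : ∀ (f : CuspForm Γ k) (τ : UpperHalfPlane),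
      T f τ = ∑ a ∈ n.divisors, ∑ b ∈ Finset.range (n / a),
        ((n : ℂ) ^ (k - 1) * ((n / a : ℕ) : ℂ) ^ (-k)) *
          f (UpperHalfPlane.ofComplex (((a : ℂ) * (τ : ℂ) + (b : ℂ)) / ((n / a : ℕ) : ℂ))))
    (P : Polynomial ℚ) (hP : P.map (algebraMap ℚ ℂ) = LinearMap.charpoly T) :
    ∃ σ : P.Gal, r * (m + 1) ≤ Cy P σ r := by
  subst hΓ
  have : Fact p.Prime := ⟨hp⟩
  obtain ⟨v, hv, hvT⟩ := dih2 h8 hh x y hx hy hxy hpy hmin hph hr0 hr hr1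
  have hN8 : 8 * ME.Np p 0 = 1 + p := by
    have := ME.eight_Np h8 0
    simpa using this
  obtain ⟨T0, hT0⟩ := Pool.Agent.Lib.MP_06b9d2_p2.hecke_ex ((12 * ME.Np p 0 : ℕ) : ℤ) 2 (by norm_num)
  obtain ⟨Φ, hΦ, -⟩ := Pool.Agent.Lib.MP_06b9d2_nt.MU.Phi_ex (12 * ME.Np p 0)
  have hfin : Module.Finite ℂ (CuspForm 𝒮ℒ ((12 * ME.Np p 0 : ℕ) : ℤ)) :=
    Module.Finite.of_injective Φ hΦ.1
  have hp5 : 5 ≤ p := by omega
  have hk3 : (((12 * ME.Np p 0 : ℕ)) : ℤ) + ((p : ℤ) + 1) * (((p : ℤ) - 3) / 2) +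
      ((p : ℤ) ^ 2 - 1) * m ≤ k := by
    refine le_trans (le_of_eq ?_) hk2
    obtain ⟨q, hq⟩ : ∃ q, p = 8 * q + 7 := ⟨p / 8, by omega⟩
    have hNq : ME.Np p 0 = q + 1 := by omega
    have h1 : (p : ℤ) * (p + 1) / 2 = (8 * (q : ℤ) + 7) * (4 * q + 4) := by
      rw [hq]
      push_cast
      rw [show (8 * (q : ℤ) + 7) * (8 * (q : ℤ) + 7 + 1) = 2 * ((8 * (q : ℤ) + 7) * (4 * q + 4)) by
        ring]
      exact Int.mul_ediv_cancel_left _ (by norm_num)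
    have h2 : ((p : ℤ) - 3) / 2 = 4 * (q : ℤ) + 2 := by omega
    rw [h1, h2, hNq, hq]
    push_cast
    ring
  rw [← hv]
  obtain ⟨σ, hσ⟩ := cy_hecke hn.1 k hk 1 _ (minpoly (ZMod p) v).natDegree
    ((minpoly (ZMod p) v).natDegree * (m + 1)) (fing_q1 _)
    (fun T2 hT2 P2 hP2 => propG hp5 (12 * ME.Np p 0) (by omega) T0 hT0 v (by
      intro F hF
      refine hvT T0 hT0 F ?_
      rw [← Polynomial.aeval_map_algebraMap ℂ T0 F]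
      have h1 : F.map (algebraMap ℤ ℂ) = LinearMap.charpoly T0 := hF
      rw [h1]
      exact LinearMap.aeval_self_charpoly T0) k hk T2 hT2 m hk3 P2 hP2) 𝒮ℒ rfl T hT
    (Pool.Agent.Lib.MP_06b9d2_tls.ker_leZ hn.2 k hk T hT) P hP
  rw [one_mul] at hσ
  exact ⟨σ, hσ⟩

/-- Euler's criterion -/
private theorem fing_euler : 476579 ∣ 100000011719 ^ 238289 - 1 ∨ 476579 ∣ 100000011719 ^ 238289 + 1 := by
  have hF : Fact (Nat.Prime 476579) := ⟨MF.prime_m⟩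
  have h0 : ((100000011719 : ℕ) : ZMod 476579) ≠ 0 := by
    intro h
    rw [ZMod.natCast_eq_zero_iff] at h
    revert h
    norm_num
  have h1 := ZMod.pow_card_sub_one_eq_one h0
  have h2 : (((100000011719 : ℕ) : ZMod 476579) ^ 238289 - 1) *
      (((100000011719 : ℕ) : ZMod 476579) ^ 238289 + 1) = 0 := by
    have key : ∀ x : ZMod 476579, (x - 1) * (x + 1) = x ^ 2 - 1 := fun x => by ring
    rw [key, ← pow_mul, show 238289 * 2 = 476579 - 1 by norm_num, h1, sub_self]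
  rcases mul_eq_zero.1 h2 with h3 | h3
  · left
    rw [← ZMod.natCast_eq_zero_iff, Nat.cast_sub (Nat.one_le_pow _ _ (by norm_num)), Nat.cast_pow,
      Nat.cast_one]
    exact h3
  · right
    rw [← ZMod.natCast_eq_zero_iff, Nat.cast_add, Nat.cast_pow, Nat.cast_one]
    exact h3

theorem fing_five (n : ℕ) (hn : 1 ≤ n ∧ KerOne n) (k : ℤ) (hk : Even k)
    (hk2 : 5000001171950068673340 ≤ k)
    (Γ : Subgroup (GL (Fin 2) ℝ)) (hΓ : Γ = 𝒮ℒ) [Γ.HasDetOne]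
    [Module.Finite ℂ (CuspForm Γ k)] (T : CuspForm Γ k →ₗ[ℂ] CuspForm Γ k)
    (hT : ∀ (f : CuspForm Γ k) (τ : UpperHalfPlane),
      T f τ = ∑ a ∈ n.divisors, ∑ b ∈ Finset.range (n / a),
        ((n : ℂ) ^ (k - 1) * ((n / a : ℕ) : ℂ) ^ (-k)) *
          f (UpperHalfPlane.ofComplex (((a : ℂ) * (τ : ℂ) + (b : ℂ)) / ((n / a : ℕ) : ℂ))))
    (P : Polynomial ℚ) (hP : P.map (algebraMap ℚ ℂ) = LinearMap.charpoly T) :
    ∃ σ : P.Gal, k ≤ 100000000000000000 * (Cy P σ 238289 : ℤ) := by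
  have : Fact (Nat.Prime 100000011719) := ⟨MF.prime_p⟩
  obtain ⟨hxy, hx, hy, hpy⟩ := MF.chkN_spec MF.xyI
  obtain ⟨m, hm⟩ : ∃ m : ℕ, (m : ℤ) = (k - 5000001171950068673340) / 10000002343800137334960 :=
    ⟨((k - 5000001171950068673340) / 10000002343800137334960).toNat, Int.toNat_of_nonneg
      (Int.ediv_nonneg (by omega) (by norm_num))⟩
  obtain ⟨σ, hσ⟩ := fing_four (p := 100000011719) (h := 476579) (r := 238289) MF.prime_p (by norm_num)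
    (by norm_num) MF.xI MF.yI hx hy hxy hpy
    (MF.min_of_prime (by norm_num) (by norm_num) MF.prime_m MF.xI MF.yI hx hy hxy) (by norm_num)
    (by norm_num) MF.ordI fing_euler n hn m k hk (by
      push_cast
      omega) Γ hΓ T hT P hP
  refine ⟨σ, ?_⟩
  have h1 : (238289 : ℤ) * (m + 1) ≤ (Cy P σ 238289 : ℤ) := by exact_mod_cast hσ
  omega

/-- the spaces are finite dimensional -/
theorem cusp_fin (k : ℤ) : Module.Finite ℂ (CuspForm 𝒮ℒ k) := by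
  rcases lt_or_ge k 0 with h | h
  · have := fing_sub k h.le
    infer_instance
  · obtain ⟨k', rfl⟩ := Int.eq_ofNat_of_zero_le h
    obtain ⟨Φ, hΦ, -⟩ := Pool.Agent.Lib.MP_06b9d2_nt.MU.Phi_ex k'
    exact Module.Finite.of_injective Φ hΦ.1

/-- the characteristic polynomial exists and is integral -/
theorem ex_F (n : ℕ) (hn : 1 ≤ n ∧ KerOne n) (k : ℤ) (hk : Even k) (Γ : Subgroup (GL (Fin 2) ℝ))
    (hΓ : Γ = 𝒮ℒ) [Γ.HasDetOne] :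
    ∃ F : Polynomial ℤ, F.Monic ∧ ∃ (_ : Module.Finite ℂ (CuspForm Γ k))
      (T : CuspForm Γ k →ₗ[ℂ] CuspForm Γ k),
      (∀ (f : CuspForm Γ k) (τ : UpperHalfPlane),
        T f τ = ∑ a ∈ n.divisors, ∑ b ∈ Finset.range (n / a),
          ((n : ℂ) ^ (k - 1) * ((n / a : ℕ) : ℂ) ^ (-k)) *
            f (UpperHalfPlane.ofComplex (((a : ℂ) * (τ : ℂ) + (b : ℂ)) / ((n / a : ℕ) : ℂ)))) ∧
      (F.map (Int.castRingHom ℚ)).map (algebraMap ℚ ℂ) = LinearMap.charpoly T := by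
  subst hΓ
  have hfin := cusp_fin k
  obtain ⟨T, hT⟩ := Pool.Agent.Lib.MP_06b9d2_p2.hecke_ex k n (by omega)
  obtain ⟨⟨F, h1, h2, -⟩, -⟩ := Pool.Agent.Lib.MP_06b9d2_tls.concl hn.1 hn.2 _ rfl k hk T hT
  refine ⟨F, h1, hfin, T, hT, ?_⟩
  rw [← h2, Polynomial.map_map]
  congr 1

end Pool.Agent.Lib.MP_06b9d2_gr
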