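import Mathlib

/-!
Module GR-Frb. A Frobenius element at a prime of `N` above `2`.

`Q = {y ∈ 𝓞 N : ‖ι y‖ < 1}` is a prime of `𝓞 N` with `2 ∈ Q`, so `𝓞 N / Q` is a finite field of characteristic `2` (`ι y` is integral over `ℤ`, so `‖ι y‖ ≤ 1`). The group `N ≃ₐ[ℚ] N` acts on `𝓞 N` with invariants `ℤ`; Mathlib (`RingTheory/Frobenius.lean`: `AlgHom.IsArithFrobAt`, existence `exists_of_isInvariant`; or `Ideal.Quotient.stabilizerHom_surjective`) gives `σ` with `σ y - y ^ 2 ∈ Q` for all `y ∈ 𝓞 N` (`#(ℤ / (Q ∩ ℤ)) = 2`). For `x ∈ N` with `‖ι x‖ ≤ 1`: `x = y / z` with `y`, `z ∈ 𝓞 N`, `z ∉ Q` (the localization of `𝓞 N` at `Q` is a valuation ring, so `x` or `x⁻¹` is of this form; in the second case `x = z / y` with `z ∉ Q`, `‖ι x‖ ≤ 1`, so `y ∉ Q`). Then `σ x - x ^ 2 = (σ y z ^ 2 - y ^ 2 σ z) / (σ z z ^ 2)` with `σ y = y ^ 2`, `σ z = z ^ 2` modulo `Q` and `σ z ∉ Q`.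
-/

namespace Pool.Agent.Lib.MP_06b9d2_gr

open NumberField

private theorem int_norm {z : PadicAlgCl 2} (hz : IsIntegral ℤ z) : ‖z‖ ≤ 1 := by
  have h1 : IsIntegral (PadicAlgCl.valued 2).v.integer z := hz.tower_top
  have h2 : z ∈ (PadicAlgCl.valued 2).v.integer :=
    (Valuation.integer.integers (PadicAlgCl.valued 2).v).mem_of_integral h1
  rw [Valuation.mem_integer_iff] at h2
  have h3 : (‖z‖₊ : NNReal) ≤ 1 := h2
  exact_mod_cast h3

private theorem add_lt {a b : PadicAlgCl 2} (ha : ‖a‖ < 1) (hb : ‖b‖ < 1) : ‖a + b‖ < 1 :=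
  (IsUltrametricDist.norm_add_le_max a b).trans_lt (max_lt ha hb)

private theorem two_norm : ‖(2 : PadicAlgCl 2)‖ < 1 := by
  have h := PadicAlgCl.valuation_p 2
  have h2 : (‖((2 : ℕ) : PadicAlgCl 2)‖₊ : NNReal) = 1 / ((2 : ℕ) : NNReal) := h
  have h3 : ‖((2 : ℕ) : PadicAlgCl 2)‖ = 1 / 2 := by
    have := congrArg (fun r : NNReal => (r : ℝ)) h2
    simpa using this
  have h4 : ((2 : ℕ) : PadicAlgCl 2) = 2 := by norm_num
  rw [h4] at h3
  rw [h3]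
  norm_num

/-- the prime of `𝓞 N` -/
private noncomputable def QQ {S : Type*} [CommRing S] (j : S →+* PadicAlgCl 2) (hj : ∀ y, ‖j y‖ ≤ 1) : Ideal S where
  carrier := {y | ‖j y‖ < 1}
  zero_mem' := by
    show ‖j 0‖ < 1
    rw [map_zero, norm_zero]
    exact one_pos
  add_mem' := by
    intro a b ha hb
    have ha' : ‖j a‖ < 1 := ha
    have hb' : ‖j b‖ < 1 := hb
    show ‖j (a + b)‖ < 1
    rw [map_add]
    exact add_lt ha' hb'
  smul_mem' := by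
    intro c a ha
    have ha' : ‖j a‖ < 1 := ha
    show ‖j (c * a)‖ < 1
    rw [map_mul, norm_mul]
    calc ‖j c‖ * ‖j a‖ ≤ 1 * ‖j a‖ := mul_le_mul_of_nonneg_right (hj c) (norm_nonneg _)
      _ < 1 := by rw [one_mul]; exact ha'

private theorem mem_QQ {S : Type*} [CommRing S] {j : S →+* PadicAlgCl 2} {hj : ∀ y, ‖j y‖ ≤ 1} {y : S} :
    y ∈ QQ j hj ↔ ‖j y‖ < 1 := Iff.rfl

private theorem QQ_prime {S : Type*} [CommRing S] (j : S →+* PadicAlgCl 2) (hj : ∀ y, ‖j y‖ ≤ 1) :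
    (QQ j hj).IsPrime := by
  refine ⟨fun h => ?_, fun {a b} hab => ?_⟩
  · have h1 : (1 : S) ∈ QQ j hj := by rw [h]; exact Submodule.mem_top
    rw [mem_QQ, map_one, norm_one] at h1
    exact lt_irrefl _ h1
  · rw [mem_QQ] at hab ⊢
    rw [mem_QQ]
    by_contra hcon
    push Not at hcon
    rw [map_mul, norm_mul] at hab
    have h1 := le_antisymm (hj a) hcon.1
    have h2 := le_antisymm (hj b) hcon.2
    rw [h1, h2, one_mul] at hab
    exact lt_irrefl _ hab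

private theorem two_mem {S : Type*} [CommRing S] (j : S →+* PadicAlgCl 2) (hj : ∀ y, ‖j y‖ ≤ 1) :
    (2 : S) ∈ QQ j hj := by
  rw [mem_QQ, map_ofNat]
  exact two_norm

private theorem card_two {S : Type*} [CommRing S] (j : S →+* PadicAlgCl 2) (hj : ∀ y, ‖j y‖ ≤ 1) :
    Nat.card (ℤ ⧸ (QQ j hj).under ℤ) = 2 := by
  have hp := QQ_prime j hj
  have h1 : Ideal.span {((2 : ℕ) : ℤ)} ≤ (QQ j hj).under ℤ := by
    rw [Ideal.span_singleton_le_iff_mem, Ideal.mem_comap]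
    have : (algebraMap ℤ S) ((2 : ℕ) : ℤ) = 2 := by
      rw [map_natCast]
      norm_num
    rw [this]
    exact two_mem j hj
  have h2 : (Ideal.span {((2 : ℕ) : ℤ)}).IsMaximal :=
    PrincipalIdealRing.isMaximal_of_irreducible Int.prime_two.irreducible
  have h3 : Ideal.span {((2 : ℕ) : ℤ)} = (QQ j hj).under ℤ := h2.eq_of_le (hp.under ℤ).ne_top h1
  rw [← h3, Int.card_ideal_quot]

theorem frb (N : Type*) [Field N] [NumberField N] [IsGalois ℚ N] (ι : N →+* PadicAlgCl 2) :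
    ∃ σ : N ≃ₐ[ℚ] N, ∀ x : N, ‖ι x‖ ≤ 1 → ‖ι (σ x) - ι x ^ 2‖ < 1 := by
  obtain ⟨j, hjdef⟩ : ∃ j : 𝓞 N →+* PadicAlgCl 2, j = ι.comp (algebraMap (𝓞 N) N) := ⟨_, rfl⟩
  have hja : ∀ y : 𝓞 N, ι (algebraMap (𝓞 N) N y) = j y := fun y => by rw [hjdef]; rfl
  have hj : ∀ y : 𝓞 N, ‖j y‖ ≤ 1 := by
    intro y
    rw [← hja]
    have h1 : IsIntegral ℤ y := IsIntegralClosure.isIntegral ℤ N y
    have h2 : IsIntegral ℤ (algebraMap (𝓞 N) N y) := h1.algebraMap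
    exact int_norm (h2.map ι.toIntAlgHom)
  have hp := QQ_prime j hj
  have hb : QQ j hj ≠ ⊥ := by
    intro h
    have h2 := two_mem j hj
    rw [h, Ideal.mem_bot] at h2
    exact two_ne_zero h2
  have hfin : Finite (𝓞 N ⧸ QQ j hj) := Ideal.finiteQuotientOfFreeOfNeBot _ hb
  have hinv : Algebra.IsInvariant ℤ (𝓞 N) (𝓞 N ≃ₐ[ℤ] 𝓞 N) := Algebra.isInvariant_of_isGalois' ℤ ℚ N (𝓞 N)
  have hfing : Finite (𝓞 N ≃ₐ[ℤ] 𝓞 N) := Finite.of_equiv _ (galRestrict ℤ ℚ N (𝓞 N)).toEquiv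
  obtain ⟨s, hs⟩ := IsArithFrobAt.exists_of_isInvariant ℤ (𝓞 N ≃ₐ[ℤ] 𝓞 N) (QQ j hj)
  have hs' : ∀ y : 𝓞 N, ‖j (s y) - j y ^ 2‖ < 1 := by
    intro y
    have h := hs y
    rw [card_two j hj, mem_QQ, map_sub, map_pow] at h
    exact h
  obtain ⟨σ, hσdef⟩ : ∃ σ : N ≃ₐ[ℚ] N, σ = (galRestrict ℤ ℚ N (𝓞 N)).symm s := ⟨_, rfl⟩
  have hσ : ∀ y : 𝓞 N, ι (σ (algebraMap (𝓞 N) N y)) = j (s y) := fun y => by
    rw [hσdef, galRestrict_symm_algebraMap_apply, hja]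
  refine ⟨σ, fun x hx => ?_⟩
  -- `x = y / z`
  obtain ⟨y, z, hz, hxz⟩ : ∃ y z : 𝓞 N, ‖j z‖ = 1 ∧ x * algebraMap (𝓞 N) N z = algebraMap (𝓞 N) N y := by
    obtain ⟨a, b, hb0, hab⟩ := IsFractionRing.div_surjective (A := 𝓞 N) x
    have hbne : (b : 𝓞 N) ≠ 0 := nonZeroDivisors.ne_zero hb0
    have hbN : algebraMap (𝓞 N) N b ≠ 0 := by
      intro h
      exact hbne ((map_eq_zero_iff _ (FaithfulSMul.algebraMap_injective (𝓞 N) N)).1 h)
    have hDVR := IsLocalization.AtPrime.isDiscreteValuationRing_of_dedekind_domain (𝓞 N) hb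
      (Localization.AtPrime (QQ j hj))
    have hinj : Function.Injective (algebraMap (𝓞 N) (Localization.AtPrime (QQ j hj))) :=
      IsLocalization.injective _ (QQ j hj).primeCompl_le_nonZeroDivisors
    have key : ∀ a b : 𝓞 N, algebraMap (𝓞 N) (Localization.AtPrime (QQ j hj)) b ∣
        algebraMap (𝓞 N) (Localization.AtPrime (QQ j hj)) a → ∃ y z : 𝓞 N, z ∉ QQ j hj ∧ a * z = b * y := by
      rintro a b ⟨c, hc⟩
      obtain ⟨y, z, rfl⟩ := IsLocalization.exists_mk'_eq (QQ j hj).primeCompl c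
      refine ⟨y, z, z.2, hinj ?_⟩
      rw [map_mul, map_mul, hc, mul_assoc, IsLocalization.mk'_spec]
    rcases ValuationRing.dvd_total (algebraMap (𝓞 N) (Localization.AtPrime (QQ j hj)) b)
      (algebraMap (𝓞 N) (Localization.AtPrime (QQ j hj)) a) with h | h
    · obtain ⟨y, z, hz, e⟩ := key a b h
      rw [mem_QQ, not_lt] at hz
      refine ⟨y, z, le_antisymm (hj z) hz, ?_⟩
      have e' : algebraMap (𝓞 N) N a * algebraMap (𝓞 N) N z = algebraMap (𝓞 N) N b * algebraMap (𝓞 N) N y := by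
        rw [← map_mul, ← map_mul, e]
      rw [← hab, div_mul_eq_mul_div, div_eq_iff hbN, e', mul_comm]
    · obtain ⟨y, z, hz, e⟩ := key b a h
      rw [mem_QQ, not_lt] at hz
      have hz1 := le_antisymm (hj z) hz
      have e' : algebraMap (𝓞 N) N b * algebraMap (𝓞 N) N z = algebraMap (𝓞 N) N a * algebraMap (𝓞 N) N y := by
        rw [← map_mul, ← map_mul, e]
      have hxy : x * algebraMap (𝓞 N) N y = algebraMap (𝓞 N) N z := by
        rw [← hab, div_mul_eq_mul_div, div_eq_iff hbN, ← e', mul_comm]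
      refine ⟨z, y, ?_, hxy⟩
      have h1 : ‖ι x‖ * ‖j y‖ = 1 := by rw [← hja, ← norm_mul, ← map_mul, hxy, hja, hz1]
      refine le_antisymm (hj y) ?_
      calc (1 : ℝ) = ‖ι x‖ * ‖j y‖ := h1.symm
        _ ≤ 1 * ‖j y‖ := mul_le_mul_of_nonneg_right hx (norm_nonneg _)
        _ = ‖j y‖ := one_mul _
  have e1 := hs' y
  have e2 := hs' z
  -- the norm of `σ z` is one
  have hsz : ‖j (s z)‖ = 1 := by
    refine le_antisymm (hj _) ?_
    by_contra hcon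
    push Not at hcon
    have h3 : j z ^ 2 = -(j (s z) - j z ^ 2) + j (s z) := by ring
    have h4 : ‖j z ^ 2‖ < 1 := by
      rw [h3]
      refine add_lt ?_ hcon
      rw [norm_neg]
      exact e2
    rw [norm_pow, hz] at h4
    norm_num at h4
  have h5 : ι (σ x) * j (s z) = j (s y) := by rw [← hσ, ← hσ, ← map_mul, ← map_mul, hxz]
  have h6 : ι x * j z = j y := by rw [← hja, ← hja, ← map_mul, hxz]
  have h7 : (ι (σ x) - ι x ^ 2) * j (s z) =
      (j (s y) - j y ^ 2) + -(ι x ^ 2 * (j (s z) - j z ^ 2)) := by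
    rw [sub_mul, h5, ← h6]
    ring
  have h8 : ‖(ι (σ x) - ι x ^ 2) * j (s z)‖ < 1 := by
    rw [h7]
    refine add_lt e1 ?_
    rw [norm_neg, norm_mul, norm_pow]
    calc ‖ι x‖ ^ 2 * ‖j (s z) - j z ^ 2‖ ≤ 1 * ‖j (s z) - j z ^ 2‖ :=
        mul_le_mul_of_nonneg_right (pow_le_one₀ (norm_nonneg _) hx) (norm_nonneg _)
      _ < 1 := by rw [one_mul]; exact e2
  rw [norm_mul, hsz, mul_one] at h8
  exact h8

end Pool.Agent.Lib.MP_06b9d2_gr
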