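import Pool.Agent.Lib.MP_06b9d2_gr.Defs
import Pool.Agent.Lib.MP_06b9d2_nt.MU.Mtx

/-!
Module GR-Hm. The integral matrix of `T_2` (with the relation for the power series).

Adapt `Pool/Agent/Lib/MP_06b9d2_nt/MU/Mtx.lean` (`Phi_ex`, `Mtx`; the relation `U 2 b + C (2 ^ (k - 1)) * V 2 b = Psi ℤ k c` is `hW` there; `H2 ℤ k b` is the same series) and `Pool/Agent/Lib/MP_06b9d2_tl2/TrfG.lean` (`LinearMap.charpoly` of `T` is the characteristic polynomial of the matrix: `LinearMap.charpoly_toMatrix`, `LinearEquiv.charpoly_conj`).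
-/

namespace Pool.Agent.Lib.MP_06b9d2_gr

open UpperHalfPlane Pool.Agent.L1 Pool.Agent.Lib.MP_06b9d2_nt
open scoped MatrixGroups ModularForm

/-- the `q`-expansion as a linear map -/
private noncomputable def Hm_qL (k : ℤ) : CuspForm 𝒮ℒ k →ₗ[ℂ] PowerSeries ℂ where
  toFun f := qExpansion 1 f
  map_add' f g := ModularForm.qExpansion_add one_pos one_mem_strictPeriods_SL f g
  map_smul' c f := ModularForm.qExpansion_smul one_pos one_mem_strictPeriods_SL c f

private noncomputable def Hm_Psi (R : Type) [CommRing R] (k : ℕ) :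
    (Fin (dd k - 1) → R) →ₗ[R] PowerSeries R :=
  Fintype.linearCombination R (fun j : Fin (dd k - 1) => bas R k ((j : ℕ) + 1))

private lemma Hm_Psi_apply (R : Type) [CommRing R] (k : ℕ) (c : Fin (dd k - 1) → R) :
    Hm_Psi R k c = ∑ j, c j • bas R k ((j : ℕ) + 1) := by
  rw [Hm_Psi, Fintype.linearCombination_apply]

private lemma Hm_Psi_inj (R : Type) [CommRing R] (k : ℕ) : Function.Injective (Hm_Psi R k) := by
  rw [← LinearMap.ker_eq_bot, LinearMap.ker_eq_bot']
  intro c hc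
  rw [Hm_Psi_apply] at hc
  have h1 := (linearIndependent_bas (R := R) k).comp
    (fun j : Fin (dd k - 1) => (⟨(j : ℕ) + 1, by have := j.2; omega⟩ : Fin (dd k)))
    (by
      intro a b hab
      have h2 := congrArg Fin.val hab
      apply Fin.ext
      simpa using h2)
  rw [Fintype.linearIndependent_iff] at h1
  funext j
  exact h1 c hc j

private lemma Hm_Psi_ex (R : Type) [CommRing R] (k : ℕ) {g : PowerSeries R} (hg : g ∈ ML R k)
    (h0 : PowerSeries.coeff 0 g = 0) : ∃ c : Fin (dd k - 1) → R, g = Hm_Psi R k c := by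
  obtain ⟨c, hc⟩ := mem_ML_iff.1 hg
  rcases Nat.eq_zero_or_pos (dd k) with hd | hd
  · refine ⟨0, ?_⟩
    rw [hc, map_zero]
    refine Finset.sum_eq_zero fun j hj => ?_
    rw [Finset.mem_range] at hj
    omega
  · refine ⟨fun j => c ((j : ℕ) + 1), ?_⟩
    have h1 : ∑ j ∈ Finset.range (dd k), c j • bas R k j =
        ∑ j ∈ Finset.range (dd k - 1), c (j + 1) • bas R k (j + 1) + c 0 • bas R k 0 := by
      rw [← Finset.sum_range_succ' (fun j => c j • bas R k j), Nat.sub_add_cancel hd]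
    have h2 : c 0 = 0 := by
      rw [hc, h1, map_add, map_sum, Finset.sum_eq_zero, zero_add, PowerSeries.coeff_smul,
        coeff_bas_self, smul_eq_mul, mul_one] at h0
      · exact h0
      · intro j _
        rw [PowerSeries.coeff_smul, coeff_bas_lt (Nat.succ_pos _), smul_zero]
    rw [hc, h1, h2, zero_smul, add_zero, Hm_Psi_apply]
    exact (Fin.sum_univ_eq_sum_range (fun j => c (j + 1) • bas R k (j + 1)) (dd k - 1)).symm

private lemma Hm_map_smul {R S : Type} [CommRing R] [CommRing S] (φ : R →+* S) (r : R)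
    (f : PowerSeries R) : PowerSeries.map φ (r • f) = φ r • PowerSeries.map φ f := by
  ext n
  rw [PowerSeries.coeff_map, PowerSeries.coeff_smul, PowerSeries.coeff_smul,
    PowerSeries.coeff_map, smul_eq_mul, smul_eq_mul, map_mul]

private lemma Hm_Psi_map {S : Type} [CommRing S] (φ : ℤ →+* S) (k : ℕ)
    (c : Fin (dd k - 1) → ℤ) :
    PowerSeries.map φ (Hm_Psi ℤ k c) = Hm_Psi S k (fun j => φ (c j)) := by
  rw [Hm_Psi_apply, Hm_Psi_apply, map_sum]
  refine Finset.sum_congr rfl fun j _ => ?_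
  rw [Hm_map_smul, map_bas]

theorem hm (k : ℕ) [Module.Finite ℂ (CuspForm 𝒮ℒ (k : ℤ))]
    (T : CuspForm 𝒮ℒ (k : ℤ) →ₗ[ℂ] CuspForm 𝒮ℒ (k : ℤ)) (hT : IsHecke (k : ℤ) 2 T) :
    ∃ M : Matrix (Fin (dd k - 1)) (Fin (dd k - 1)) ℤ,
      LinearMap.charpoly T = M.charpoly.map (Int.castRingHom ℂ) ∧
      ∀ j : Fin (dd k - 1), H2 ℤ k (bas ℤ k ((j : ℕ) + 1)) =
        ∑ i : Fin (dd k - 1), M i j • bas ℤ k ((i : ℕ) + 1) := by
  obtain ⟨Φ, hΦ, hq⟩ := MU.Phi_ex k
  have hq' : ∀ f : CuspForm 𝒮ℒ (k : ℤ), qExpansion 1 f = Hm_Psi ℂ k (Φ f) := by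
    intro f
    rw [hq, Hm_Psi_apply]
  have hk12 : ∀ _ : Fin (dd k - 1), 12 ≤ k := by
    intro j
    have h1 := j.2
    have h2 := dd_le k
    omega
  have hTf : ∀ (j : Fin (dd k - 1)) (f : CuspForm 𝒮ℒ (k : ℤ)), Φ f = Pi.single j 1 →
      PowerSeries.map (Int.castRingHom ℂ) (H2 ℤ k (bas ℤ k ((j : ℕ) + 1))) =
        qExpansion 1 (T f) := by
    intro j f hf
    have hkj := hk12 j
    have hqf : qExpansion 1 f = bas ℂ k ((j : ℕ) + 1) := by
      rw [hq, hf, Finset.sum_eq_single j]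
      · rw [Pi.single_eq_same, one_smul]
      · intro i _ hi
        rw [Pi.single_eq_of_ne hi, zero_smul]
      · intro h
        exact absurd (Finset.mem_univ j) h
    have h2 : (2 : ℂ) ^ ((k : ℤ) - 1) = (2 : ℂ) ^ (k - 1) := by
      have h3 : (k : ℤ) - 1 = ((k - 1 : ℕ) : ℤ) := by omega
      rw [h3, zpow_natCast]
    ext m
    rw [map_H2, map_bas, coeff_H2, hecke_q hT f m, hqf, h2]
  have hW : ∀ j : Fin (dd k - 1), ∃ c : Fin (dd k - 1) → ℤ,
      H2 ℤ k (bas ℤ k ((j : ℕ) + 1)) = Hm_Psi ℤ k c := by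
    intro j
    obtain ⟨f, hf⟩ := hΦ.2 (Pi.single j 1)
    apply Hm_Psi_ex
    · exact form_descend (Int.castRingHom ℂ) Int.cast_injective
        (CuspForm.toModularFormₗ (T f)) (hTf j f hf)
    · rw [coeff_H2, Nat.mul_zero, Nat.zero_div, if_pos (dvd_zero 2), coeff_bas_lt (Nat.succ_pos _),
        mul_zero, add_zero]
  choose c hc using hW
  let e : CuspForm 𝒮ℒ (k : ℤ) ≃ₗ[ℂ] (Fin (dd k - 1) → ℂ) := LinearEquiv.ofBijective Φ hΦ
  have he : ∀ f, e f = Φ f := fun _ => rfl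
  refine ⟨Matrix.of fun i j => c j i, ?_, ?_⟩
  · have hlin : e.conj T =
        Matrix.toLin' ((Matrix.of fun i j => c j i).map (Int.castRingHom ℂ)) := by
      apply (Pi.basisFun ℂ (Fin (dd k - 1))).ext
      intro j
      rw [Pi.basisFun_apply, LinearEquiv.conj_apply_apply, he,
        Matrix.toLin'_apply, Matrix.mulVec_single_one]
      have hf : Φ (e.symm (Pi.single j 1)) = Pi.single j 1 := by
        rw [← he, LinearEquiv.apply_symm_apply]
      apply Hm_Psi_inj ℂ k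
      rw [← hq', ← hTf j _ hf, hc, Hm_Psi_map]
      rfl
    rw [← LinearEquiv.charpoly_conj e T, hlin, Matrix.charpoly_toLin', ← Matrix.charpoly_map]
  · intro j
    rw [hc, Hm_Psi_apply]
    rfl

end Pool.Agent.Lib.MP_06b9d2_gr
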