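import Pool.Agent.Lib.MP_06b9d2_gr.ZC

/-!
Module GR-Ins. Infinitely many primes of `L` do not have two primes of the same norm above them in `L'`.

Suppose not: every nonzero prime `q ∉ S` has two distinct primes `Q1 q`, `Q2 q` of `L'` above it with the norm `N q`. By `low_primes` for `L`: `P` with `log (1 / (s - 1)) - C ≤ ∑_{q ∈ P} N q ^ (-s)`; the `q ∈ S` contribute at most `#S` (`N q ^ (-s) ≤ 1`). The set `P' = ⋃_{q ∈ P, q ∉ S} {Q1 q, Q2 q}` is a finite set of nonzero primes of `L'` (all distinct: `comap Q_i q = q`) with `∑_{P'} N ^ (-s) = 2 ∑_{q ∈ P, q ∉ S} N q ^ (-s)`, and `zeta_primes` (`WF/NZeta.lean`) for `L'` bounds it by `log (1 / (s - 1)) + C'`. So `log (1 / (s - 1)) ≤ 2 C + 2 #S + C'` for all `1 < s ≤ 2`, false for `s → 1`.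
-/

namespace Pool.Agent.Lib.MP_06b9d2_gr

open NumberField

theorem ins (L L' : Type*) [Field L] [NumberField L] [Field L'] [NumberField L'] [Algebra L L']
    (S : Set (Ideal (𝓞 L))) (hS : S.Finite) :
    ∃ q : Ideal (𝓞 L), q.IsPrime ∧ q ≠ ⊥ ∧ q ∉ S ∧
      ¬ ∃ Q1 Q2 : Ideal (𝓞 L'), Q1.IsPrime ∧ Q2.IsPrime ∧ Q1 ≠ Q2 ∧
        Ideal.comap (algebraMap (𝓞 L) (𝓞 L')) Q1 = q ∧ Ideal.comap (algebraMap (𝓞 L) (𝓞 L')) Q2 = q ∧
        Ideal.absNorm Q1 = Ideal.absNorm q ∧ Ideal.absNorm Q2 = Ideal.absNorm q := by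
  classical
  by_contra hcon
  push Not at hcon
  have hc : ∀ q : Ideal (𝓞 L), q.IsPrime ∧ q ≠ ⊥ ∧ q ∉ S →
      ∃ Q1 Q2 : Ideal (𝓞 L'), Q1.IsPrime ∧ Q2.IsPrime ∧ Q1 ≠ Q2 ∧
        Ideal.comap (algebraMap (𝓞 L) (𝓞 L')) Q1 = q ∧ Ideal.comap (algebraMap (𝓞 L) (𝓞 L')) Q2 = q ∧
        Ideal.absNorm Q1 = Ideal.absNorm q ∧ Ideal.absNorm Q2 = Ideal.absNorm q :=
    fun q hq => hcon q hq.1 hq.2.1 hq.2.2
  choose! Q1 Q2 hQ using hc
  obtain ⟨C, hC⟩ := low_primes L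
  obtain ⟨C', -, hC'⟩ := MP_4a73e4_nt.WF.zeta_primes L'
  have key : ∀ s : ℝ, s ∈ Set.Ioc (1:ℝ) 2 →
      Real.log (1 / (s - 1)) ≤ 2 * C + C' + 2 * (hS.toFinset.card : ℝ) := by
    intro s hs
    obtain ⟨P, hP, hPs⟩ := hC s hs
    have hP0 : ∀ q ∈ P.filter (fun q => q ∉ S), q.IsPrime ∧ q ≠ ⊥ ∧ q ∉ S := by
      intro q hq
      rw [Finset.mem_filter] at hq
      exact ⟨(hP q hq.1).1, (hP q hq.1).2, hq.2⟩
    have hpos : ∀ q ∈ P, (1:ℝ) ≤ (Ideal.absNorm q : ℝ) := by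
      intro q hq
      have h1 : Ideal.absNorm q ≠ 0 := by
        rw [Ne, Ideal.absNorm_eq_zero_iff]
        exact (hP q hq).2
      exact_mod_cast Nat.one_le_iff_ne_zero.2 h1
    have hi1 : Set.InjOn Q1 (P.filter fun q => q ∉ S) := by
      intro q hq q' hq' he
      have h1 := (hQ q (hP0 q hq)).2.2.2.1
      have h2 := (hQ q' (hP0 q' hq')).2.2.2.1
      rw [← h1, ← h2, he]
    have hi2 : Set.InjOn Q2 (P.filter fun q => q ∉ S) := by
      intro q hq q' hq' he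
      have h1 := (hQ q (hP0 q hq)).2.2.2.2.1
      have h2 := (hQ q' (hP0 q' hq')).2.2.2.2.1
      rw [← h1, ← h2, he]
    have hdisj : Disjoint ((P.filter fun q => q ∉ S).image Q1) ((P.filter fun q => q ∉ S).image Q2) := by
      rw [Finset.disjoint_left]
      intro Q h1 h2
      obtain ⟨q, hq, rfl⟩ := Finset.mem_image.1 h1
      obtain ⟨q', hq', he⟩ := Finset.mem_image.1 h2
      have h3 := (hQ q (hP0 q hq)).2.2.2.1
      have h4 := (hQ q' (hP0 q' hq')).2.2.2.2.1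
      rw [he, h3] at h4
      subst h4
      exact (hQ q (hP0 q hq)).2.2.1 he.symm
    have h5 := hC' s hs ((P.filter fun q => q ∉ S).image Q1 ∪ (P.filter fun q => q ∉ S).image Q2) (by
      intro Q hQm
      have hne : ∀ (q : Ideal (𝓞 L)) (Q : Ideal (𝓞 L')), q ≠ ⊥ → Ideal.absNorm Q = Ideal.absNorm q → Q ≠ ⊥ := by
        rintro q Q hq he rfl
        rw [Ideal.absNorm_bot] at he
        exact hq (Ideal.absNorm_eq_zero_iff.1 he.symm)
      rw [Finset.mem_union] at hQm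
      rcases hQm with h1 | h1
      · obtain ⟨q, hq, rfl⟩ := Finset.mem_image.1 h1
        have h2 := hQ q (hP0 q hq)
        exact ⟨h2.1, hne q _ (hP0 q hq).2.1 h2.2.2.2.2.2.1⟩
      · obtain ⟨q, hq, rfl⟩ := Finset.mem_image.1 h1
        have h2 := hQ q (hP0 q hq)
        exact ⟨h2.2.1, hne q _ (hP0 q hq).2.1 h2.2.2.2.2.2.2⟩)
    rw [Finset.sum_union hdisj, Finset.sum_image hi1, Finset.sum_image hi2] at h5
    have h6 : ∀ q ∈ P.filter (fun q => q ∉ S), (Ideal.absNorm (Q1 q) : ℝ) ^ (-s) = (Ideal.absNorm q : ℝ) ^ (-s) :=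
      fun q hq => by rw [(hQ q (hP0 q hq)).2.2.2.2.2.1]
    have h7 : ∀ q ∈ P.filter (fun q => q ∉ S), (Ideal.absNorm (Q2 q) : ℝ) ^ (-s) = (Ideal.absNorm q : ℝ) ^ (-s) :=
      fun q hq => by rw [(hQ q (hP0 q hq)).2.2.2.2.2.2]
    rw [Finset.sum_congr rfl h6, Finset.sum_congr rfl h7] at h5
    have h8 : ∑ q ∈ P, (Ideal.absNorm q : ℝ) ^ (-s) =
        ∑ q ∈ P.filter (fun q => q ∉ S), (Ideal.absNorm q : ℝ) ^ (-s) +
        ∑ q ∈ P.filter (fun q => ¬ (q ∉ S)), (Ideal.absNorm q : ℝ) ^ (-s) :=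
      (Finset.sum_filter_add_sum_filter_not P _ _).symm
    have h9 : ∑ q ∈ P.filter (fun q => ¬ (q ∉ S)), (Ideal.absNorm q : ℝ) ^ (-s) ≤ (hS.toFinset.card : ℝ) := by
      calc ∑ q ∈ P.filter (fun q => ¬ (q ∉ S)), (Ideal.absNorm q : ℝ) ^ (-s)
          ≤ ∑ q ∈ P.filter (fun q => ¬ (q ∉ S)), (1:ℝ) := by
            refine Finset.sum_le_sum fun q hq => ?_
            exact Real.rpow_le_one_of_one_le_of_nonpos (hpos q (Finset.mem_filter.1 hq).1) (by linarith [hs.1])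
        _ = ((P.filter (fun q => ¬ (q ∉ S))).card : ℝ) := by simp
        _ ≤ (hS.toFinset.card : ℝ) := by
            refine Nat.cast_le.2 (Finset.card_le_card fun q hq => ?_)
            rw [Set.Finite.mem_toFinset]
            exact not_not.1 (Finset.mem_filter.1 hq).2
    linarith
  set B : ℝ := 2 * C + C' + 2 * (hS.toFinset.card : ℝ) with hB
  have h1 := key (1 + Real.exp (-(|B| + 1))) (by
    constructor
    · have := Real.exp_pos (-(|B| + 1))
      linarith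
    · have h2 : Real.exp (-(|B| + 1)) ≤ 1 := by
        rw [Real.exp_le_one_iff]
        have := abs_nonneg B
        linarith
      linarith)
  have h2 : Real.log (1 / (1 + Real.exp (-(|B| + 1)) - 1)) = |B| + 1 := by
    rw [add_sub_cancel_left, one_div, Real.log_inv, Real.log_exp, neg_neg]
  rw [h2] at h1
  have := le_abs_self B
  linarith

end Pool.Agent.Lib.MP_06b9d2_gr
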