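import Pool.Agent.Lib.MP_06b9d2_gr.CyD

/-!
Module GX-Lft. A Frobenius element of the Galois group and the roots modulo `p` (pure algebra).

`P = F.map ℚ`, `L = P.SplittingField` (a number field, Galois over `ℚ`), `P.Gal = (L ≃ₐ[ℚ] L)`. The roots `α_i ∈ 𝓞 L` of `F` (`F` monic; `F.map = ∏ (X - α_i)` over `𝓞 L`, all simple by `hsq`: `L → ℂ`). Let `Q` be a prime of `𝓞 L` above `p`, `k = 𝓞 L / Q` (finite), `ι : k →ₐ[ZMod p] AlgebraicClosure (ZMod p)`. There is `σ : P.Gal` with `σ y - y ^ p ∈ Q` for all `y ∈ 𝓞 L` (as in `Frb.lean`, which has the case `p = 2`: `AlgHom.IsArithFrobAt`, `exists_of_isInvariant`). Modulo `Q`, `F = ∏ (X - ι (α_i mod Q))` in `AlgebraicClosure (ZMod p)`, so for every `μ'` the number of `i` with `ι (α_i mod Q) = μ'` is the multiplicity of `μ'`; if `μ' = μ ^ (p ^ s)` it is the same as for `μ` (`F` has coefficients in `ZMod p`: `Polynomial.rootMultiplicity` is invariant under `frobenius ^ s`; the `μ ^ (p ^ s)`, `s < d = natDegree (minpoly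 μ)` are distinct). If `σ ^ j` fixes such an `α_i` then `μ' ^ (p ^ j) = μ'`, so `d ∣ j`.
-/

namespace Pool.Agent.Lib.MP_06b9d2_gr

open Polynomial NumberField

private theorem dvd_of_pow {p : ℕ} [Fact p.Prime] (μ : AlgebraicClosure (ZMod p)) (j : ℕ)
    (h : μ ^ (p ^ j) = μ) : (minpoly (ZMod p) μ).natDegree ∣ j := by
  have hint : IsIntegral (ZMod p) μ := (AlgebraicClosure.isAlgebraic (ZMod p)).isIntegral.isIntegral μ
  have hirr := minpoly.irreducible hint
  refine hirr.natDegree_dvd_of_dvd_X_pow_card_pow_sub_X (k := ZMod p) ?_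
  rw [Nat.card_zmod]
  refine minpoly.dvd _ _ ?_
  rw [map_sub, map_pow, aeval_X, h, sub_self]

private theorem ex_hom (L : Type) [Field L] [NumberField L] (p : ℕ) [Fact p.Prime] :
    ∃ (Q : Ideal (𝓞 L)) (ψ : 𝓞 L →+* AlgebraicClosure (ZMod p)), Q.IsMaximal ∧
      (p : 𝓞 L) ∈ Q ∧ ∀ y ∈ Q, ψ y = 0 := by
  have hp : p.Prime := Fact.out
  have hmax : (Ideal.span {(p : ℤ)}).IsMaximal :=
    PrincipalIdealRing.isMaximal_of_irreducible (Nat.prime_iff_prime_int.1 hp).irreducible
  obtain ⟨Q, hQ, hover⟩ := Ideal.exists_maximal_ideal_liesOver_of_isIntegral (Ideal.span {(p : ℤ)}) (S := 𝓞 L)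
  have hpQ : (p : 𝓞 L) ∈ Q := by
    have h1 : (p : ℤ) ∈ Q.under ℤ := by
      rw [← hover.over]
      exact Ideal.mem_span_singleton_self _
    rw [Ideal.mem_comap, map_natCast] at h1
    exact h1
  let _ : Field (𝓞 L ⧸ Q) := Ideal.Quotient.field Q
  have hchar : CharP (𝓞 L ⧸ Q) p := by
    have h1 : ((p : ℕ) : 𝓞 L ⧸ Q) = 0 := by
      rw [← map_natCast (Ideal.Quotient.mk Q)]
      exact Ideal.Quotient.eq_zero_iff_mem.2 hpQ
    obtain ⟨r, hr⟩ := CharP.exists (𝓞 L ⧸ Q)
    have h2 := (CharP.cast_eq_zero_iff (𝓞 L ⧸ Q) r p).1 h1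
    rcases (Nat.dvd_prime hp).1 h2 with h3 | h3
    · exact absurd h3 (CharP.char_ne_one (𝓞 L ⧸ Q) r)
    · rw [← h3]
      exact hr
  have hb : Q ≠ ⊥ := by
    intro h
    rw [h, Ideal.mem_bot] at hpQ
    exact hp.ne_zero (by exact_mod_cast hpQ)
  have hfin : Finite (𝓞 L ⧸ Q) := Ideal.finiteQuotientOfFreeOfNeBot _ hb
  let _ : Algebra (ZMod p) (𝓞 L ⧸ Q) := ZMod.algebra _ p
  have hmf : Module.Finite (ZMod p) (𝓞 L ⧸ Q) := Module.Finite.of_finite
  have halg : Algebra.IsAlgebraic (ZMod p) (𝓞 L ⧸ Q) := Algebra.IsAlgebraic.of_finite _ _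
  let g : (𝓞 L ⧸ Q) →ₐ[ZMod p] AlgebraicClosure (ZMod p) := IsAlgClosed.lift
  refine ⟨Q, g.toRingHom.comp (Ideal.Quotient.mk Q), hQ, hpQ, fun y hy => ?_⟩
  rw [RingHom.comp_apply, Ideal.Quotient.eq_zero_iff_mem.2 hy, map_zero]

private theorem ex_frob (L : Type) [Field L] [NumberField L] [IsGalois ℚ L] (p : ℕ) [Fact p.Prime] :
    ∃ (ψ : 𝓞 L →+* AlgebraicClosure (ZMod p)) (σ : L ≃ₐ[ℚ] L) (s : 𝓞 L → 𝓞 L),
      (∀ y, ψ (s y) = ψ y ^ p) ∧ ∀ y, σ (algebraMap (𝓞 L) L y) = algebraMap (𝓞 L) L (s y) := by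
  have hp : p.Prime := Fact.out
  obtain ⟨Q, ψ, hQ, hpQ, hψ⟩ := ex_hom L p
  have hb : Q ≠ ⊥ := by
    intro h
    rw [h, Ideal.mem_bot] at hpQ
    exact hp.ne_zero (by exact_mod_cast hpQ)
  have hfin : Finite (𝓞 L ⧸ Q) := Ideal.finiteQuotientOfFreeOfNeBot _ hb
  have hinv : Algebra.IsInvariant ℤ (𝓞 L) (𝓞 L ≃ₐ[ℤ] 𝓞 L) := Algebra.isInvariant_of_isGalois' ℤ ℚ L (𝓞 L)
  have hfing : Finite (𝓞 L ≃ₐ[ℤ] 𝓞 L) := Finite.of_equiv _ (galRestrict ℤ ℚ L (𝓞 L)).toEquiv
  have hQp : Q.IsPrime := hQ.isPrime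
  obtain ⟨s, hs⟩ := IsArithFrobAt.exists_of_isInvariant ℤ (𝓞 L ≃ₐ[ℤ] 𝓞 L) Q
  have hcard : Nat.card (ℤ ⧸ Q.under ℤ) = p := by
    have h1 : Ideal.span {(p : ℤ)} ≤ Q.under ℤ := by
      rw [Ideal.span_singleton_le_iff_mem, Ideal.mem_comap, map_natCast]
      exact hpQ
    have h2 : (Ideal.span {(p : ℤ)}).IsMaximal :=
      PrincipalIdealRing.isMaximal_of_irreducible (Nat.prime_iff_prime_int.1 hp).irreducible
    have h3 : Ideal.span {(p : ℤ)} = Q.under ℤ := h2.eq_of_le (hQp.under ℤ).ne_top h1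
    rw [← h3, Int.card_ideal_quot]
  refine ⟨ψ, (galRestrict ℤ ℚ L (𝓞 L)).symm s, fun y => s y, fun y => ?_, fun y => ?_⟩
  · have h := hs y
    rw [hcard] at h
    have h2 := hψ _ h
    rw [map_sub, map_pow] at h2
    exact sub_eq_zero.1 h2
  · rw [galRestrict_symm_algebraMap_apply]

private theorem frob_inj {p : ℕ} [Fact p.Prime] (i : ℕ) {x y : AlgebraicClosure (ZMod p)}
    (h : x ^ (p ^ i) = y ^ (p ^ i)) : x = y := by
  have h1 := iterateFrobenius_inj (AlgebraicClosure (ZMod p)) p i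
  refine h1 ?_
  rw [iterateFrobenius_def, iterateFrobenius_def, h]

private theorem lift_ms (L : Type) [Field L] [NumberField L] (R : Multiset L) :
    (∀ x ∈ R, IsIntegral ℤ x) → ∃ M : Multiset (𝓞 L), M.map (algebraMap (𝓞 L) L) = R := by
  induction R using Multiset.induction with
  | empty => exact fun _ => ⟨0, Multiset.map_zero _⟩
  | cons x R ih =>
    intro h
    obtain ⟨M, hM⟩ := ih (fun y hy => h y (Multiset.mem_cons_of_mem hy))
    obtain ⟨a, ha⟩ := (IsIntegralClosure.isIntegral_iff (A := 𝓞 L)).1 (h x (Multiset.mem_cons_self x R))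
    exact ⟨a ::ₘ M, by rw [Multiset.map_cons, hM, ha]⟩

private theorem gal_inst {K : Type} [Field K] (P : K[X]) (hsep : P.Separable) :
    IsGalois K P.SplittingField := IsGalois.of_separable_splitting_field hsep

private theorem fd_inst {K : Type} [Field K] (P : K[X]) : FiniteDimensional K P.SplittingField :=
  inferInstance

private theorem main_aux (L : Type) [Field L] [NumberField L] [IsGalois ℚ L] {p : ℕ} [Fact p.Prime]
    (F : ℤ[X]) (hF : F.Monic) (hsplit : (F.map (Int.castRingHom L)).Splits)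
    (hnd : (F.map (Int.castRingHom L)).roots.Nodup) (μ : AlgebraicClosure (ZMod p)) :
    ∃ σ : L ≃ₐ[ℚ] L, (minpoly (ZMod p) μ).natDegree *
          (F.map (Int.castRingHom (AlgebraicClosure (ZMod p)))).rootMultiplicity μ ≤
      Set.ncard {α : L | (F.map (Int.castRingHom L)).IsRoot α ∧ ∀ j : ℕ, (σ ^ j) α = α →
        (minpoly (ZMod p) μ).natDegree ∣ j} := by
  classical
  obtain ⟨ψ, σ, s, hs, hσ⟩ := ex_frob L p
  obtain ⟨d, hd⟩ : ∃ d, d = (minpoly (ZMod p) μ).natDegree := ⟨_, rfl⟩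
  have hinj : Function.Injective (algebraMap (𝓞 L) L) := FaithfulSMul.algebraMap_injective (𝓞 L) L
  -- the roots in `𝓞 L`
  obtain ⟨M, hM⟩ : ∃ M : Multiset (𝓞 L), M.map (algebraMap (𝓞 L) L) = (F.map (Int.castRingHom L)).roots := by
    have H : ∀ x ∈ (F.map (Int.castRingHom L)).roots, IsIntegral ℤ x := by
      intro x hx
      refine ⟨F, hF, ?_⟩
      have h1 := (mem_roots'.1 hx).2
      rw [IsRoot, eval_map] at h1
      exact h1
    exact lift_ms L _ H
  have hMn : M.Nodup := Multiset.Nodup.of_map (algebraMap (𝓞 L) L) (by rw [hM]; exact hnd)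
  have hFO : F.map (Int.castRingHom (𝓞 L)) = (M.map (fun a => X - C a)).prod := by
    apply Polynomial.map_injective (algebraMap (𝓞 L) L) hinj
    rw [Polynomial.map_map, Polynomial.map_multiset_prod, Multiset.map_map]
    have h1 : (algebraMap (𝓞 L) L).comp (Int.castRingHom (𝓞 L)) = Int.castRingHom L :=
      RingHom.ext_int _ _
    rw [h1, hsplit.eq_prod_roots_of_monic (hF.map _), ← hM, Multiset.map_map]
    refine congrArg Multiset.prod (Multiset.map_congr rfl (fun a _ => ?_))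
    simp
  have hFr : (F.map (Int.castRingHom (AlgebraicClosure (ZMod p)))).roots = M.map ψ := by
    have h1 : F.map (Int.castRingHom (AlgebraicClosure (ZMod p))) = (F.map (Int.castRingHom (𝓞 L))).map ψ := by
      rw [Polynomial.map_map]
      congr 1
      exact RingHom.ext_int _ _
    have h2 : (F.map (Int.castRingHom (𝓞 L))).map ψ = ((M.map ψ).map (fun a => X - C a)).prod := by
      rw [hFO, Polynomial.map_multiset_prod, Multiset.map_map, Multiset.map_map]
      refine congrArg Multiset.prod (Multiset.map_congr rfl (fun a _ => ?_))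
      simp
    rw [h1, h2, roots_multiset_prod_X_sub_C]
  -- the multiplicities
  have hmul : ∀ i : ℕ, (F.map (Int.castRingHom (AlgebraicClosure (ZMod p)))).rootMultiplicity (μ ^ (p ^ i)) =
      (F.map (Int.castRingHom (AlgebraicClosure (ZMod p)))).rootMultiplicity μ := by
    intro i
    have h1 := eq_rootMultiplicity_map (p := F.map (Int.castRingHom (AlgebraicClosure (ZMod p))))
      (iterateFrobenius_inj (AlgebraicClosure (ZMod p)) p i) μ
    rw [Polynomial.map_map] at h1
    have h2 : (iterateFrobenius (AlgebraicClosure (ZMod p)) p i).comp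
        (Int.castRingHom (AlgebraicClosure (ZMod p))) = Int.castRingHom (AlgebraicClosure (ZMod p)) :=
      RingHom.ext_int _ _
    rw [h2, iterateFrobenius_def] at h1
    exact h1.symm
  obtain ⟨T, hT⟩ : ∃ T : ℕ → Finset (𝓞 L), ∀ i, T i = (M.filter (fun a => μ ^ (p ^ i) = ψ a)).toFinset :=
    ⟨_, fun i => rfl⟩
  have hTc : ∀ i, (T i).card = (F.map (Int.castRingHom (AlgebraicClosure (ZMod p)))).rootMultiplicity μ := by
    intro i
    rw [← hmul i, ← count_roots, hFr, Multiset.count_map, hT i,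
      Multiset.toFinset_card_of_nodup (hMn.filter _)]
  have hTm : ∀ i a, a ∈ T i → a ∈ M ∧ ψ a = μ ^ (p ^ i) := by
    intro i a ha
    rw [hT i, Multiset.mem_toFinset, Multiset.mem_filter] at ha
    exact ⟨ha.1, ha.2.symm⟩
  have hdisj : (Finset.range d : Set ℕ).PairwiseDisjoint T := by
    have key : ∀ i j : ℕ, i < j → j < d → Disjoint (T i) (T j) := by
      intro i j hij hjd
      rw [Finset.disjoint_left]
      intro a ha hb
      have h1 := (hTm i a ha).2
      have h2 := (hTm j a hb).2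
      rw [h1] at h2
      have h3 : μ ^ (p ^ j) = (μ ^ (p ^ (j - i))) ^ (p ^ i) := by
        rw [← pow_mul, ← pow_add]
        congr 2
        omega
      rw [h3] at h2
      have h4 := dvd_of_pow μ (j - i) (frob_inj i h2).symm
      rw [← hd] at h4
      have h5 := Nat.le_of_dvd (by omega) h4
      omega
    intro i hi j hj hij
    have hi' := Finset.mem_range.1 (Finset.mem_coe.1 hi)
    have hj' := Finset.mem_range.1 (Finset.mem_coe.1 hj)
    rcases Nat.lt_or_gt_of_ne hij with h | h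
    · exact key i j h hj'
    · exact (key j i h hi').symm
  have hUc : ((Finset.range d).biUnion T).card =
      d * (F.map (Int.castRingHom (AlgebraicClosure (ZMod p)))).rootMultiplicity μ := by
    rw [Finset.card_biUnion hdisj, Finset.sum_congr rfl (fun i _ => hTc i), Finset.sum_const,
      Finset.card_range, smul_eq_mul]
  -- the powers of `σ`
  have hpow : ∀ (j : ℕ) (a : 𝓞 L), ∃ b : 𝓞 L, (σ ^ j) (algebraMap (𝓞 L) L a) = algebraMap (𝓞 L) L b ∧
      ψ b = ψ a ^ (p ^ j) := by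
    intro j
    induction j with
    | zero =>
      intro a
      refine ⟨a, ?_, ?_⟩
      · rw [pow_zero, AlgEquiv.one_apply]
      · rw [pow_zero, pow_one]
    | succ j ih =>
      intro a
      obtain ⟨b, hb1, hb2⟩ := ih a
      refine ⟨s b, ?_, ?_⟩
      · rw [pow_succ', AlgEquiv.mul_apply, hb1, hσ]
      · rw [hs, hb2, ← pow_mul, ← pow_succ]
  refine ⟨σ, ?_⟩
  rw [← hd, ← hUc, ← Finset.card_image_of_injective _ hinj, ← Set.ncard_coe_finset]
  refine Set.ncard_le_ncard ?_ ?_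
  · intro x hx
    rw [Finset.mem_coe, Finset.mem_image] at hx
    obtain ⟨a, ha, rfl⟩ := hx
    rw [Finset.mem_biUnion] at ha
    obtain ⟨i, _, hai⟩ := ha
    obtain ⟨haM, hψa⟩ := hTm i a hai
    refine ⟨?_, fun j hj => ?_⟩
    · have h1 : algebraMap (𝓞 L) L a ∈ (F.map (Int.castRingHom L)).roots := by
        rw [← hM]
        exact Multiset.mem_map_of_mem _ haM
      exact (mem_roots'.1 h1).2
    · obtain ⟨b, hb1, hb2⟩ := hpow j a
      rw [hb1] at hj
      have h1 := hinj hj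
      rw [h1, hψa] at hb2
      rw [hd]
      refine dvd_of_pow μ j (frob_inj i ?_)
      rw [← pow_mul, mul_comm, pow_mul]
      exact hb2.symm
  · have h0 : F.map (Int.castRingHom L) ≠ 0 := (hF.map _).ne_zero
    refine ((F.map (Int.castRingHom L)).roots.toFinset.finite_toSet).subset ?_
    intro x hx
    rw [Finset.mem_coe, Multiset.mem_toFinset, mem_roots h0]
    exact hx.1

private theorem lft_gen (L : Type) [Field L] [alg : Algebra ℚ L] [FiniteDimensional ℚ L] [IsGalois ℚ L]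
    {p : ℕ} [Fact p.Prime] (F : ℤ[X]) (hF : F.Monic) (hsplit : (F.map (Int.castRingHom L)).Splits)
    (hnd : (F.map (Int.castRingHom L)).roots.Nodup) (μ : AlgebraicClosure (ZMod p)) :
    ∃ σ : L ≃ₐ[ℚ] L, (minpoly (ZMod p) μ).natDegree *
          (F.map (Int.castRingHom (AlgebraicClosure (ZMod p)))).rootMultiplicity μ ≤
      Set.ncard {α : L | (F.map (Int.castRingHom L)).IsRoot α ∧ ∀ j : ℕ, (σ ^ j) α = α →
        (minpoly (ZMod p) μ).natDegree ∣ j} := by
  have hc : CharZero L := algebraRat.charZero L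
  obtain rfl : alg = DivisionRing.toRatAlgebra := Subsingleton.elim _ _
  have hN : NumberField L := { to_charZero := hc, to_finiteDimensional := inferInstance }
  exact main_aux L F hF hsplit hnd μ

theorem lft {p : ℕ} [Fact p.Prime] (F : Polynomial ℤ) (hF : F.Monic)
    (hsq : (F.map (Int.castRingHom ℂ)).roots.Nodup) (μ : AlgebraicClosure (ZMod p)) :
    ∃ σ : (F.map (Int.castRingHom ℚ)).Gal,
      (minpoly (ZMod p) μ).natDegree *
          (F.map (Int.castRingHom (AlgebraicClosure (ZMod p)))).rootMultiplicity μ ≤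
        Cy (F.map (Int.castRingHom ℚ)) σ (minpoly (ZMod p) μ).natDegree := by
  have hsep : (F.map (Int.castRingHom ℚ)).Separable := by
    have h1 : (F.map (Int.castRingHom ℂ)).Separable :=
      (nodup_roots_iff_of_splits (hF.map _).ne_zero (IsAlgClosed.splits _)).1 hsq
    have h2 : F.map (Int.castRingHom ℂ) = (F.map (Int.castRingHom ℚ)).map (algebraMap ℚ ℂ) := by
      rw [Polynomial.map_map]
      congr 1
    rw [h2, separable_map] at h1
    exact h1
  obtain ⟨P, hP⟩ : ∃ P : ℚ[X], P = F.map (Int.castRingHom ℚ) := ⟨_, rfl⟩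
  rw [← hP] at hsep ⊢
  have key : ∀ (R : Type) [CommRing R] (i : ℚ →+* R), P.map i = F.map (Int.castRingHom R) := by
    intro R _ i
    rw [hP, Polynomial.map_map]
    exact congrArg (fun g => F.map g) (RingHom.ext_int _ _)
  have hm := key P.SplittingField
  have hsp : (F.map (Int.castRingHom P.SplittingField)).Splits := by
    have h1 := SplittingField.splits P
    rw [hm] at h1
    exact h1
  have hnd : (F.map (Int.castRingHom P.SplittingField)).roots.Nodup := by
    refine nodup_roots ?_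
    rw [← hm (algebraMap ℚ P.SplittingField)]
    exact hsep.map
  obtain ⟨σ, hσ⟩ := @lft_gen P.SplittingField _ _ (fd_inst P) (gal_inst P hsep) p _ F hF hsp hnd μ
  refine ⟨σ, hσ.trans (le_of_eq ?_)⟩
  unfold Cy
  refine congrArg Set.ncard (Set.ext fun α => and_congr ?_ Iff.rfl)
  rw [IsRoot.def, aeval_def, ← eval_map, hm]

end Pool.Agent.Lib.MP_06b9d2_gr
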