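import Pool.Agent.Lib.MP_06b9d2_gr.Defs
import Pool.Agent.Lib.L1.Cong

/-!
Module GR-PA. Multiplication by `E_(p-1) = 1` and by `E_(p+1) = E_2` modulo `p`.

`red_mz`: `MZ p w g` means `g` is the image of an element of `ML (Zl p) w`; reduce it by the ring homomorphism `Zl p → ZMod p → K` (`map_mem_ML`); as `Cg p g a` the reduction is the reduction of `a` (a rational number `x` with `val p x 1` has the reduction `0`; see `GR-Tht`, which has such an argument). `one_mem`: `EA_mem`, `EA_cg`; `e2_mem`: `EB_mem`, `EB_cg`, `e2 ℚ` is the image of `E2z`. The others: `mul_mem_ML`, and the constant coefficient of a product is the product of the constant coefficients.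
-/

namespace Pool.Agent.Lib.MP_06b9d2_gr

open UpperHalfPlane Pool.Agent.L1 Pool.Agent.Lib.MP_06b9d2_nt
open scoped MatrixGroups ModularForm

private theorem pa_cast {p : ℕ} [Fact p.Prime] (K : Type) [Field K] [Algebra (ZMod p) K] (n : ℕ) :
    (n : K) = 0 ↔ p ∣ n := by
  rw [← map_natCast (algebraMap (ZMod p) K), map_eq_zero, ZMod.natCast_eq_zero_iff]

private theorem pa_den {p : ℕ} [Fact p.Prime] (K : Type) [Field K] [Algebra (ZMod p) K] {x : ℚ}
    (h : MP_a3a416_nt.SJ.val p x 0) : ((x.den : ℕ) : K) ≠ 0 := by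
  intro h0
  rw [pa_cast (p := p)] at h0
  rcases h with h | h
  · rw [h] at h0
    have h1 : p = 1 := by simpa using h0
    exact (Fact.out : p.Prime).one_lt.ne' h1
  · have h1 : padicValRat p x = (padicValInt p x.num : ℤ) - (padicValNat p x.den : ℤ) := rfl
    have h2 : 1 ≤ padicValNat p x.den := one_le_padicValNat_of_dvd x.den_nz h0
    have h3 : ¬ (p : ℤ) ∣ x.num := by
      intro h3
      have h4 : p ∣ x.num.natAbs := by
        have := Int.natAbs_dvd_natAbs.2 h3
        simpa using this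
      have h5 := Nat.dvd_gcd h4 h0
      rw [x.reduced.gcd_eq_one] at h5
      exact (Fact.out : p.Prime).one_lt.ne' (Nat.dvd_one.1 h5)
    rw [padicValInt.eq_zero_of_not_dvd h3] at h1
    omega

private theorem pa_zero {p : ℕ} [Fact p.Prime] (K : Type) [Field K] [Algebra (ZMod p) K] {x : ℚ}
    (h : MP_a3a416_nt.SJ.val p x 1) : ((x : ℚ) : K) = 0 := by
  rcases h with h | h
  · rw [h, Rat.cast_zero]
  · have h3 : (p : ℤ) ∣ x.num := by
      by_contra h3
      have h1 : padicValRat p x = (padicValInt p x.num : ℤ) - (padicValNat p x.den : ℤ) := rfl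
      rw [padicValInt.eq_zero_of_not_dvd h3] at h1
      omega
    have h4 : ((x.num : ℤ) : K) = 0 := by
      rw [← map_intCast (algebraMap (ZMod p) K), map_eq_zero, ZMod.intCast_zmod_eq_zero_iff_dvd]
      exact h3
    rw [Rat.cast_def, h4, zero_div]

/-- the reduction -/
private noncomputable def pa_red (p : ℕ) [Fact p.Prime] (K : Type) [Field K] [Algebra (ZMod p) K] :
    Zl p →+* K where
  toFun x := ((x : ℚ) : K)
  map_one' := by simp
  map_zero' := by simp
  map_mul' x y := by
    have := Rat.cast_mul_of_ne_zero (pa_den (p := p) K x.2) (pa_den (p := p) K y.2)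
    simpa using this
  map_add' x y := by
    have := Rat.cast_add_of_ne_zero (pa_den (p := p) K x.2) (pa_den (p := p) K y.2)
    simpa using this

theorem red_mz {p : ℕ} [Fact p.Prime] (K : Type) [Field K] [Algebra (ZMod p) K] {w : ℕ}
    {g : PowerSeries ℚ} (hg : MZ p w g) (a : PowerSeries ℤ)
    (h : Cg p g (PowerSeries.map (Int.castRingHom ℚ) a)) :
    PowerSeries.map (Int.castRingHom K) a ∈ ML K w := by
  obtain ⟨g', hg', rfl⟩ := hg
  have h1 : PowerSeries.map (Int.castRingHom K) a = PowerSeries.map (pa_red p K) g' := by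
    ext n
    have h2 := h n
    rw [PowerSeries.coeff_map, PowerSeries.coeff_map] at h2
    rw [PowerSeries.coeff_map, PowerSeries.coeff_map]
    have h3 : MP_a3a416_nt.SJ.val p (((PowerSeries.coeff n a : ℤ) : ℚ)) 0 :=
      MP_a3a416_nt.SJ.val.int _
    have h4 := Rat.cast_add_of_ne_zero (pa_den (p := p) K (h2.mono (by norm_num : (0 : ℤ) ≤ 1)))
      (pa_den (p := p) K h3)
    rw [eq_intCast, sub_add_cancel] at h4
    show ((PowerSeries.coeff n a : ℤ) : K) = (((PowerSeries.coeff n g' : Zl p) : ℚ) : K)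
    have h5 := pa_zero (p := p) K h2
    rw [eq_intCast] at h5
    rw [h5, zero_add, Rat.cast_intCast] at h4
    exact h4.symm
  rw [h1]
  exact map_mem_ML _ hg'

theorem one_mem {p : ℕ} [Fact p.Prime] (h5 : 5 ≤ p) (K : Type) [Field K] [Algebra (ZMod p) K] :
    (1 : PowerSeries K) ∈ ML K (p - 1) := by
  have h := red_mz K (EA_mem h5) 1 (by rw [map_one]; exact EA_cg (by omega))
  rwa [map_one] at h

theorem e2_mem {p : ℕ} [Fact p.Prime] (h5 : 5 ≤ p) (K : Type) [Field K] [Algebra (ZMod p) K] :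
    e2 K ∈ ML K (p + 1) := red_mz K (EB_mem h5) E2z (EB_cg h5)

theorem SC_le {p : ℕ} [Fact p.Prime] (h5 : 5 ≤ p) (K : Type) [Field K] [Algebra (ZMod p) K]
    (k i : ℕ) : SC K k ≤ SC K (k + i * (p - 1)) := by
  rintro h ⟨h1, h2⟩
  refine ⟨?_, h2⟩
  have h3 := mul_mem_ML h1 (pow_mem_ML (one_mem h5 K) i)
  rwa [one_pow, mul_one] at h3

theorem e2_SC {p : ℕ} [Fact p.Prime] (h5 : 5 ≤ p) (K : Type) [Field K] [Algebra (ZMod p) K]
    (k : ℕ) (h : PowerSeries K) (hh : h ∈ SC K k) : e2 K * h ∈ SC K (k + (p + 1)) := by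
  obtain ⟨h1, h2⟩ := hh
  have h2' : PowerSeries.coeff 0 h = 0 := h2
  refine ⟨?_, ?_⟩
  · rw [mul_comm]
    exact mul_mem_ML h1 (e2_mem h5 K)
  · show PowerSeries.coeff 0 (e2 K * h) = 0
    rw [PowerSeries.coeff_zero_eq_constantCoeff_apply] at h2' ⊢
    rw [map_mul, h2', mul_zero]

end Pool.Agent.Lib.MP_06b9d2_gr
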