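import Pool.Agent.Lib.MP_06b9d2_gr.Defs

/-!
Module GR-PB. Division by `Δ`.

`dl_div`: `mem_ML_iff`: `f = ∑_{j < dd k} c_j • bas R k j`, `c_0` is the constant coefficient (`coeff_bas_self`, `coeff_bas_lt`), so `0`. If `dd k ≤ 1` then `f = 0`. Otherwise `12 + 6 bb k ≤ k`, `bas R k (j + 1) = dl R * bas R (k - 12) j` (`ba k (j + 1) = ba (k - 12) j`, `bb k = bb (k - 12)`), `dd (k - 12) = dd k - 1`. `dl_cancel`: `PowerSeries K` is a domain, the coefficient `1` of `dl K` is `1` (`dl_eq`, or `coeff_bas_self` for `bas K 12 1`).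
-/

namespace Pool.Agent.Lib.MP_06b9d2_gr

open UpperHalfPlane Pool.Agent.L1 Pool.Agent.Lib.MP_06b9d2_nt
open scoped MatrixGroups ModularForm

theorem dl_div (R : Type) [CommRing R] (k : ℕ) (f : PowerSeries R) (hf : f ∈ SC R k) :
    f = 0 ∨ ∃ (j : ℕ) (f' : PowerSeries R), k = j + 12 ∧ f' ∈ ML R j ∧ f = dl R * f' := by
  obtain ⟨h1, h2⟩ := Submodule.mem_inf.1 hf
  rw [LinearMap.mem_ker] at h2
  obtain ⟨c, hc⟩ := mem_ML_iff.mp h1
  rcases Nat.eq_zero_or_pos (dd k) with h0 | h0
  · left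
    refine ML_eq_zero h1 fun n hn => ?_
    omega
  obtain ⟨d, hd⟩ : ∃ d, dd k = d + 1 := ⟨dd k - 1, by omega⟩
  by_cases hd0 : d = 0
  · left
    refine ML_eq_zero h1 fun n hn => ?_
    have : n = 0 := by omega
    rw [this]
    exact h2
  right
  have hk := ba_eq (k := k) (j := 1) (by omega)
  refine ⟨k - 12, ∑ j ∈ Finset.range (dd k), if j = 0 then 0 else
    c j • (dl R ^ (j - 1) * e4 R ^ ba k j * e6 R ^ bb k), by omega, ?_, ?_⟩
  · refine Submodule.sum_mem _ fun j hj0 => ?_
    split_ifs with hj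
    · exact Submodule.zero_mem _
    · refine Submodule.smul_mem _ _ (mono_mem _ _ _ _ ?_)
      have := ba_eq (Finset.mem_range.1 hj0)
      omega
  · have hc0 : c 0 = 0 := by
      rw [hc, map_sum, Finset.sum_eq_single 0] at h2
      · rwa [PowerSeries.coeff_smul, coeff_bas_self, smul_eq_mul, mul_one] at h2
      · intro j _ hj
        rw [PowerSeries.coeff_smul, coeff_bas_lt (by omega), smul_zero]
      · intro h
        exact absurd (Finset.mem_range.2 h0) h
    rw [Finset.mul_sum]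
    refine hc.trans (Finset.sum_congr rfl fun j _ => ?_)
    split_ifs with hj
    · rw [hj, hc0, zero_smul, mul_zero]
    · rw [mul_smul_comm, bas]
      congr 1
      have h4 : dl R ^ j = dl R * dl R ^ (j - 1) := by
        rw [← pow_succ']
        congr 1
        omega
      rw [h4]
      ring

theorem dl_ne (K : Type) [Field K] : dl K ≠ 0 := by
  intro h
  have h1 : PowerSeries.coeff 1 (bas K 12 1) = 1 := coeff_bas_self 12 1
  rw [bas, h] at h1
  simp at h1

theorem dl_cancel (K : Type) [Field K] (f g : PowerSeries K) (h : dl K * f = dl K * g) : f = g :=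
  mul_left_cancel₀ (dl_ne K) h

end Pool.Agent.Lib.MP_06b9d2_gr
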