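import Pool.Agent.Lib.MP_06b9d2_gr.PA
import Pool.Agent.Lib.MP_06b9d2_gr.PB

/-!
Module GR-PC. `E_(p-1)` and `E_(p+1)` have no common factor: if `f` and `E_2 f` have weight `k` and `k + 2` modulo `p` then `f` has weight `k - (p - 1)`.

Let `I k = {f ∈ ML K k : e2 K * f ∈ ML K (k + 2)}`. (i) `h ∈ ML K j`, `f ∈ I k` imply `h * f ∈ I (j + k)`. (ii) if `f ∈ I k` has constant coefficient `0` then `f = 0` or `k = j + 12`, `f = dl * f'` with `f' ∈ I j` (`dl_div` for `f` and for `e2 * f`, `dl_cancel`). (iii) Let `k` be minimal with `I k ≠ 0`, `0 ≠ f ∈ I k`; by (ii) the constant coefficient `c0` of `f` is not `0`. Let `f' = 12 * Dq f - (k + 1) * e2 * f`: it is `(12 * Dq f - k * e2 * f) - e2 * f ∈ ML K (k + 2)` (`serre_mem_ML`), and with `g = e2 * f`: `12 * Dq g - (k + 2) * e2 * g = e2 * f' - e4 * f` (`ram_e2`: `12 * Dq e2 = e2 ^ 2 - e4`; `Dq` of a product), so `e2 * f' ∈ ML K (k + 4)`, `f' ∈ I (k + 2)`. Its constant coefficient is `-(k + 1) c0`; let `c = -(k + 1)`. (iv) `e4 * f' - c • e6 * f ∈ I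 (k + 6)` and `e6 * f' - c • e4 ^ 2 * f ∈ I (k + 8)` have constant coefficient `0`, so by (ii) and the minimality of `k` they are `0`; then `e4 ^ 3 * f' = c e4 ^ 2 e6 f = e6 ^ 2 * f'`, `1728 * dl * f' = 0` (`e4_cube`), `f' = 0`. So `c c0 = 0`, `p ∣ k + 1`. (v) `1 ∈ I (p - 1)` (`one_mem`, `e2_mem`), so `k ≤ p - 1`, hence the minimal `k` is `p - 1`: `I k = 0` for `k < p - 1`. (vi) Strong induction on `k` for `f ∈ I k`, `f ≠ 0`, `k = j + (p - 1)`; `k` is even (`even_of_lt_dd`). If `j ≠ 2` then `0 < dd j`, `bas K j 0 ∈ ML K j` has constant coefficient `1`; `f - c0 • bas K j 0 ∈ I k` has constant coefficient `0`, so it is `0` or `dl * f''` with `f'' ∈ I (k - 12)`, which is `0` or in `ML K (k - 12 - (p - 1))` by induction. If `j = 2` then (as in (iv)) `e4 * f - c0 • e6 ∈ I (p + 5)` and `e6 * f - c0 • e4 ^ 2 ∈ I (p + 7)` have constant coefficient `0`, are in `dl * I (p - 7)`, `dl * I (p - 5)` or `0`, so `0`, and `e4 ^ 3 * f = e6 ^ 2 * f`, `f = 0`.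
-/

namespace Pool.Agent.Lib.MP_06b9d2_gr

open UpperHalfPlane Pool.Agent.L1 Pool.Agent.Lib.MP_06b9d2_nt
open scoped MatrixGroups ModularForm

/-- `f` has weight `k` and `E_2 f` has weight `k + 2` -/
private def II (K : Type) [Field K] (k : ℕ) (f : PowerSeries K) : Prop :=
  f ∈ ML K k ∧ e2 K * f ∈ ML K (k + 2)

private theorem II_mul {K : Type} [Field K] {j k : ℕ} {h f : PowerSeries K} (hh : h ∈ ML K j)
    (hf : II K k f) : II K (j + k) (h * f) := by
  refine ⟨mul_mem_ML hh hf.1, ?_⟩
  have h1 := mul_mem_ML hh hf.2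
  have e : h * (e2 K * f) = e2 K * (h * f) := by ring
  rw [e] at h1
  exact h1

private theorem II_sub {K : Type} [Field K] {k : ℕ} {f g : PowerSeries K} (hf : II K k f)
    (hg : II K k g) : II K k (f - g) := by
  refine ⟨Submodule.sub_mem _ hf.1 hg.1, ?_⟩
  rw [mul_sub]
  exact Submodule.sub_mem _ hf.2 hg.2

private theorem II_smul {K : Type} [Field K] {k : ℕ} {f : PowerSeries K} (c : K)
    (hf : II K k f) : II K k (PowerSeries.C c * f) := by
  refine ⟨?_, ?_⟩
  · rw [← PowerSeries.smul_eq_C_mul]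
    exact Submodule.smul_mem _ _ hf.1
  · have e : e2 K * (PowerSeries.C c * f) = c • (e2 K * f) := by
      rw [PowerSeries.smul_eq_C_mul]
      ring
    rw [e]
    exact Submodule.smul_mem _ _ hf.2

private theorem e2_ne (K : Type) [Field K] : e2 K ≠ 0 := by
  intro h
  have h1 := constCoeff_e2 (R := K)
  rw [h, map_zero] at h1
  exact zero_ne_one h1

private theorem II_div {K : Type} [Field K] {k : ℕ} {f : PowerSeries K} (hf : II K k f)
    (h0 : PowerSeries.constantCoeff f = 0) :
    f = 0 ∨ ∃ (j : ℕ) (f' : PowerSeries K), k = j + 12 ∧ II K j f' ∧ f = dl K * f' := by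
  have h0' : PowerSeries.coeff 0 f = 0 := by
    rw [PowerSeries.coeff_zero_eq_constantCoeff_apply]
    exact h0
  rcases dl_div K k f ⟨hf.1, h0'⟩ with h | ⟨j, f', hj, hf', he⟩
  · exact Or.inl h
  have h1 : PowerSeries.coeff 0 (e2 K * f) = 0 := by
    rw [PowerSeries.coeff_zero_eq_constantCoeff_apply, map_mul, h0, mul_zero]
  rcases dl_div K (k + 2) (e2 K * f) ⟨hf.2, h1⟩ with h | ⟨j', g', hj', hg', he'⟩
  · left
    rcases mul_eq_zero.1 h with h | h
    · exact absurd h (e2_ne K)
    · exact h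
  · right
    refine ⟨j, f', hj, ⟨hf', ?_⟩, he⟩
    have h2 : dl K * (e2 K * f') = dl K * g' := by
      rw [← he', he]
      ring
    rw [dl_cancel K _ _ h2]
    have h3 : j' = j + 2 := by omega
    rw [h3] at hg'
    exact hg'

private theorem pc_cast {p : ℕ} [Fact p.Prime] (K : Type) [Field K] [Algebra (ZMod p) K] (n : ℕ) :
    (n : K) = 0 ↔ p ∣ n := by
  rw [← map_natCast (algebraMap (ZMod p) K), map_eq_zero, ZMod.natCast_eq_zero_iff]

/-- the relation between `E_4`, `E_6`, `Δ` -/
private theorem pc_dl {p : ℕ} [Fact p.Prime] (h5 : 5 ≤ p) (K : Type) [Field K]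
    [Algebra (ZMod p) K] (f : PowerSeries K) (h : e4 K ^ 3 * f = e6 K ^ 2 * f) : f = 0 := by
  have h1 : (1728 : PowerSeries K) * dl K * f = 0 := by
    rw [← e4_cube, sub_mul, h, sub_self]
  have h2 : ((1728 : ℕ) : K) ≠ 0 := by
    intro h0
    rw [pc_cast (p := p)] at h0
    have h3 : p ∣ 2 ^ 6 * 3 ^ 3 := by
      norm_num
      exact h0
    have hp := (Fact.out : p.Prime)
    rcases (Nat.Prime.dvd_mul hp).1 h3 with h4 | h4
    · have := Nat.le_of_dvd (by norm_num) (hp.dvd_of_dvd_pow h4)
      omega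
    · have := Nat.le_of_dvd (by norm_num) (hp.dvd_of_dvd_pow h4)
      omega
  have h3 : (1728 : PowerSeries K) ≠ 0 := by
    intro h0
    have h4 : PowerSeries.C ((1728 : ℕ) : K) = 0 := by
      rw [map_natCast]
      exact_mod_cast h0
    exact h2 (by simpa using h4)
  rcases mul_eq_zero.1 h1 with h4 | h4
  · rcases mul_eq_zero.1 h4 with h4 | h4
    · exact absurd h4 h3
    · exact absurd h4 (dl_ne K)
  · exact h4

/-- the step with `E_4`, `E_6`: two combinations vanish -/
private theorem pc_two {p : ℕ} [Fact p.Prime] (h5 : 5 ≤ p) (K : Type) [Field K]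
    [Algebra (ZMod p) K] (k : ℕ) (hmin : ∀ j < k, ∀ f, II K j f → f = 0) (f g : PowerSeries K)
    (c : K) (hf : II K (k + 2) f) (hg : II K k g)
    (h0 : PowerSeries.constantCoeff f = c * PowerSeries.constantCoeff g) : f = 0 := by
  have key : ∀ (m : ℕ) (u : PowerSeries K), m < k + 12 → II K m u →
      PowerSeries.constantCoeff u = 0 → u = 0 := by
    intro m u hm hu hu0
    rcases II_div hu hu0 with h | ⟨j, f', hj, hf', he⟩
    · exact h
    · rw [he, hmin j (by omega) f' hf', mul_zero]
  have h1 : e4 K * f - PowerSeries.C c * (e6 K * g) = 0 := by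
    refine key (k + 6) _ (by omega) (II_sub ?_ (II_smul c ?_)) ?_
    · have := II_mul (e4_mem (R := K)) hf
      have e : 4 + (k + 2) = k + 6 := by ring
      rw [e] at this
      exact this
    · have := II_mul (e6_mem (R := K)) hg
      rw [add_comm] at this
      exact this
    · rw [map_sub, map_mul, map_mul, map_mul, constCoeff_e4, constCoeff_e6,
        PowerSeries.constantCoeff_C, h0]
      ring
  have h2 : e6 K * f - PowerSeries.C c * (e4 K ^ 2 * g) = 0 := by
    refine key (k + 8) _ (by omega) (II_sub ?_ (II_smul c ?_)) ?_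
    · have := II_mul (e6_mem (R := K)) hf
      have e : 6 + (k + 2) = k + 8 := by ring
      rw [e] at this
      exact this
    · have := II_mul (pow_mem_ML (e4_mem (R := K)) 2) hg
      have e : 2 * 4 + k = k + 8 := by ring
      rw [e] at this
      exact this
    · rw [map_sub, map_mul, map_mul, map_mul, map_pow, constCoeff_e4, constCoeff_e6,
        PowerSeries.constantCoeff_C, h0]
      ring
  refine pc_dl h5 K f ?_
  linear_combination e4 K ^ 2 * h1 - e6 K * h2

private theorem II_one {p : ℕ} [Fact p.Prime] (h5 : 5 ≤ p) (K : Type) [Field K]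
    [Algebra (ZMod p) K] : II K (p - 1) 1 := by
  refine ⟨one_mem h5 K, ?_⟩
  have h1 := e2_mem h5 K
  have e : p - 1 + 2 = p + 1 := by omega
  rw [e, mul_one]
  exact h1

/-- there is nothing of small weight -/
private theorem II_small {p : ℕ} [Fact p.Prime] (h5 : 5 ≤ p) (K : Type) [Field K]
    [Algebra (ZMod p) K] : ∀ k < p - 1, ∀ f, II K k f → f = 0 := by
  by_contra hcon
  push Not at hcon
  classical
  have hex : ∃ k, ∃ f, II K k f ∧ f ≠ 0 := by
    obtain ⟨k, -, f, hf, hf0⟩ := hcon
    exact ⟨k, f, hf, hf0⟩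
  obtain ⟨f, hf, hf0⟩ := Nat.find_spec hex
  have hmin : ∀ j < Nat.find hex, ∀ g, II K j g → g = 0 := by
    intro j hj g hg
    by_contra hg0
    exact Nat.find_min hex hj ⟨g, hg, hg0⟩
  have hlt : Nat.find hex < p - 1 := by
    obtain ⟨k, hk, g, hg, hg0⟩ := hcon
    exact lt_of_le_of_lt (Nat.find_min' hex ⟨g, hg, hg0⟩) hk
  obtain ⟨k, hk⟩ : ∃ k, k = Nat.find hex := ⟨_, rfl⟩
  rw [← hk] at hf hmin hlt
  have hc0 : PowerSeries.constantCoeff f ≠ 0 := by
    intro h0
    rcases II_div hf h0 with h | ⟨j, f', hj, hf', he⟩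
    · exact hf0 h
    · rw [hmin j (by omega) f' hf', mul_zero] at he
      exact hf0 he
  obtain ⟨f', hf'⟩ : ∃ f', f' = 12 * Dq f - ((k : PowerSeries K) + 1) * (e2 K * f) := ⟨_, rfl⟩
  have h1 : f' ∈ ML K (k + 2) := by
    have h2 := Submodule.sub_mem _ (serre_mem_ML hf.1) hf.2
    have e : 12 * Dq f - (k : PowerSeries K) * e2 K * f - e2 K * f = f' := by
      rw [hf']
      ring
    rw [e] at h2
    exact h2
  have h2 : e2 K * f' ∈ ML K (k + 2 + 2) := by
    have h3 := serre_mem_ML hf.2
    have h4 := mul_mem_ML (e4_mem (R := K)) hf.1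
    have e4' : 4 + k = k + 2 + 2 := by ring
    rw [e4'] at h4
    have h5 := Submodule.add_mem _ h3 h4
    have e : 12 * Dq (e2 K * f) - ((k + 2 : ℕ) : PowerSeries K) * e2 K * (e2 K * f) +
        e4 K * f = e2 K * f' := by
      rw [hf', Dq_mul]
      push_cast
      linear_combination f * ram_e2 (R := K)
    rw [e] at h5
    exact h5
  have hcc : PowerSeries.constantCoeff f' = -((k : K) + 1) * PowerSeries.constantCoeff f := by
    have h3 : PowerSeries.constantCoeff (Dq f) = 0 := by
      rw [← PowerSeries.coeff_zero_eq_constantCoeff_apply, coeff_Dq]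
      simp
    rw [hf', map_sub, map_mul, map_mul, map_mul, h3, map_add, map_one, map_natCast, constCoeff_e2]
    ring
  have h3 : f' = 0 := pc_two h5 K k hmin f' f (-((k : K) + 1)) ⟨h1, h2⟩ hf hcc
  rw [h3, map_zero] at hcc
  have h4 : ((k + 1 : ℕ) : K) = 0 := by
    rcases mul_eq_zero.1 hcc.symm with h4 | h4
    · push_cast
      exact neg_eq_zero.1 h4
    · exact absurd h4 hc0
  rw [pc_cast (p := p)] at h4
  have := Nat.le_of_dvd (by omega) h4
  omega

theorem cop {p : ℕ} [Fact p.Prime] (h5 : 5 ≤ p) (K : Type) [Field K] [Algebra (ZMod p) K]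
    (k : ℕ) (f : PowerSeries K) (hf : f ∈ ML K k) (h : e2 K * f ∈ ML K (k + 2)) :
    f = 0 ∨ ∃ j : ℕ, k = j + (p - 1) ∧ f ∈ ML K j := by
  have hpodd : p % 2 = 1 := by
    rcases (Fact.out : p.Prime).eq_two_or_odd with h1 | h1
    · omega
    · exact h1
  induction k using Nat.strong_induction_on generalizing f with
  | _ k ih =>
    by_cases hf0 : f = 0
    · exact Or.inl hf0
    right
    have hI : II K k f := ⟨hf, h⟩
    have hk : p - 1 ≤ k := by
      by_contra hlt
      exact hf0 (II_small h5 K k (by omega) f hI)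
    have hev : Even k := by
      by_contra hodd
      refine hf0 (ML_eq_zero hf fun n hn => ?_)
      exact absurd (even_of_lt_dd hn) hodd
    obtain ⟨j, hj⟩ : ∃ j, k = j + (p - 1) := ⟨k - (p - 1), by omega⟩
    refine ⟨j, hj, ?_⟩
    obtain ⟨m, hm⟩ := hev
    by_cases hj2 : j = 2
    · exfalso
      refine hf0 (pc_two h5 K (p - 1) (II_small h5 K) f 1 (PowerSeries.constantCoeff f) ?_
        (II_one h5 K) (by rw [map_one, mul_one]))
      have e : p - 1 + 2 = k := by omega
      rw [e]
      exact hI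
    · have hd : 0 < dd j := by
        unfold dd
        have hc : Even j ∧ 6 * bb j ≤ j := by
          refine ⟨⟨m - (p - 1) / 2, by omega⟩, ?_⟩
          unfold bb
          split_ifs with h4
          · omega
          · omega
        rw [if_pos hc]
        omega
      have hb : bas K j 0 ∈ ML K j := Submodule.subset_span ⟨⟨0, hd⟩, rfl⟩
      have hb0 : PowerSeries.constantCoeff (bas K j 0) = 1 := by
        rw [← PowerSeries.coeff_zero_eq_constantCoeff_apply]
        exact coeff_bas_self j 0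
      have hb1 : II K k (bas K j 0) := by
        have := II_mul hb (II_one h5 K)
        rw [mul_one, ← hj] at this
        exact this
      have hu : II K k (f - PowerSeries.C (PowerSeries.constantCoeff f) * bas K j 0) :=
        II_sub hI (II_smul _ hb1)
      have hu0 : PowerSeries.constantCoeff
          (f - PowerSeries.C (PowerSeries.constantCoeff f) * bas K j 0) = 0 := by
        rw [map_sub, map_mul, PowerSeries.constantCoeff_C, hb0, mul_one, sub_self]
      have hcb : PowerSeries.C (PowerSeries.constantCoeff f) * bas K j 0 ∈ ML K j := by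
        rw [← PowerSeries.smul_eq_C_mul]
        exact Submodule.smul_mem _ _ hb
      rcases II_div hu hu0 with h1 | ⟨i, f', hi, hf', he⟩
      · rw [sub_eq_zero.1 h1]
        exact hcb
      · have h2 : dl K * f' ∈ ML K j := by
          rcases ih i (by omega) f' hf'.1 hf'.2 with h3 | ⟨i', hi', h3⟩
          · rw [h3, mul_zero]
            exact Submodule.zero_mem _
          · have h4 := mul_mem_ML (dl_mem (R := K)) h3
            have e : 12 + i' = j := by omega
            rw [e] at h4
            exact h4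
        have h3 := Submodule.add_mem _ h2 hcb
        rw [← he, sub_add_cancel] at h3
        exact h3

end Pool.Agent.Lib.MP_06b9d2_gr
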