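import Pool.Agent.Lib.MP_06b9d2_gr.PE

/-!
Module GR-PD. `T_2 (E_2 f) = 2 E_2 T_2 f` up to a form of weight `k + 2`.

Every `f ∈ SC R k` is a combination of the `bas R k (j + 1)`, which are images of `bas ℤ k (j + 1)`; `mem_ML_of_map` for `ℤ → ℂ`: it is enough to prove it for `R = ℂ`. Let `D_k f = 12 * Dq f - k * e2 * f` (`serre_mem_ML`; it maps `SC ℂ k` to `SC ℂ (k + 2)`). Comparison of coefficients: `H2 ℂ (k + 2) (Dq f) = 2 * Dq (H2 ℂ k f)`. So `H2 (k + 2) (D_k f) - 2 * D_k (H2 k f) = - k * (H2 (k + 2) (e2 * f) - 2 * e2 * H2 k f)`, and the left side is in `SC ℂ (k + 2)` (`H2_mem`); divide by `k ≠ 0`.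
-/

namespace Pool.Agent.Lib.MP_06b9d2_gr

open UpperHalfPlane Pool.Agent.L1 Pool.Agent.Lib.MP_06b9d2_nt
open scoped MatrixGroups ModularForm

/-- the error term as a linear map -/
private noncomputable def PD_E (R : Type) [CommRing R] (k : ℕ) : PowerSeries R →ₗ[R] PowerSeries R :=
  (H2 R (k + 2)) ∘ₗ (LinearMap.mulLeft R (e2 R)) - (LinearMap.mulLeft R (2 * e2 R)) ∘ₗ (H2 R k)

private lemma PD_E_apply (R : Type) [CommRing R] (k : ℕ) (f : PowerSeries R) :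
    PD_E R k f = H2 R (k + 2) (e2 R * f) - 2 * (e2 R * H2 R k f) := by
  show H2 R (k + 2) (e2 R * f) - 2 * e2 R * H2 R k f = _
  rw [mul_assoc]

private lemma PD_map (R S : Type) [CommRing R] [CommRing S] (φ : R →+* S) (k : ℕ)
    (f : PowerSeries R) : PowerSeries.map φ (PD_E R k f) = PD_E S k (PowerSeries.map φ f) := by
  rw [PD_E_apply, PD_E_apply]
  have h1 := map_H2 φ (k + 2) (e2 R * f)
  have h2 := map_H2 φ k f
  have h3 := map_e2 φ
  have h4 : PowerSeries.map φ (e2 R * f) = e2 S * PowerSeries.map φ f := by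
    rw [RingHom.map_mul, h3]
  have h5 : PowerSeries.map φ (2 * (e2 R * H2 R k f)) =
      2 * (e2 S * H2 S k (PowerSeries.map φ f)) := by
    rw [RingHom.map_mul, RingHom.map_mul, h3, h2, map_ofNat]
  rw [RingHom.map_sub, h1, h4, h5]

private lemma PD_SC_map (R S : Type) [CommRing R] [CommRing S] (φ : R →+* S) (k : ℕ)
    (f : PowerSeries R) (hf : f ∈ SC R k) : PowerSeries.map φ f ∈ SC S k := by
  obtain ⟨h1, h2⟩ := Submodule.mem_inf.1 hf
  refine Submodule.mem_inf.2 ⟨map_mem_ML φ h1, ?_⟩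
  rw [LinearMap.mem_ker] at h2 ⊢
  rw [PowerSeries.coeff_map, h2, map_zero]

/-- a cusp form is a combination of the basis vectors of positive index -/
private lemma PD_SC_ex (R : Type) [CommRing R] (k : ℕ) {g : PowerSeries R} (hg : g ∈ SC R k) :
    ∃ c : Fin (dd k - 1) → R, g = ∑ j, c j • bas R k ((j : ℕ) + 1) := by
  obtain ⟨hg1, hg2⟩ := Submodule.mem_inf.1 hg
  have h0 : PowerSeries.coeff 0 g = 0 := LinearMap.mem_ker.1 hg2
  obtain ⟨c, hc⟩ := mem_ML_iff.1 hg1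
  rcases Nat.eq_zero_or_pos (dd k) with hd | hd
  · refine ⟨0, ?_⟩
    have h1 : g = 0 := by
      rw [hc]
      refine Finset.sum_eq_zero fun j hj => ?_
      rw [Finset.mem_range] at hj
      omega
    rw [h1]
    symm
    refine Finset.sum_eq_zero fun j _ => ?_
    rw [Pi.zero_apply, zero_smul]
  · refine ⟨fun j => c ((j : ℕ) + 1), ?_⟩
    have h1 : ∑ j ∈ Finset.range (dd k), c j • bas R k j =
        ∑ j ∈ Finset.range (dd k - 1), c (j + 1) • bas R k (j + 1) + c 0 • bas R k 0 := by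
      rw [← Finset.sum_range_succ' (fun j => c j • bas R k j), Nat.sub_add_cancel hd]
    have h2 : c 0 = 0 := by
      rw [hc, h1, map_add, map_sum, Finset.sum_eq_zero, zero_add, PowerSeries.coeff_smul,
        coeff_bas_self, smul_eq_mul, mul_one] at h0
      · exact h0
      · intro j _
        rw [PowerSeries.coeff_smul, coeff_bas_lt (Nat.succ_pos _), smul_zero]
    rw [hc, h1, h2, zero_smul, add_zero]
    exact (Fin.sum_univ_eq_sum_range (fun j => c (j + 1) • bas R k (j + 1)) (dd k - 1)).symm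

private lemma PD_bas_SC (R : Type) [CommRing R] (k : ℕ) (j : Fin (dd k - 1)) :
    bas R k ((j : ℕ) + 1) ∈ SC R k := by
  refine Submodule.mem_inf.2 ⟨Submodule.subset_span ⟨⟨(j : ℕ) + 1, by have := j.2; omega⟩, rfl⟩, ?_⟩
  rw [LinearMap.mem_ker]
  exact coeff_bas_lt (Nat.succ_pos _)

/-- the commutation of `T_2` and `q d/dq` -/
private lemma PD_Dq (k : ℕ) (hk : 1 ≤ k) (f : PowerSeries ℂ) :
    H2 ℂ (k + 2) (Dq f) = 2 * Dq (H2 ℂ k f) := by
  obtain ⟨l, rfl⟩ : ∃ l, k = l + 1 := ⟨k - 1, by omega⟩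
  ext m
  have h2 : (2 : PowerSeries ℂ) = PowerSeries.C (2 : ℂ) := (map_ofNat PowerSeries.C 2).symm
  rw [coeff_H2, h2, PowerSeries.coeff_C_mul]
  simp only [coeff_Dq]
  rw [coeff_H2]
  have e1 : l + 1 + 2 - 1 = l + 2 := by omega
  have e2' : l + 1 - 1 = l := by omega
  rw [e1, e2']
  by_cases hd : 2 ∣ m
  · obtain ⟨n, rfl⟩ := hd
    have hdiv : 2 * n / 2 = n := by omega
    simp only [if_pos (Dvd.intro n rfl : 2 ∣ 2 * n), hdiv]
    push_cast
    ring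
  · simp only [if_neg hd]
    push_cast
    ring

private lemma PD_serre (k : ℕ) (f : PowerSeries ℂ) (hf : f ∈ SC ℂ k) :
    12 * Dq f - (k : PowerSeries ℂ) * e2 ℂ * f ∈ SC ℂ (k + 2) := by
  obtain ⟨h1, h2⟩ := Submodule.mem_inf.1 hf
  rw [LinearMap.mem_ker] at h2
  refine Submodule.mem_inf.2 ⟨serre_mem_ML h1, ?_⟩
  rw [LinearMap.mem_ker]
  have h12 : (12 : PowerSeries ℂ) = PowerSeries.C (12 : ℂ) := (map_ofNat PowerSeries.C 12).symm
  have h3 : PowerSeries.coeff 0 ((k : PowerSeries ℂ) * e2 ℂ * f) = 0 := by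
    rw [PowerSeries.coeff_zero_eq_constantCoeff_apply] at h2 ⊢
    rw [RingHom.map_mul, h2, mul_zero]
  rw [map_sub, h3, h12, PowerSeries.coeff_C_mul, coeff_Dq]
  simp

private lemma PD_C (k : ℕ) (hk : 1 ≤ k) (f : PowerSeries ℂ) (hf : f ∈ SC ℂ k) :
    PD_E ℂ k f ∈ SC ℂ (k + 2) := by
  have h1 := H2_mem ℂ (k + 2) _ (PD_serre k f hf)
  have h2 := PD_serre k _ (H2_mem ℂ k f hf)
  have hH : H2 ℂ (k + 2) (12 * Dq f - (k : PowerSeries ℂ) * e2 ℂ * f) =
      12 * H2 ℂ (k + 2) (Dq f) - (k : PowerSeries ℂ) * H2 ℂ (k + 2) (e2 ℂ * f) := by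
    have h12 : (12 : PowerSeries ℂ) * Dq f = (12 : ℂ) • Dq f := by
      rw [PowerSeries.smul_eq_C_mul, map_ofNat]
    have h12' : (12 : PowerSeries ℂ) * H2 ℂ (k + 2) (Dq f) = (12 : ℂ) • H2 ℂ (k + 2) (Dq f) := by
      rw [PowerSeries.smul_eq_C_mul, map_ofNat]
    have hkk : (k : PowerSeries ℂ) * e2 ℂ * f = (k : ℂ) • (e2 ℂ * f) := by
      rw [PowerSeries.smul_eq_C_mul, map_natCast, mul_assoc]
    have hkk' : (k : PowerSeries ℂ) * H2 ℂ (k + 2) (e2 ℂ * f) =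
        (k : ℂ) • H2 ℂ (k + 2) (e2 ℂ * f) := by
      rw [PowerSeries.smul_eq_C_mul, map_natCast]
    rw [h12, h12', hkk, hkk', map_sub, map_smul, map_smul]
  have h3 : (-(k : ℂ)) • PD_E ℂ k f ∈ SC ℂ (k + 2) := by
    have h4 : (-(k : ℂ)) • PD_E ℂ k f =
        H2 ℂ (k + 2) (12 * Dq f - (k : PowerSeries ℂ) * e2 ℂ * f) -
          (2 : ℂ) • (12 * Dq (H2 ℂ k f) - (k : PowerSeries ℂ) * e2 ℂ * H2 ℂ k f) := by
      rw [hH, PD_Dq k hk, PD_E_apply, PowerSeries.smul_eq_C_mul, PowerSeries.smul_eq_C_mul,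
        map_neg, map_natCast, map_ofNat]
      ring
    rw [h4]
    exact Submodule.sub_mem _ h1 (Submodule.smul_mem _ _ h2)
  have hk0 : (-(k : ℂ)) ≠ 0 := neg_ne_zero.2 (Nat.cast_ne_zero.2 (by omega))
  exact (Submodule.smul_mem_iff _ hk0).1 h3

private lemma PD_Z (k : ℕ) (hk : 1 ≤ k) (f : PowerSeries ℤ) (hf : f ∈ SC ℤ k) :
    PD_E ℤ k f ∈ SC ℤ (k + 2) := by
  have h1 := PD_C k hk _ (PD_SC_map ℤ ℂ (Int.castRingHom ℂ) k f hf)
  rw [← PD_map] at h1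
  obtain ⟨h2, h3⟩ := Submodule.mem_inf.1 h1
  refine Submodule.mem_inf.2 ⟨mem_ML_of_map (Int.castRingHom ℂ) (RingHom.injective_int _) h2, ?_⟩
  rw [LinearMap.mem_ker] at h3 ⊢
  rw [PowerSeries.coeff_map] at h3
  exact (RingHom.injective_int (Int.castRingHom ℂ)) (by rw [h3, map_zero])

theorem hk2 (R : Type) [CommRing R] (k : ℕ) (hk : 1 ≤ k) (f : PowerSeries R) (hf : f ∈ SC R k) :
    H2 R (k + 2) (e2 R * f) - 2 * (e2 R * H2 R k f) ∈ SC R (k + 2) := by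
  rw [← PD_E_apply]
  obtain ⟨c, rfl⟩ := PD_SC_ex R k hf
  rw [map_sum]
  refine Submodule.sum_mem _ fun j _ => ?_
  rw [map_smul]
  refine Submodule.smul_mem _ _ ?_
  have h1 := PD_SC_map ℤ R (Int.castRingHom R) (k + 2) _ (PD_Z k hk _ (PD_bas_SC ℤ k j))
  rwa [PD_map, map_bas] at h1

end Pool.Agent.Lib.MP_06b9d2_gr
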