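import Pool.Agent.Lib.MP_06b9d2_gr.Hm
import Pool.Agent.Lib.MP_06b9d2_p2.Cons

/-!
Module GR-PE. `T_2` maps cusp forms to cusp forms, over any ring.

`hm` (with `T` from `MP_06b9d2_p2.hecke_ex`, see `MP_06b9d2_lf/Trans.lean`; `Module.Finite ℂ (CuspForm 𝒮ℒ k)` from `MU.Phi_ex`) gives `M` with `H2 ℤ k (bas ℤ k (j + 1)) = ∑ M i j • bas ℤ k (i + 1)`; map to `R` (`map_H2`, `map_bas`). Every `f ∈ SC R k` is a combination of the `bas R k (j + 1)`, `j < dd k - 1` (`mem_ML_iff`; as in `GR-Kil`). (`k = 0`: `SC R 0 = 0`.) `H2_cast`: `2 ^ (p - 1) = 1` in `K`, `k ≥ 1`.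
-/

namespace Pool.Agent.Lib.MP_06b9d2_gr

open UpperHalfPlane Pool.Agent.L1 Pool.Agent.Lib.MP_06b9d2_nt
open scoped MatrixGroups ModularForm

/-- a cusp form is a combination of the basis vectors of positive index -/
private lemma PE_SC_ex (R : Type) [CommRing R] (k : ℕ) {g : PowerSeries R} (hg : g ∈ SC R k) :
    ∃ c : Fin (dd k - 1) → R, g = ∑ j, c j • bas R k ((j : ℕ) + 1) := by
  obtain ⟨hg1, hg2⟩ := Submodule.mem_inf.1 hg
  have h0 : PowerSeries.coeff 0 g = 0 := LinearMap.mem_ker.1 hg2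
  obtain ⟨c, hc⟩ := mem_ML_iff.1 hg1
  rcases Nat.eq_zero_or_pos (dd k) with hd | hd
  · refine ⟨0, ?_⟩
    have h1 : g = 0 := by
      rw [hc]
      refine Finset.sum_eq_zero fun j hj => ?_
      rw [Finset.mem_range] at hj
      omega
    rw [h1]
    symm
    refine Finset.sum_eq_zero fun j _ => ?_
    rw [Pi.zero_apply, zero_smul]
  · refine ⟨fun j => c ((j : ℕ) + 1), ?_⟩
    have h1 : ∑ j ∈ Finset.range (dd k), c j • bas R k j =
        ∑ j ∈ Finset.range (dd k - 1), c (j + 1) • bas R k (j + 1) + c 0 • bas R k 0 := by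
      rw [← Finset.sum_range_succ' (fun j => c j • bas R k j), Nat.sub_add_cancel hd]
    have h2 : c 0 = 0 := by
      rw [hc, h1, map_add, map_sum, Finset.sum_eq_zero, zero_add, PowerSeries.coeff_smul,
        coeff_bas_self, smul_eq_mul, mul_one] at h0
      · exact h0
      · intro j _
        rw [PowerSeries.coeff_smul, coeff_bas_lt (Nat.succ_pos _), smul_zero]
    rw [hc, h1, h2, zero_smul, add_zero]
    exact (Fin.sum_univ_eq_sum_range (fun j => c (j + 1) • bas R k (j + 1)) (dd k - 1)).symm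

private lemma PE_bas_mem (R : Type) [CommRing R] (k : ℕ) (i : Fin (dd k - 1)) :
    bas R k ((i : ℕ) + 1) ∈ SC R k := by
  refine Submodule.mem_inf.2 ⟨?_, ?_⟩
  · exact Submodule.subset_span ⟨⟨(i : ℕ) + 1, by have := i.2; omega⟩, rfl⟩
  · exact LinearMap.mem_ker.2 (coeff_bas_lt (Nat.succ_pos _))

theorem H2_mem (R : Type) [CommRing R] (k : ℕ) (f : PowerSeries R) (hf : f ∈ SC R k) :
    H2 R k f ∈ SC R k := by
  obtain ⟨Φ, hΦ, -⟩ := MU.Phi_ex k
  have hfin : Module.Finite ℂ (CuspForm 𝒮ℒ (k : ℤ)) := Module.Finite.of_injective Φ hΦ.1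
  obtain ⟨T, hT⟩ := Pool.Agent.Lib.MP_06b9d2_p2.hecke_ex (k : ℤ) 2 (by norm_num)
  obtain ⟨M, -, hM⟩ := hm k T hT
  obtain ⟨c, hc⟩ := PE_SC_ex R k hf
  rw [hc, map_sum]
  refine Submodule.sum_mem _ fun j _ => ?_
  rw [map_smul]
  refine Submodule.smul_mem _ _ ?_
  have h1 : H2 R k (bas R k ((j : ℕ) + 1)) =
      PowerSeries.map (Int.castRingHom R) (H2 ℤ k (bas ℤ k ((j : ℕ) + 1))) := by
    rw [map_H2, map_bas]
  rw [h1, hM, map_sum]
  refine Submodule.sum_mem _ fun i _ => ?_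
  have h2 : ∀ a : ℤ, PowerSeries.map (Int.castRingHom R) (a • bas ℤ k ((i : ℕ) + 1)) ∈ SC R k := by
    intro a
    rw [map_zsmul, map_bas]
    exact zsmul_mem (PE_bas_mem R k i) a
  exact h2 (M i j)

theorem H2_cast {p : ℕ} [Fact p.Prime] (h5 : 5 ≤ p) (K : Type) [Field K] [Algebra (ZMod p) K]
    (k i : ℕ) (hk : 1 ≤ k) : H2 K (k + i * (p - 1)) = H2 K k := by
  have h1 : (2 : ZMod p) ≠ 0 := by
    intro h
    have h2 : ((2 : ℕ) : ZMod p) = 0 := by exact_mod_cast h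
    rw [ZMod.natCast_eq_zero_iff] at h2
    have := Nat.le_of_dvd (by norm_num) h2
    omega
  have h2 : (2 : ZMod p) ^ (p - 1) = 1 := ZMod.pow_card_sub_one_eq_one h1
  have h3 : (2 : K) ^ (p - 1) = 1 := by
    have h4 := congrArg (algebraMap (ZMod p) K) h2
    rw [map_pow, map_ofNat, map_one] at h4
    exact h4
  have h4 : (2 : K) ^ (k + i * (p - 1) - 1) = 2 ^ (k - 1) := by
    have e : k + i * (p - 1) - 1 = (k - 1) + (p - 1) * i := by
      have : i * (p - 1) = (p - 1) * i := mul_comm _ _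
      omega
    rw [e, pow_add, pow_mul, h3, one_pow, mul_one]
  refine LinearMap.ext fun f => ?_
  ext m
  rw [coeff_H2, coeff_H2, h4]

end Pool.Agent.Lib.MP_06b9d2_gr
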