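import Pool.Agent.Lib.MP_06b9d2_gr.PA
import Pool.Agent.Lib.MP_06b9d2_gr.PE

/-!
Module GR-PF. The lower filtration and the form of minimal weight.

Strong induction on `k0`. If `h ∉ Lo K p k0` take `k1 = k0`. Otherwise `p - 1 ≤ k0` and `h ∈ SC K (k0 - (p - 1))`; `k0 - (p - 1) ≥ 1` since `SC K 0 = 0` (`dl_div`-like, or `mem_ML_iff`, `dd 0 = 1`) and `h ≠ 0`; `H2_cast`.
-/

namespace Pool.Agent.Lib.MP_06b9d2_gr

open UpperHalfPlane Pool.Agent.L1 Pool.Agent.Lib.MP_06b9d2_nt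
open scoped MatrixGroups ModularForm

/-- the forms of weight `w - (p - 1)` -/
noncomputable def Lo (K : Type) [Field K] (p w : ℕ) : Submodule K (PowerSeries K) :=
  if p - 1 ≤ w then SC K (w - (p - 1)) else ⊥

private theorem pf_zero (K : Type) [Field K] (h : PowerSeries K) (hh : h ∈ SC K 0) : h = 0 := by
  obtain ⟨h1, h2⟩ := hh
  have hd : dd 0 = 1 := by
    unfold dd bb
    simp
  have hb : ∀ j : Fin (dd 0), bas K 0 j = 1 := by
    intro j
    have hj : (j : ℕ) = 0 := by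
      have := j.2
      omega
    unfold bas ba bb
    rw [hj]
    simp
  have h3 : ∃ c : K, h = PowerSeries.C c := by
    unfold ML at h1
    refine Submodule.span_induction (p := fun x _ => ∃ c : K, x = PowerSeries.C c) ?_ ?_ ?_ ?_ h1
    · rintro x ⟨j, rfl⟩
      exact ⟨1, (hb j).trans (map_one _).symm⟩
    · exact ⟨0, by rw [map_zero]⟩
    · rintro x y _ _ ⟨c, rfl⟩ ⟨d, rfl⟩
      exact ⟨c + d, by rw [map_add]⟩
    · rintro a x _ ⟨c, rfl⟩
      exact ⟨a * c, by rw [map_mul, PowerSeries.smul_eq_C_mul]⟩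
  obtain ⟨c, rfl⟩ := h3
  have h4 : c = 0 := by
    have h5 : PowerSeries.coeff 0 (PowerSeries.C c) = 0 := h2
    rw [PowerSeries.coeff_zero_C] at h5
    exact h5
  rw [h4, map_zero]

theorem stt {p : ℕ} [Fact p.Prime] (h5 : 5 ≤ p) (K : Type) [Field K] [Algebra (ZMod p) K]
    (k0 : ℕ) (hk0 : 1 ≤ k0) (v : K) (h : PowerSeries K) (hh : h ∈ SC K k0) (h0 : h ≠ 0)
    (hv : H2 K k0 h = v • h) :
    ∃ k1 i : ℕ, k0 = k1 + i * (p - 1) ∧ 1 ≤ k1 ∧ h ∈ SC K k1 ∧ h ∉ Lo K p k1 ∧ H2 K k1 h = v • h := by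
  induction k0 using Nat.strong_induction_on with
  | _ k0 ih =>
    by_cases hL : h ∈ Lo K p k0
    · unfold Lo at hL
      by_cases hp : p - 1 ≤ k0
      · rw [if_pos hp] at hL
        have h1 : 1 ≤ k0 - (p - 1) := by
          by_contra hcon
          have h2 : k0 - (p - 1) = 0 := by omega
          rw [h2] at hL
          exact h0 (pf_zero K h hL)
        have h2 : H2 K (k0 - (p - 1)) h = v • h := by
          have h3 := H2_cast h5 K (k0 - (p - 1)) 1 h1
          rw [one_mul, Nat.sub_add_cancel hp] at h3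
          rw [← h3]
          exact hv
        obtain ⟨k1, i, e1, e2, e3, e4, e5⟩ := ih (k0 - (p - 1)) (by omega) h1 hL h2
        refine ⟨k1, i + 1, ?_, e2, e3, e4, e5⟩
        rw [Nat.add_mul, one_mul, ← Nat.add_assoc, ← e1]
        omega
      · rw [if_neg hp, Submodule.mem_bot] at hL
        exact absurd hL h0
    · exact ⟨k0, 0, by rw [Nat.zero_mul, Nat.add_zero], hk0, hh, hL, hv⟩

end Pool.Agent.Lib.MP_06b9d2_gr
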