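import Pool.Agent.Lib.MP_06b9d2_gr.PF
import Pool.Agent.Lib.MP_06b9d2_gr.PC
import Pool.Agent.Lib.MP_06b9d2_gr.PD

/-!
Module GR-PG. The forms `E_2 ^ j h`.

Induction on `j`. `w = k1 + j (p + 1)`, `f = e2 ^ j * h`. `e2 * f ∈ SC K (w + (p + 1))` (`e2_SC`). `Lo K p (w + (p + 1)) = SC K (w + 2)`: if `e2 * f ∈ SC K (w + 2)` then by `cop` `f = 0` or `f ∈ ML K (w - (p - 1))`, so `f ∈ Lo K p w`, a contradiction. `H2 K (w + (p + 1)) = H2 K (w + 2)` (`H2_cast`), so by `hk2` `H2 K (w + (p + 1)) (e2 * f) - 2 * (e2 * H2 K w f) ∈ SC K (w + 2)`, and `H2 K w f = (2 ^ j * v) • f + g`, `g ∈ Lo K p w`, `e2 * g ∈ Lo K p (w + (p + 1))` (`e2_SC`).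
-/

namespace Pool.Agent.Lib.MP_06b9d2_gr

open UpperHalfPlane Pool.Agent.L1 Pool.Agent.Lib.MP_06b9d2_nt
open scoped MatrixGroups ModularForm

theorem chn {p : ℕ} [Fact p.Prime] (h5 : 5 ≤ p) (K : Type) [Field K] [Algebra (ZMod p) K]
    (k1 : ℕ) (hk1 : 1 ≤ k1) (v : K) (h : PowerSeries K) (hh : h ∈ SC K k1) (h0 : h ∉ Lo K p k1)
    (hv : H2 K k1 h = v • h) (j : ℕ) :
    e2 K ^ j * h ∈ SC K (k1 + j * (p + 1)) ∧ e2 K ^ j * h ∉ Lo K p (k1 + j * (p + 1)) ∧
      H2 K (k1 + j * (p + 1)) (e2 K ^ j * h) - (2 ^ j * v) • (e2 K ^ j * h) ∈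
        Lo K p (k1 + j * (p + 1)) := by
  induction j with
  | zero =>
    rw [pow_zero, one_mul, zero_mul, add_zero, pow_zero, one_mul, hv, sub_self]
    exact ⟨hh, h0, Submodule.zero_mem _⟩
  | succ j ih =>
    obtain ⟨hA, hB, hC⟩ := ih
    obtain ⟨w, hw⟩ : ∃ w, w = k1 + j * (p + 1) := ⟨_, rfl⟩
    obtain ⟨f, hf⟩ : ∃ f, f = e2 K ^ j * h := ⟨_, rfl⟩
    rw [← hw, ← hf] at hA hB hC
    have hw' : k1 + (j + 1) * (p + 1) = w + (p + 1) := by
      rw [hw]
      ring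
    have hf' : e2 K ^ (j + 1) * h = e2 K * f := by
      rw [hf, pow_succ']
      ring
    rw [hw', hf']
    have hw1 : 1 ≤ w := by omega
    have hLo : Lo K p (w + (p + 1)) = SC K (w + 2) := by
      unfold Lo
      rw [if_pos (by omega)]
      congr 1
      omega
    rw [hLo]
    refine ⟨e2_SC h5 K w f hA, ?_, ?_⟩
    · intro hmem
      rcases cop h5 K w f hA.1 hmem.1 with h1 | ⟨i, hi, h1⟩
      · apply hB
        rw [h1]
        exact Submodule.zero_mem _
      · apply hB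
        unfold Lo
        rw [if_pos (by omega), show w - (p - 1) = i by omega]
        exact ⟨h1, hA.2⟩
    · have hcast : H2 K (w + (p + 1)) = H2 K (w + 2) := by
        rw [← H2_cast h5 K (w + 2) 1 (by omega)]
        congr 1
        omega
      rw [hcast]
      have h1 := hk2 K w hw1 f hA
      obtain ⟨g, hg⟩ : ∃ g, g = H2 K w f - (2 ^ j * v) • f := ⟨_, rfl⟩
      rw [← hg] at hC
      have h2 : e2 K * g ∈ SC K (w + 2) := by
        unfold Lo at hC
        split_ifs at hC with hp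
        · have h3 := e2_SC h5 K (w - (p - 1)) g hC
          rwa [show w - (p - 1) + (p + 1) = w + 2 by omega] at h3
        · rw [Submodule.mem_bot] at hC
          rw [hC, mul_zero]
          exact Submodule.zero_mem _
      have h3 : H2 K (w + 2) (e2 K * f) - (2 ^ (j + 1) * v) • (e2 K * f) =
          (H2 K (w + 2) (e2 K * f) - 2 * (e2 K * H2 K w f)) + (2 : K) • (e2 K * g) := by
        rw [hg, mul_sub, smul_sub, mul_smul_comm, smul_smul]
        have h4 : (2 : PowerSeries K) * (e2 K * H2 K w f) = (2 : K) • (e2 K * H2 K w f) := by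
          rw [PowerSeries.smul_eq_C_mul, map_ofNat]
        rw [h4, show (2 : K) ^ (j + 1) * v = 2 * (2 ^ j * v) by ring]
        abel
      rw [h3]
      exact Submodule.add_mem _ h1 (Submodule.smul_mem _ _ h2)

end Pool.Agent.Lib.MP_06b9d2_gr
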