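import Mathlib

/-!
Module GR-PH. Multiplicity of an eigenvalue from a filtration.

`LinearMap.charpoly U = (X - C μ) ^ a * D` with `a` the root multiplicity and `D.eval μ ≠ 0` (`Polynomial.exists_eq_pow_rootMultiplicity_mul_and_not_dvd`). `y l = aeval U D (x l)`: `y l ∈ B l`, `y l - D.eval μ • x l ∈ A l` (induction on `D`: `aeval U D x - D.eval μ • x ∈ A l` for `x ∈ B l` with `U x - μ • x ∈ A l`), so `y l ∉ A l`; `(U - μ) ^ a (y l) = 0` (`LinearMap.aeval_self_charpoly`), so `y l` is in `Module.End.maxGenEigenspace U μ`. The `y l`, `l < m`, are linearly independent (`y l ∉ A l`, `y l' ∈ A l` for `l' < l`; e.g. `linearIndependent_fin_succ`-like induction, or the dimensions of the intersections with `A l`). `Module.End.finrank_maxGenEigenspace_eq` (`Mathlib/LinearAlgebra/Eigenspace/Zero.lean`, perhaps in the namespace `LinearMap`).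
-/

namespace Pool.Agent.Lib.MP_06b9d2_gr



theorem lin (K V : Type*) [Field K] [AddCommGroup V] [Module K V] [FiniteDimensional K V]
    (U : Module.End K V) (μ : K) (m : ℕ) (A B : ℕ → Submodule K V) (hBA : ∀ l, B l ≤ A (l + 1))
    (hAB : ∀ l, A l ≤ B l) (hA : ∀ l, ∀ x ∈ A l, U x ∈ A l) (x : ℕ → V)
    (hx : ∀ l < m, x l ∈ B l ∧ x l ∉ A l ∧ U (x l) - μ • x l ∈ A l) :
    m ≤ (LinearMap.charpoly U).rootMultiplicity μ := by
  have hne : LinearMap.charpoly U ≠ 0 := (LinearMap.charpoly_monic U).ne_zero
  obtain ⟨D, hD, hnd⟩ := Polynomial.exists_eq_pow_rootMultiplicity_mul_and_not_dvd _ hne μ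
  set a := (LinearMap.charpoly U).rootMultiplicity μ with ha
  have hD0 : D.eval μ ≠ 0 := fun h => hnd (Polynomial.dvd_iff_isRoot.2 h)
  -- powers
  have hpow : ∀ l < m, ∀ n : ℕ, (U ^ n) (x l) - μ ^ n • x l ∈ A l := by
    intro l hl n
    induction n with
    | zero => simp
    | succ n ih =>
      have h1 := (A l).add_mem (hA l _ ih) ((A l).smul_mem (μ ^ n) (hx l hl).2.2)
      have h2 : (U ^ (n + 1)) (x l) - μ ^ (n + 1) • x l =
          U ((U ^ n) (x l) - μ ^ n • x l) + μ ^ n • (U (x l) - μ • x l) := by
        rw [pow_succ', Module.End.mul_apply, map_sub, map_smul, smul_sub, smul_smul, pow_succ]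
        abel
      rw [h2]
      exact h1
  have hpol : ∀ l < m, ∀ P : Polynomial K, Polynomial.aeval U P (x l) - P.eval μ • x l ∈ A l := by
    intro l hl P
    induction P using Polynomial.induction_on' with
    | add p q hp hq =>
      have h1 := (A l).add_mem hp hq
      have h2 : Polynomial.aeval U (p + q) (x l) - (p + q).eval μ • x l =
          (Polynomial.aeval U p (x l) - p.eval μ • x l) + (Polynomial.aeval U q (x l) - q.eval μ • x l) := by
        rw [map_add, LinearMap.add_apply, Polynomial.eval_add, add_smul]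
        abel
      rw [h2]
      exact h1
    | monomial n c =>
      have h1 := (A l).smul_mem c (hpow l hl n)
      have h2 : Polynomial.aeval U (Polynomial.monomial n c) (x l) -
          (Polynomial.monomial n c).eval μ • x l = c • ((U ^ n) (x l) - μ ^ n • x l) := by
        rw [Polynomial.aeval_monomial, Polynomial.eval_monomial, Module.End.mul_apply,
          Module.algebraMap_end_apply, smul_sub, smul_smul]
      rw [h2]
      exact h1
  set W := Module.End.maxGenEigenspace U μ with hW
  have hy : ∀ l < m, ∃ y ∈ W ⊓ A (l + 1), y ∉ A l := by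
    intro l hl
    refine ⟨Polynomial.aeval U D (x l), ⟨?_, ?_⟩, ?_⟩
    · rw [hW, SetLike.mem_coe, Module.End.mem_maxGenEigenspace]
      refine ⟨a, ?_⟩
      have h1 : (U - μ • (1 : Module.End K V)) ^ a = Polynomial.aeval U ((Polynomial.X - Polynomial.C μ) ^ a) := by
        rw [map_pow, map_sub, Polynomial.aeval_X, Polynomial.aeval_C, Algebra.algebraMap_eq_smul_one]
      rw [h1, ← Module.End.mul_apply, ← map_mul, ← hD, LinearMap.aeval_self_charpoly]
      rfl
    · have h1 := (B l).add_mem (hAB l (hpol l hl D)) ((B l).smul_mem (D.eval μ) (hx l hl).1)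
      rw [sub_add_cancel] at h1
      exact hBA l h1
    · intro h1
      have h2 := (A l).sub_mem h1 (hpol l hl D)
      rw [sub_sub_cancel] at h2
      have h3 := (A l).smul_mem (D.eval μ)⁻¹ h2
      rw [smul_smul, inv_mul_cancel₀ hD0, one_smul] at h3
      exact (hx l hl).2.1 h3
  have hdim : ∀ l ≤ m, l ≤ Module.finrank K ↥(W ⊓ A l) := by
    intro l
    induction l with
    | zero => intro _; exact Nat.zero_le _
    | succ l ih =>
      intro hl
      have h1 := ih (by omega)
      obtain ⟨y, hy1, hy2⟩ := hy l (by omega)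
      have h2 : W ⊓ A l < W ⊓ A (l + 1) := by
        refine lt_of_le_of_ne (inf_le_inf_left W ((hAB l).trans (hBA l))) fun h => ?_
        rw [← h] at hy1
        exact hy2 hy1.2
      have h3 := Submodule.finrank_lt_finrank_of_lt h2
      omega
  have h1 := hdim m le_rfl
  have h2 : Module.finrank K ↥(W ⊓ A m) ≤ Module.finrank K W := Submodule.finrank_mono inf_le_left
  have h3 := LinearMap.finrank_maxGenEigenspace_eq U μ
  rw [← hW] at h3
  omega

end Pool.Agent.Lib.MP_06b9d2_gr
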