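import Pool.Agent.Lib.MP_06b9d2_gr.Defs

/-!
Module GR-PI. The characteristic polynomial of `T_2` on the cusp forms over `K`.

The `bas K k (j + 1)`, `j < dd k - 1`, are a basis of `SC K k` (`linearIndependent_bas`, `mem_ML_iff`: the coordinate `0` is the constant coefficient); in this basis `U` has the matrix `M.map` (`map_H2`, `map_bas`); `LinearMap.charpoly_toMatrix`, `Matrix.charpoly_map`.
-/

namespace Pool.Agent.Lib.MP_06b9d2_gr

open UpperHalfPlane Pool.Agent.L1 Pool.Agent.Lib.MP_06b9d2_nt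
open scoped MatrixGroups ModularForm

/-- a cusp form is a combination of the basis vectors of positive index -/
private lemma SC_ex (R : Type) [CommRing R] (k : ℕ) {g : PowerSeries R} (hg : g ∈ SC R k) :
    ∃ c : Fin (dd k - 1) → R, g = ∑ j, c j • bas R k ((j : ℕ) + 1) := by
  obtain ⟨hg1, hg2⟩ := Submodule.mem_inf.1 hg
  have h0 : PowerSeries.coeff 0 g = 0 := LinearMap.mem_ker.1 hg2
  obtain ⟨c, hc⟩ := mem_ML_iff.1 hg1
  rcases Nat.eq_zero_or_pos (dd k) with hd | hd
  · refine ⟨0, ?_⟩
    have h1 : g = 0 := by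
      rw [hc]
      refine Finset.sum_eq_zero fun j hj => ?_
      rw [Finset.mem_range] at hj
      omega
    rw [h1]
    symm
    refine Finset.sum_eq_zero fun j _ => ?_
    rw [Pi.zero_apply, zero_smul]
  · refine ⟨fun j => c ((j : ℕ) + 1), ?_⟩
    have h1 : ∑ j ∈ Finset.range (dd k), c j • bas R k j =
        ∑ j ∈ Finset.range (dd k - 1), c (j + 1) • bas R k (j + 1) + c 0 • bas R k 0 := by
      rw [← Finset.sum_range_succ' (fun j => c j • bas R k j), Nat.sub_add_cancel hd]
    have h2 : c 0 = 0 := by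
      rw [hc, h1, map_add, map_sum, Finset.sum_eq_zero, zero_add, PowerSeries.coeff_smul,
        coeff_bas_self, smul_eq_mul, mul_one] at h0
      · exact h0
      · intro j _
        rw [PowerSeries.coeff_smul, coeff_bas_lt (Nat.succ_pos _), smul_zero]
    rw [hc, h1, h2, zero_smul, add_zero]
    exact (Fin.sum_univ_eq_sum_range (fun j => c (j + 1) • bas R k (j + 1)) (dd k - 1)).symm

private lemma bas_SC (R : Type) [CommRing R] (k : ℕ) (j : Fin (dd k - 1)) :
    bas R k ((j : ℕ) + 1) ∈ SC R k := by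
  refine Submodule.mem_inf.2 ⟨Submodule.subset_span ⟨⟨(j : ℕ) + 1, by have := j.2; omega⟩, rfl⟩, ?_⟩
  rw [LinearMap.mem_ker]
  exact coeff_bas_lt (Nat.succ_pos _)

private lemma li_SC (R : Type) [CommRing R] (k : ℕ) :
    LinearIndependent R (fun j : Fin (dd k - 1) => bas R k ((j : ℕ) + 1)) :=
  (linearIndependent_bas (R := R) k).comp
    (fun j : Fin (dd k - 1) => (⟨(j : ℕ) + 1, by have := j.2; omega⟩ : Fin (dd k)))
    (by
      intro a b hab
      have h2 := congrArg Fin.val hab
      apply Fin.ext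
      simpa using h2)

private lemma ML_SC (R : Type) [CommRing R] (k : ℕ) (c : Fin (dd k - 1) → R) :
    ∑ j, c j • bas R k ((j : ℕ) + 1) ∈ SC R k :=
  Submodule.sum_mem _ fun j _ => Submodule.smul_mem _ _ (bas_SC R k j)

theorem chp (K : Type) [Field K] (k : ℕ) (M : Matrix (Fin (dd k - 1)) (Fin (dd k - 1)) ℤ)
    (hM : ∀ j : Fin (dd k - 1), H2 ℤ k (bas ℤ k ((j : ℕ) + 1)) =
        ∑ i : Fin (dd k - 1), M i j • bas ℤ k ((i : ℕ) + 1)) :
    ∃ (_ : FiniteDimensional K (SC K k)) (U : Module.End K (SC K k)),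
      (∀ f : SC K k, (U f : PowerSeries K) = H2 K k f) ∧
      LinearMap.charpoly U = M.charpoly.map (Int.castRingHom K) := by
  have hMK : ∀ j : Fin (dd k - 1), H2 K k (bas K k ((j : ℕ) + 1)) =
      ∑ i : Fin (dd k - 1), ((M i j : ℤ) : K) • bas K k ((i : ℕ) + 1) := by
    intro j
    have h1 := congrArg (PowerSeries.map (Int.castRingHom K)) (hM j)
    rw [map_H2, map_bas, map_sum] at h1
    rw [h1]
    refine Finset.sum_congr rfl fun i _ => ?_
    rw [Int.cast_smul_eq_zsmul K]
    rw [map_zsmul, map_bas]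
  -- the basis
  let v : Fin (dd k - 1) → SC K k := fun j => ⟨bas K k ((j : ℕ) + 1), bas_SC K k j⟩
  have hv : LinearIndependent K v := by
    have h1 : LinearIndependent K ((SC K k).subtype ∘ v) := li_SC K k
    exact LinearIndependent.of_comp _ h1
  have hsp : ⊤ ≤ Submodule.span K (Set.range v) := by
    rintro ⟨g, hg⟩ _
    obtain ⟨c, hc⟩ := SC_ex K k hg
    have h2 : (⟨g, hg⟩ : SC K k) = ∑ j, c j • v j := by
      apply Subtype.ext
      rw [Submodule.coe_sum]
      simp only [Submodule.coe_smul, v]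
      exact hc
    rw [h2]
    exact Submodule.sum_mem _ fun j _ => Submodule.smul_mem _ _ (Submodule.subset_span ⟨j, rfl⟩)
  let b : Module.Basis (Fin (dd k - 1)) K (SC K k) := Module.Basis.mk hv hsp
  have hb : ∀ j, b j = v j := fun j => Module.Basis.mk_apply hv hsp j
  -- stability
  have hst : ∀ f ∈ SC K k, H2 K k f ∈ SC K k := by
    intro f hf
    obtain ⟨c, hc⟩ := SC_ex K k hf
    rw [hc, map_sum]
    refine Submodule.sum_mem _ fun j _ => ?_
    rw [map_smul, hMK]
    exact Submodule.smul_mem _ _ (ML_SC K k _)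
  let U : Module.End K (SC K k) := (H2 K k).restrict hst
  have hfd : FiniteDimensional K (SC K k) := Module.Finite.of_basis b
  refine ⟨hfd, U, fun f => rfl, ?_⟩
  rw [← LinearMap.charpoly_toMatrix U b, ← Matrix.charpoly_map]
  congr 1
  ext i j
  rw [LinearMap.toMatrix_apply, Matrix.map_apply]
  have h3 : U (b j) = ∑ i, ((M i j : ℤ) : K) • b i := by
    apply Subtype.ext
    rw [Submodule.coe_sum]
    simp only [hb, Submodule.coe_smul]
    exact hMK j
  rw [h3, b.repr_sum_self]
  rfl

end Pool.Agent.Lib.MP_06b9d2_gr
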