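import Pool.Agent.Lib.MP_06b9d2_gr.PG
import Pool.Agent.Lib.MP_06b9d2_gr.PH
import Pool.Agent.Lib.MP_06b9d2_gr.PI

/-!
Module GR-PJ. The multiplicity of `2 ^ e v` in weight `k`.

If `k < k0 + (p + 1) * ((p - 3) / 2)` there is nothing to prove. `stt` gives `k1`, `i`. `k0`, `k1` are even (`SC K k1 ≠ 0`, `even_of_lt_dd`), `k - k0 = 2 t`, `e = t % ((p - 1) / 2)`, `j_l = e + l (p - 1)`, `w_l = k1 + j_l (p + 1)`; `e ≤ (p - 3) / 2`, so for `k0 + (p + 1) * ((p - 3) / 2) + (p ^ 2 - 1) * m ≤ k` we have `w_l ≤ k` for all `l ≤ m`: use `lin` with `m + 1`. For these `l` `p - 1 ∣ k - w_l` (`k - k1 = 2 t + i (p - 1)`, `w_l - k1 = 2 j_l + j_l (p - 1)`, `t ≡ e` modulo `(p - 1) / 2`), `2 ^ (j_l) = 2 ^ e` in `K`. `lin` for `U` on `SC K k` (`chp`): `B l` = the forms in `SC K w_l`, `A l` = the forms in `Lo K p w_l` (`comap` by `SC K k ↪ PowerSeries K`; for `l > m` put `⊤`), `x l = e2 ^ (j_l) * h` (`chn`); `H2 K k = H2 K w_l` (`H2_cast`), the stability by `H2_mem`; `B l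 ≤ A (l + 1)`: `w_(l+1) - (p - 1) - w_l = (p - 1) p` is a multiple of `p - 1` (`SC_le`).
-/

namespace Pool.Agent.Lib.MP_06b9d2_gr

open UpperHalfPlane Pool.Agent.L1 Pool.Agent.Lib.MP_06b9d2_nt
open scoped MatrixGroups ModularForm

private theorem pj_even {K : Type} [Field K] {k : ℕ} {h : PowerSeries K} (hh : h ∈ SC K k)
    (h0 : h ≠ 0) : Even k := by
  rcases Nat.eq_zero_or_pos (dd k) with hd | hd
  · exfalso
    apply h0
    have h1 : h ∈ ML K k := hh.1
    unfold ML at h1
    have : IsEmpty (Fin (dd k)) := by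
      rw [hd]
      infer_instance
    rw [Set.range_eq_empty, Submodule.span_empty] at h1
    exact (Submodule.mem_bot K).1 h1
  · exact even_of_lt_dd hd

private theorem pj_two {p : ℕ} [Fact p.Prime] (h5 : 5 ≤ p) (K : Type) [Field K]
    [Algebra (ZMod p) K] (e l : ℕ) : (2 : K) ^ (e + l * (p - 1)) = 2 ^ e := by
  have h1 : (2 : ZMod p) ≠ 0 := by
    intro h
    have h2 : ((2 : ℕ) : ZMod p) = 0 := by exact_mod_cast h
    rw [ZMod.natCast_eq_zero_iff] at h2
    have := Nat.le_of_dvd (by norm_num) h2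
    omega
  have h2 : (2 : ZMod p) ^ (p - 1) = 1 := ZMod.pow_card_sub_one_eq_one h1
  have h3 : (2 : K) ^ (p - 1) = 1 := by
    have := congrArg (algebraMap (ZMod p) K) h2
    rwa [map_pow, map_one, map_ofNat] at this
  rw [pow_add, mul_comm l, pow_mul, h3, one_pow, mul_one]

/-- the weights -/
private theorem pj_w {P k k0 k1 i t e q l : ℕ} (hP : 2 ≤ P) (h1 : k0 = k1 + i * (2 * P))
    (h2 : k = k0 + 2 * t) (h3 : t = e + P * q)
    (h4 : k1 + (e + l * (2 * P)) * (2 * P + 2) ≤ k) :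
    ∃ n : ℕ, k = k1 + (e + l * (2 * P)) * (2 * P + 2) + n * (2 * P) := by
  have h5 : k = k1 + 2 * e + (2 * P) * (i + q) := by
    rw [h2, h1, h3]
    ring
  have h6 : k1 + (e + l * (2 * P)) * (2 * P + 2) = k1 + 2 * e + (2 * P) * (e + l * (2 * P + 2)) := by
    ring
  have h7 : e + l * (2 * P + 2) ≤ i + q := by
    by_contra hcon
    rw [not_le] at hcon
    have h8 : (2 * P) * (i + q) < (2 * P) * (e + l * (2 * P + 2)) :=
      Nat.mul_lt_mul_of_pos_left hcon (by omega)
    omega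
  obtain ⟨n, hn⟩ := Nat.exists_eq_add_of_le h7
  refine ⟨n, ?_⟩
  rw [h6, h5, hn]
  ring

theorem mul {p : ℕ} [Fact p.Prime] (h5 : 5 ≤ p) (K : Type) [Field K] [Algebra (ZMod p) K]
    (k0 : ℕ) (hk0 : 1 ≤ k0) (v : K) (h : PowerSeries K) (hh : h ∈ SC K k0) (h0 : h ≠ 0)
    (hv : H2 K k0 h = v • h) (k : ℕ) (hk : Even k)
    (M : Matrix (Fin (dd k - 1)) (Fin (dd k - 1)) ℤ)
    (hM : ∀ j : Fin (dd k - 1), H2 ℤ k (bas ℤ k ((j : ℕ) + 1)) =
        ∑ i : Fin (dd k - 1), M i j • bas ℤ k ((i : ℕ) + 1)) :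
    ∃ e : ℕ, ∀ m : ℕ, k0 + (p + 1) * ((p - 3) / 2) + (p ^ 2 - 1) * m ≤ k →
      m + 1 ≤ (M.charpoly.map (Int.castRingHom K)).rootMultiplicity (2 ^ e * v) := by
  classical
  rcases Nat.lt_or_ge k (k0 + (p + 1) * ((p - 3) / 2)) with hlt0 | hlt
  · exact ⟨0, fun m hm => absurd ((Nat.le_add_right _ _).trans hm) (not_le.2 hlt0)⟩
  have hprime : p.Prime := Fact.out
  have hodd : p % 2 = 1 := by
    rcases hprime.eq_two_or_odd with h2 | h2
    · omega
    · exact h2
  obtain ⟨P, hP⟩ : ∃ P, p = 2 * P + 1 := ⟨p / 2, by omega⟩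
  have hP2 : 2 ≤ P := by omega
  have hPp : (p - 3) / 2 = P - 1 := by omega
  have hp1 : p - 1 = 2 * P := by omega
  have hpp : p + 1 = 2 * P + 2 := by omega
  rw [hPp] at hlt
  obtain ⟨k1, i, hk01, hk1, hh1, hh2, hv1⟩ := stt h5 K k0 hk0 v h hh h0 hv
  have he0 : Even k0 := pj_even hh h0
  obtain ⟨t, ht⟩ : ∃ t, k = k0 + 2 * t := by
    obtain ⟨x, hx⟩ := hk
    obtain ⟨y, hy⟩ := he0
    exact ⟨x - y, by omega⟩
  obtain ⟨e, q, htq, heP⟩ : ∃ e q, t = e + P * q ∧ e < P :=
    ⟨t % P, t / P, (Nat.mod_add_div t P).symm, Nat.mod_lt _ (by omega)⟩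
  have hD : p ^ 2 - 1 = 2 * P * (2 * P + 2) := by
    have : p ^ 2 = 2 * P * (2 * P + 2) + 1 := by
      rw [hP]
      ring
    omega
  have hE : e * (2 * P + 2) ≤ (p + 1) * (P - 1) := by
    rw [hpp, mul_comm]
    exact Nat.mul_le_mul_left _ (by omega)
  refine ⟨e, fun m' hm' => ?_⟩
  rw [hPp, hD] at hm'
  set m : ℕ := m' + 1 with hm
  have hwl : ∀ l < m, k1 + (e + l * (2 * P)) * (2 * P + 2) ≤ k := by
    intro l hl
    have h2 : l * (2 * P * (2 * P + 2)) ≤ 2 * P * (2 * P + 2) * m' := by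
      rw [mul_comm l]
      exact Nat.mul_le_mul_left _ (by omega)
    have h3 : k1 + (e + l * (2 * P)) * (2 * P + 2) =
        k1 + e * (2 * P + 2) + l * (2 * P * (2 * P + 2)) := by ring
    have h4 : k1 ≤ k0 := by omega
    omega
  have hwn : ∀ l < m, ∃ n : ℕ, k = k1 + (e + l * (p - 1)) * (p + 1) + n * (p - 1) := by
    intro l hl
    rw [hp1, hpp]
    rw [hp1] at hk01
    exact pj_w hP2 hk01 ht htq (hwl l hl)
  obtain ⟨_, U, hU, hchar⟩ := chp K k M hM
  -- the filtration
  set w : ℕ → ℕ := fun l => k1 + (e + l * (p - 1)) * (p + 1) with hw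
  have hw1 : ∀ l, 1 ≤ w l := fun l => le_trans hk1 (Nat.le_add_right _ _)
  have hwnn : ∀ l < m, ∃ n : ℕ, k = w l + n * (p - 1) := hwn
  have hSC : ∀ l < m, SC K (w l) ≤ SC K k := by
    intro l hl
    obtain ⟨n, hn⟩ := hwnn l hl
    rw [hn]
    exact SC_le h5 K (w l) n
  have hH : ∀ l < m, H2 K k = H2 K (w l) := by
    intro l hl
    obtain ⟨n, hn⟩ := hwnn l hl
    rw [hn]
    exact H2_cast h5 K (w l) n (hw1 l)
  set A : ℕ → Submodule K (SC K k) := fun l =>
    if l < m then (Lo K p (w l)).comap (SC K k).subtype else ⊤ with hA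
  set B : ℕ → Submodule K (SC K k) := fun l =>
    if l < m then (SC K (w l)).comap (SC K k).subtype else ⊤ with hB
  have hLo : ∀ l, Lo K p (w l) ≤ SC K (w l) := by
    intro l
    unfold Lo
    split_ifs with h1
    · have h2 := SC_le h5 K (w l - (p - 1)) 1
      rwa [one_mul, Nat.sub_add_cancel h1] at h2
    · exact bot_le
  have hBA : ∀ l, B l ≤ A (l + 1) := by
    intro l
    rw [hA, hB]
    by_cases h1 : l + 1 < m
    · simp only [if_pos h1, if_pos (show l < m by omega)]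
      refine Submodule.comap_mono ?_
      have h2 : w (l + 1) = w l + p * (p - 1) + (p - 1) := by
        simp only [hw]
        rw [hp1, hpp, hP]
        ring
      unfold Lo
      rw [if_pos (by omega), h2, Nat.add_sub_cancel]
      exact SC_le h5 K (w l) p
    · simp only [if_neg h1]
      exact le_top
  have hAB : ∀ l, A l ≤ B l := by
    intro l
    rw [hA, hB]
    by_cases h1 : l < m
    · simp only [if_pos h1]
      exact Submodule.comap_mono (hLo l)
    · simp only [if_neg h1]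
      exact le_refl _
  have hAU : ∀ l, ∀ y ∈ A l, U y ∈ A l := by
    intro l y hy
    simp only [hA] at hy ⊢
    by_cases h1 : l < m
    · rw [if_pos h1, Submodule.mem_comap] at hy ⊢
      have e1 : (SC K k).subtype (U y) = H2 K k (y : PowerSeries K) := hU y
      have e2' : (SC K k).subtype y = (y : PowerSeries K) := rfl
      rw [e1]
      rw [e2'] at hy
      unfold Lo at hy ⊢
      split_ifs at hy ⊢ with h2
      · rcases Nat.eq_zero_or_pos (w l - (p - 1)) with h3 | h3
        · rw [h3] at hy ⊢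
          rcases dl_div K 0 _ hy with h4 | ⟨j, f', h4, -⟩
          · rw [h4, map_zero]
            exact Submodule.zero_mem _
          · omega
        · obtain ⟨n, hn⟩ := hwnn l h1
          have h4 : k = (w l - (p - 1)) + (n + 1) * (p - 1) := by
            rw [add_mul, one_mul]
            omega
          have h5' : H2 K k = H2 K (w l - (p - 1)) := by
            conv_lhs => rw [h4]
            exact H2_cast h5 K _ (n + 1) h3
          rw [h5']
          exact H2_mem K _ _ hy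
      · rw [(Submodule.mem_bot K).1 hy, map_zero]
        exact Submodule.zero_mem _
    · rw [if_neg h1]
      exact Submodule.mem_top
  have hxex : ∀ l, ∃ y : SC K k, l < m → (y : PowerSeries K) = e2 K ^ (e + l * (p - 1)) * h := by
    intro l
    by_cases h1 : l < m
    · exact ⟨⟨e2 K ^ (e + l * (p - 1)) * h,
        hSC l h1 (chn h5 K k1 hk1 v h hh1 hh2 hv1 (e + l * (p - 1))).1⟩, fun _ => rfl⟩
    · exact ⟨0, fun h2 => absurd h2 h1⟩
  choose y hy using hxex
  have hfin := lin K (SC K k) U (2 ^ e * v) m A B hBA hAB hAU y (by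
    intro l hl
    obtain ⟨c1, c2, c3⟩ := chn h5 K k1 hk1 v h hh1 hh2 hv1 (e + l * (p - 1))
    have e1 := hy l hl
    refine ⟨?_, ?_, ?_⟩
    · simp only [hB]
      rw [if_pos hl, Submodule.mem_comap]
      show (y l : PowerSeries K) ∈ _
      rw [e1]
      exact c1
    · simp only [hA]
      rw [if_pos hl, Submodule.mem_comap]
      intro hcon
      apply c2
      have hcon' : (y l : PowerSeries K) ∈ Lo K p (w l) := hcon
      rw [e1] at hcon'
      exact hcon'
    · simp only [hA]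
      rw [if_pos hl, Submodule.mem_comap]
      have e3 : (SC K k).subtype (U (y l) - (2 ^ e * v) • y l) =
          H2 K k (y l : PowerSeries K) - (2 ^ e * v) • (y l : PowerSeries K) := by
        rw [map_sub, map_smul]
        show ((U (y l) : SC K k) : PowerSeries K) - _ = _
        rw [hU]
        rfl
      rw [e3, e1, hH l hl]
      rw [pj_two h5 K e l] at c3
      exact c3)
  rw [hchar] at hfin
  exact hfin

end Pool.Agent.Lib.MP_06b9d2_gr
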