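import Pool.Agent.Lib.MP_06b9d2_gr.Defs
import Pool.Agent.Lib.MP_06b9d2_lf.Trans
import Pool.Agent.Lib.MP_06b9d2_tls.PrW

/-!
Module GR-PL. The eigenvalues of degree `≥ r`; transfer from `T'` to `T` if `T'` is a polynomial in `T`.

`dg_trans`: for `β ∈ Dg T' r` the spectral mapping theorem (as in `fc_trans`, `MP_06b9d2_lf/Trans.lean`) gives an eigenvalue `α` of `T` with `β = Q (α)`; the degree of `α` is at least that of `β` (`fc_trans` has the argument), so `Dg T' r ⊆ (fun α => aeval α Q) '' Dg T r`; `Set.ncard_le_ncard`, `Set.ncard_image_le`; `Dg T r` is finite. `dg_hecke`: `hecke_rat` as in `fc_hecke`. `nod`: the eigenspaces of `T_2` are one-dimensional and `T_2` is diagonalizable, so the roots of the characteristic polynomial are simple (`MP_06b9d2_tls.concl` or `kerOne` for `n = 2`; see `MP_06b9d2_tls/Concl.lean`, `HPoly.lean`; `2 % 9 = 2`).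
-/

namespace Pool.Agent.Lib.MP_06b9d2_gr

open UpperHalfPlane Pool.Agent.L1 Pool.Agent.Lib.MP_06b9d2_nt
open scoped MatrixGroups ModularForm IntermediateField

/-- the eigenvalues of degree at least `r` over `ℚ` -/
def Dg {V : Type*} [AddCommGroup V] [Module ℂ V] (T : V →ₗ[ℂ] V) (r : ℕ) : Set ℂ :=
  {α | Module.End.HasEigenvalue T α ∧ r ≤ (minpoly ℚ α).natDegree}

theorem dg_trans {V : Type*} [AddCommGroup V] [Module ℂ V] [Module.Finite ℂ V]
    (T T' : V →ₗ[ℂ] V) (Q P : Polynomial ℚ) (hQ : T' = Polynomial.aeval T (Q.map (algebraMap ℚ ℂ)))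
    (hP : P.map (algebraMap ℚ ℂ) = LinearMap.charpoly T) (r : ℕ) :
    (Dg T' r).ncard ≤ (Dg T r).ncard := by
  classical
  have hfin : (Dg T r).Finite :=
    (Module.End.finite_hasEigenvalue T).subset fun α hα => hα.1
  have hP0 : P ≠ 0 := by
    rintro rfl
    rw [Polynomial.map_zero] at hP
    exact (LinearMap.charpoly_monic T).ne_zero hP.symm
  have hsub : Dg T' r ⊆ (fun α => Polynomial.aeval α Q) '' Dg T r := by
    rintro β ⟨hev, hr⟩
    have hnt : Nontrivial V := by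
      obtain ⟨v, hv⟩ := hev.exists_hasEigenvector
      exact ⟨v, 0, hv.2⟩
    have hσ : β ∈ spectrum ℂ T' := hev.mem_spectrum
    have hne : (spectrum ℂ T).Nonempty := by
      obtain ⟨μ, hμ⟩ := Module.End.exists_eigenvalue T
      exact ⟨μ, hμ.mem_spectrum⟩
    rw [hQ, spectrum.map_polynomial_aeval_of_nonempty T _ hne] at hσ
    obtain ⟨α, hα, hαβ⟩ := hσ
    have hαe : Module.End.HasEigenvalue T α := Module.End.hasEigenvalue_iff_mem_spectrum.2 hα
    have hαr : (LinearMap.charpoly T).IsRoot α := by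
      rw [← Module.End.hasEigenvalue_iff_isRoot_charpoly]
      exact hαe
    have hαP : Polynomial.aeval α P = 0 := by
      rw [Polynomial.aeval_def, ← Polynomial.eval_map, hP]
      exact hαr
    have hαa : IsAlgebraic ℚ α := ⟨P, hP0, hαP⟩
    have hαi : IsIntegral ℚ α := hαa.isIntegral
    have hαβ' : Polynomial.aeval α Q = β := by
      rw [← hαβ, Polynomial.aeval_def, ← Polynomial.eval_map]
    refine ⟨α, ⟨hαe, hr.trans ?_⟩, hαβ'⟩
    let γ : ℚ⟮α⟯ := IntermediateField.AdjoinSimple.gen ℚ α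
    let b : ℚ⟮α⟯ := Polynomial.aeval γ Q
    have hb : algebraMap ℚ⟮α⟯ ℂ b = β := by
      rw [← hαβ', ← Polynomial.aeval_algebraMap_apply]
      rfl
    have : FiniteDimensional ℚ ℚ⟮α⟯ := IntermediateField.adjoin.finiteDimensional hαi
    have h1 : minpoly ℚ β = minpoly ℚ b := by
      rw [← hb]
      exact minpoly.algebraMap_eq (algebraMap ℚ⟮α⟯ ℂ).injective b
    rw [h1, ← IntermediateField.adjoin.finrank hαi]
    exact minpoly.natDegree_le b
  exact (Set.ncard_le_ncard hsub (hfin.image _)).trans (Set.ncard_image_le hfin)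

open Pool.Agent.Lib.MP_06b9d2_tls (KerOne) in
theorem dg_hecke {n : ℕ} (hn : 1 ≤ n) (H : KerOne n) (k : ℤ) (hk : Even k) (r m : ℕ)
    (h : ∀ [Module.Finite ℂ (CuspForm 𝒮ℒ k)] (T : CuspForm 𝒮ℒ k →ₗ[ℂ] CuspForm 𝒮ℒ k),
      IsHecke k 2 T → m ≤ (Dg T r).ncard)
    (Γ : Subgroup (GL (Fin 2) ℝ)) (hΓ : Γ = 𝒮ℒ) [Γ.HasDetOne]
    [Module.Finite ℂ (CuspForm Γ k)] (T : CuspForm Γ k →ₗ[ℂ] CuspForm Γ k)
    (hT : ∀ (f : CuspForm Γ k) (τ : UpperHalfPlane),
      T f τ = ∑ a ∈ n.divisors, ∑ b ∈ Finset.range (n / a),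
        ((n : ℂ) ^ (k - 1) * ((n / a : ℕ) : ℂ) ^ (-k)) *
          f (UpperHalfPlane.ofComplex (((a : ℂ) * (τ : ℂ) + (b : ℂ)) / ((n / a : ℕ) : ℂ)))) :
    m ≤ (Dg T r).ncard := by
  subst hΓ
  have : NeZero n := ⟨by omega⟩
  obtain ⟨T', hT'⟩ := Pool.Agent.Lib.MP_06b9d2_p2.hecke_ex k 2 (by norm_num)
  obtain ⟨Q, hQ⟩ := Pool.Agent.Lib.MP_06b9d2_tls.hecke_rat (m := 2) H k hk T T' hT hT'
  obtain ⟨⟨F, -, hF, -⟩, -⟩ := Pool.Agent.Lib.MP_06b9d2_tls.concl hn H _ rfl k hk T hT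
  refine (h T' hT').trans (dg_trans T T' Q (F.map (Int.castRingHom ℚ)) hQ ?_ r)
  rw [← hF, Polynomial.map_map]
  congr 1

theorem nod {k : ℤ} (hk : Even k) [Module.Finite ℂ (CuspForm 𝒮ℒ k)]
    (T : CuspForm 𝒮ℒ k →ₗ[ℂ] CuspForm 𝒮ℒ k) (hT : IsHecke k 2 T) :
    (LinearMap.charpoly T).roots.Nodup := by
  have hK : Pool.Agent.Lib.MP_06b9d2_tls.KerOne 2 := by
    have h := Pool.Agent.Lib.MP_06b9d2_tls.kerOne_ppow 2 Nat.prime_two (Or.inl rfl) 1 le_rfl
    rwa [pow_one] at h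
  obtain ⟨-, h2, -⟩ := Pool.Agent.Lib.MP_06b9d2_tls.concl (n := 2) (by norm_num) hK _ rfl k hk T hT
  have h3 : (LinearMap.charpoly T).roots.card ≤ Module.finrank ℂ (CuspForm 𝒮ℒ k) := by
    refine (Polynomial.card_roots' _).trans ?_
    rw [LinearMap.charpoly_natDegree]
  rw [← Multiset.toFinset_card_eq_card_iff_nodup]
  refine le_antisymm (Multiset.toFinset_card_le _) ?_
  rw [h2]
  exact h3

end Pool.Agent.Lib.MP_06b9d2_gr
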