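import Pool.Agent.Lib.MP_06b9d2_gr.PJ
import Pool.Agent.Lib.MP_06b9d2_gr.Lft
import Pool.Agent.Lib.MP_06b9d2_gr.PL
import Pool.Agent.Lib.MP_06b9d2_gr.Eg
import Pool.Agent.Lib.MP_06b9d2_gr.Hm

/-!
Module GX-PMG. Propagation, Galois form: as `PM.lean` (`prop`) with `lft` instead of `cnt`.

`2 ^ e * v` has the same degree as `v` (`2 ^ e` is a nonzero element of `ZMod p`); `P = M.charpoly.map ℚ` by injectivity of `Polynomial.map`.
-/

namespace Pool.Agent.Lib.MP_06b9d2_gr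

open UpperHalfPlane Pool.Agent.L1 Pool.Agent.Lib.MP_06b9d2_nt
open scoped MatrixGroups ModularForm

private theorem PMG_le {p : ℕ} [Fact p.Prime] (c : ZMod p) (hc : c ≠ 0)
    (v w : AlgebraicClosure (ZMod p)) (hw : algebraMap (ZMod p) (AlgebraicClosure (ZMod p)) c * w = v) :
    (minpoly (ZMod p) w).natDegree ≤ (minpoly (ZMod p) v).natDegree := by
  have hint : IsIntegral (ZMod p) v := (AlgebraicClosure.isAlgebraic (ZMod p)).isIntegral.isIntegral v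
  have h0 : (minpoly (ZMod p) v).comp (Polynomial.C c * Polynomial.X) ≠ 0 := by
    intro h0
    rcases Polynomial.comp_eq_zero_iff.1 h0 with h1 | ⟨_, h1⟩
    · exact minpoly.ne_zero hint h1
    · have h2 := congrArg Polynomial.natDegree h1
      rw [Polynomial.natDegree_C_mul_X _ hc, Polynomial.natDegree_C] at h2
      exact one_ne_zero h2
  have h1 : Polynomial.aeval w ((minpoly (ZMod p) v).comp (Polynomial.C c * Polynomial.X)) = 0 := by
    rw [Polynomial.aeval_comp, map_mul, Polynomial.aeval_C, Polynomial.aeval_X, hw, minpoly.aeval]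
  have h3 := Polynomial.natDegree_le_natDegree (minpoly.degree_le_of_ne_zero (ZMod p) w h0 h1)
  rwa [Polynomial.natDegree_comp, Polynomial.natDegree_C_mul_X _ hc, mul_one] at h3

theorem propG {p : ℕ} [Fact p.Prime] (h5 : 5 ≤ p) (k0 : ℕ) (hk0 : 1 ≤ k0)
    [Module.Finite ℂ (CuspForm 𝒮ℒ (k0 : ℤ))]
    (T0 : CuspForm 𝒮ℒ (k0 : ℤ) →ₗ[ℂ] CuspForm 𝒮ℒ (k0 : ℤ)) (hT0 : IsHecke (k0 : ℤ) 2 T0)
    (v : AlgebraicClosure (ZMod p))
    (hv : ∀ F : Polynomial ℤ, F.map (Int.castRingHom ℂ) = LinearMap.charpoly T0 →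
      Polynomial.aeval v F = 0)
    (k : ℤ) (hk : Even k) [Module.Finite ℂ (CuspForm 𝒮ℒ k)]
    (T : CuspForm 𝒮ℒ k →ₗ[ℂ] CuspForm 𝒮ℒ k) (hT : IsHecke k 2 T) (m : ℕ)
    (hm : (k0 : ℤ) + ((p : ℤ) + 1) * (((p : ℤ) - 3) / 2) + ((p : ℤ) ^ 2 - 1) * m ≤ k)
    (P : Polynomial ℚ) (hP : P.map (algebraMap ℚ ℂ) = LinearMap.charpoly T) :
    ∃ σ : P.Gal, (minpoly (ZMod p) v).natDegree * (m + 1) ≤
      Cy P σ (minpoly (ZMod p) v).natDegree := by
  classical
  have hpp : p.Prime := Fact.out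
  have hodd : p % 2 = 1 := by
    rcases hpp.eq_two_or_odd with h2 | h2
    · omega
    · exact h2
  obtain ⟨q, hq⟩ : ∃ q, p = 2 * q + 3 := ⟨(p - 3) / 2, by omega⟩
  have hq1 : (p - 3) / 2 = q := by omega
  have hq2 : ((p : ℤ) - 3) / 2 = q := by omega
  have hk1 : 1 ≤ k := by
    have h1 : (0 : ℤ) ≤ ((p : ℤ) + 1) * (((p : ℤ) - 3) / 2) := by
      rw [hq2]
      positivity
    have h2 : (0 : ℤ) ≤ ((p : ℤ) ^ 2 - 1) * m := by
      refine mul_nonneg ?_ (by positivity)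
      have h3 : (5 : ℤ) ≤ p := by exact_mod_cast h5
      nlinarith
    have h3 : (1 : ℤ) ≤ k0 := by exact_mod_cast hk0
    linarith
  obtain ⟨k', rfl⟩ : ∃ k' : ℕ, k = (k' : ℤ) := ⟨k.toNat, by omega⟩
  have hk' : Even k' := by
    rwa [Int.even_coe_nat] at hk
  obtain ⟨M0, hM01, hM02⟩ := Pool.Agent.Lib.MP_06b9d2_gr.hm k0 T0 hT0
  obtain ⟨M, hM1, hM2⟩ := Pool.Agent.Lib.MP_06b9d2_gr.hm k' T hT
  obtain ⟨h, hh, hHh, m1, hm1, hmd, hmne⟩ :=
    eg (AlgebraicClosure (ZMod p)) k0 M0 hM02 v (hv _ hM01.symm)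
  have h0 : h ≠ 0 := by
    rintro rfl
    exact hmne (map_zero _)
  obtain ⟨e, he⟩ := mul h5 (AlgebraicClosure (ZMod p)) k0 hk0 v h hh h0 hHh k' hk' M hM2
  have hle : k0 + (p + 1) * ((p - 3) / 2) + (p ^ 2 - 1) * m ≤ k' := by
    have h1 : (((p ^ 2 - 1 : ℕ) : ℕ) : ℤ) = (p : ℤ) ^ 2 - 1 := by
      rw [Nat.cast_sub (Nat.one_le_pow _ _ (by omega))]
      push_cast
      ring
    have h2 : ((k0 + (p + 1) * ((p - 3) / 2) + (p ^ 2 - 1) * m : ℕ) : ℤ) ≤ (k' : ℤ) := by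
      rw [hq1]
      rw [hq2] at hm
      push_cast [h1]
      exact hm
    exact_mod_cast h2
  have h1 := he m hle
  have h20 : (2 : ZMod p) ≠ 0 := by
    intro h
    have h3 : ((2 : ℕ) : ZMod p) = 0 := by exact_mod_cast h
    rw [ZMod.natCast_eq_zero_iff] at h3
    have := Nat.le_of_dvd two_pos h3
    omega
  have hw0 : (2 : ZMod p) ^ e ≠ 0 := pow_ne_zero _ h20
  have hdeg : (minpoly (ZMod p) (2 ^ e * v)).natDegree = (minpoly (ZMod p) v).natDegree := by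
    have hmap : algebraMap (ZMod p) (AlgebraicClosure (ZMod p)) ((2 : ZMod p) ^ e) = 2 ^ e := by
      rw [map_pow, map_ofNat]
    refine le_antisymm (PMG_le _ (inv_ne_zero hw0) _ _ ?_) (PMG_le _ hw0 _ _ ?_)
    · rw [map_inv₀, hmap, ← mul_assoc, inv_mul_cancel₀, one_mul]
      rw [← hmap]
      exact (map_ne_zero_iff _ (algebraMap (ZMod p) (AlgebraicClosure (ZMod p))).injective).2 hw0
    · rw [hmap]
  have hnod : (M.charpoly.map (Int.castRingHom ℂ)).roots.Nodup := by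
    rw [← hM1]
    exact nod hk T hT
  have hPM : P = M.charpoly.map (Int.castRingHom ℚ) := by
    apply Polynomial.map_injective (algebraMap ℚ ℂ) (algebraMap ℚ ℂ).injective
    rw [hP, hM1, Polynomial.map_map]
    exact congrArg (fun g => M.charpoly.map g) (RingHom.ext_int _ _)
  obtain ⟨σ, hσ⟩ := lft M.charpoly M.charpoly_monic hnod (2 ^ e * v)
  rw [hdeg] at hσ
  subst hPM
  exact ⟨σ, (Nat.mul_le_mul_left _ h1).trans hσ⟩

end Pool.Agent.Lib.MP_06b9d2_gr
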