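import Mathlib

/-!
Module GR-Red. Reduction modulo a prime fixed by `τ`.

`δ = ∏_{i < j < n} (τ^[i] w - τ^[j] w) ≠ 0`; `B = |Norm δ|` (`Algebra.norm ℤ δ ≠ 0`). If `δ ∈ Q` then `Norm δ ∈ Q ∩ ℤ = (p)` (the norm is a multiple of `δ`, e.g. `Algebra.dvd_norm`-like or `Ideal.absNorm`: `absNorm Q ∣ |Norm δ|` and `p ∣ absNorm Q`), so `p ≤ B`. So for `p > B` the elements `τ^[i] w`, `i < n`, are distinct modulo `Q`. `k = 𝓞 N / Q` is a finite field of characteristic `p`, an algebra over `ZMod p`; `τ` induces a ring homomorphism `t : k → k` (`Ideal.quotientMap`), which is `ZMod p`-linear. Choose `ι : k →ₐ[ZMod p] AlgebraicClosure (ZMod p)` (`IsAlgClosed.lift`), `v = ι (w mod Q)`. If `aeval v G = 0` then `aeval (w mod Q) G = 0` and so `aeval (t^[i] (w mod Q)) G = 0` for all `i < n`: `n` distinct roots in `k`, `n ≤ natDegree G` (`Polynomial.card_roots'`).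
-/

namespace Pool.Agent.Lib.MP_06b9d2_gr

open NumberField

private theorem red_dvd (N : Type*) [Field N] [NumberField N] (δ : 𝓞 N) (p : ℕ) (hp : p.Prime)
    (Q : Ideal (𝓞 N)) (hQ : Q.IsPrime) (hpQ : (p : 𝓞 N) ∈ Q) (hδ : δ ∈ Q) :
    (p : ℤ) ∣ Algebra.norm ℤ δ := by
  by_contra hc
  have h1 : ((Algebra.norm ℤ δ : ℤ) : 𝓞 N) ∈ Q := by
    obtain ⟨c, hc'⟩ := Ideal.absNorm_dvd_norm_of_mem hδ
    rw [hc', Int.cast_mul]
    refine Q.mul_mem_right _ ?_
    have h2 := Ideal.absNorm_mem Q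
    exact_mod_cast h2
  have h2 : IsCoprime (p : ℤ) (Algebra.norm ℤ δ) :=
    (Prime.coprime_iff_not_dvd (Nat.prime_iff_prime_int.1 hp)).2 hc
  obtain ⟨a, b, hab⟩ := h2
  refine hQ.ne_top ((Ideal.eq_top_iff_one Q).2 ?_)
  have h3 : ((a : 𝓞 N)) * (p : 𝓞 N) + (b : 𝓞 N) * ((Algebra.norm ℤ δ : ℤ) : 𝓞 N) = 1 := by
    exact_mod_cast congrArg (fun z : ℤ => (z : 𝓞 N)) hab
  rw [← h3]
  exact Q.add_mem (Q.mul_mem_left _ hpQ) (Q.mul_mem_left _ h1)

theorem red (N : Type*) [Field N] [NumberField N] (w : 𝓞 N) (τ : 𝓞 N →+* 𝓞 N) (n : ℕ)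
    (hn : ∀ i j : ℕ, i < j → j < n → τ^[i] w ≠ τ^[j] w) :
    ∃ B : ℕ, ∀ (p : ℕ) [Fact p.Prime] (Q : Ideal (𝓞 N)), B < p → Q.IsPrime → (p : 𝓞 N) ∈ Q →
      (∀ x ∈ Q, τ x ∈ Q) →
      ∃ v : AlgebraicClosure (ZMod p), (∀ F : Polynomial ℤ, Polynomial.aeval w F = 0 →
        Polynomial.aeval v F = 0) ∧
        ∀ G : Polynomial (ZMod p), G ≠ 0 → Polynomial.aeval v G = 0 → n ≤ G.natDegree := by
  classical
  obtain ⟨δ, hδ⟩ : ∃ δ : 𝓞 N, δ = ∏ x ∈ (Finset.range n ×ˢ Finset.range n).filter (fun x => x.1 < x.2),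
      (τ^[x.1] w - τ^[x.2] w) := ⟨_, rfl⟩
  have hδ0 : δ ≠ 0 := by
    rw [hδ, Finset.prod_ne_zero_iff]
    intro x hx
    rw [Finset.mem_filter, Finset.mem_product, Finset.mem_range, Finset.mem_range] at hx
    exact sub_ne_zero.2 (hn x.1 x.2 hx.2 hx.1.2)
  have hnorm : Algebra.norm ℤ δ ≠ 0 := Algebra.norm_ne_zero_iff.2 hδ0
  refine ⟨(Algebra.norm ℤ δ).natAbs, fun p hp Q hB hQ hpQ hτ => ?_⟩
  have hpp : p.Prime := hp.out
  have hδQ : δ ∉ Q := by
    intro hmem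
    have h1 := red_dvd N δ p hpp Q hQ hpQ hmem
    have h2 : p ∣ (Algebra.norm ℤ δ).natAbs := Int.natCast_dvd.1 h1
    have h3 := Nat.le_of_dvd (Int.natAbs_pos.2 hnorm) h2
    omega
  have hne : Q ≠ ⊥ := by
    intro h
    rw [h, Ideal.mem_bot] at hpQ
    exact hpp.ne_zero (by exact_mod_cast hpQ)
  have hmax : Q.IsMaximal := hQ.isMaximal hne
  let : Field (𝓞 N ⧸ Q) := Ideal.Quotient.field Q
  have : Finite (𝓞 N ⧸ Q) := Ideal.finiteQuotientOfFreeOfNeBot Q hne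
  have : CharP (𝓞 N ⧸ Q) p := by
    rw [CharP.charP_iff_prime_eq_zero hpp, ← map_natCast (Ideal.Quotient.mk Q), Ideal.Quotient.eq_zero_iff_mem]
    exact hpQ
  let : Algebra (ZMod p) (𝓞 N ⧸ Q) := ZMod.algebra _ p
  have : Module.Finite (ZMod p) (𝓞 N ⧸ Q) := Module.Finite.of_finite
  have : Algebra.IsAlgebraic (ZMod p) (𝓞 N ⧸ Q) := Algebra.IsAlgebraic.of_finite _ _
  obtain ⟨ι⟩ : Nonempty ((𝓞 N ⧸ Q) →ₐ[ZMod p] AlgebraicClosure (ZMod p)) := ⟨IsAlgClosed.lift⟩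
  refine ⟨ι (Ideal.Quotient.mk Q w), ?_, ?_⟩
  · intro F hF
    have h1 := Polynomial.aeval_algHom_apply ((ι : (𝓞 N ⧸ Q) →+* AlgebraicClosure (ZMod p)).comp
      (Ideal.Quotient.mk Q)).toIntAlgHom w F
    rw [hF, map_zero] at h1
    exact h1
  · intro G hG hv
    have hι : Function.Injective ι := ι.toRingHom.injective
    rw [Polynomial.aeval_algHom_apply, map_eq_zero_iff ι hι] at hv
    obtain ⟨t, ht⟩ : ∃ t : (𝓞 N ⧸ Q) →+* (𝓞 N ⧸ Q), ∀ y, t (Ideal.Quotient.mk Q y) =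
        Ideal.Quotient.mk Q (τ y) :=
      ⟨Ideal.quotientMap Q τ (fun x hx => hτ x hx), fun y => Ideal.quotientMap_mk⟩
    have hroot : ∀ i : ℕ, Polynomial.aeval (Ideal.Quotient.mk Q (τ^[i] w)) G = 0 := by
      intro i
      induction i with
      | zero => exact hv
      | succ i ih =>
        rw [Function.iterate_succ_apply', ← ht, Polynomial.aeval_def]
        have h1 : t.comp (algebraMap (ZMod p) (𝓞 N ⧸ Q)) = algebraMap (ZMod p) (𝓞 N ⧸ Q) :=
          RingHom.ext_zmod _ _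
        rw [← h1, ← Polynomial.hom_eval₂, ← Polynomial.aeval_def, ih, map_zero]
    have hinj : Set.InjOn (fun i : ℕ => Ideal.Quotient.mk Q (τ^[i] w)) (Finset.range n) := by
      have key : ∀ i j : ℕ, i < j → j < n → Ideal.Quotient.mk Q (τ^[i] w) ≠ Ideal.Quotient.mk Q (τ^[j] w) := by
        intro i j hij hjn h
        rw [Ideal.Quotient.eq] at h
        refine hδQ ?_
        rw [hδ, ← Finset.mul_prod_erase _ _ (show (i, j) ∈ (Finset.range n ×ˢ Finset.range n).filter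
          (fun x => x.1 < x.2) from ?_)]
        · exact Q.mul_mem_right _ h
        · rw [Finset.mem_filter, Finset.mem_product, Finset.mem_range, Finset.mem_range]
          exact ⟨⟨hij.trans hjn, hjn⟩, hij⟩
      intro i hi j hj hij
      have hi' := Finset.mem_range.1 (Finset.mem_coe.1 hi)
      have hj' := Finset.mem_range.1 (Finset.mem_coe.1 hj)
      rcases lt_trichotomy i j with h | h | h
      · exact absurd hij (key i j h hj')
      · exact h
      · exact absurd hij.symm (key j i h hi')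
    have hcard : ((Finset.range n).image fun i : ℕ => Ideal.Quotient.mk Q (τ^[i] w)).card = n := by
      rw [Finset.card_image_of_injOn hinj, Finset.card_range]
    have hG' : G.map (algebraMap (ZMod p) (𝓞 N ⧸ Q)) ≠ 0 := (Polynomial.map_ne_zero_iff
      (algebraMap (ZMod p) (𝓞 N ⧸ Q)).injective).2 hG
    have hdeg := Polynomial.card_le_degree_of_subset_roots
      (p := G.map (algebraMap (ZMod p) (𝓞 N ⧸ Q)))
      (Z := (Finset.range n).image fun i : ℕ => Ideal.Quotient.mk Q (τ^[i] w)) (by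
        intro y hy
        rw [Finset.mem_val, Finset.mem_image] at hy
        obtain ⟨i, _, rfl⟩ := hy
        rw [Polynomial.mem_roots hG', Polynomial.IsRoot.def, Polynomial.eval_map_algebraMap]
        exact hroot i)
    rw [hcard, Polynomial.natDegree_map] at hdeg
    exact hdeg

end Pool.Agent.Lib.MP_06b9d2_gr
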