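import Pool.Agent.Lib.MP_06b9d2_gr.Frb

/-!
Module GR-Two. The Frobenius element moves `u` in an orbit of length divisible by `m`.

`N` = the normal closure of `ℚ(u)` in `PadicAlgCl 2` (or `IntermediateField.adjoin ℚ ((minpoly ℚ u).rootSet (PadicAlgCl 2))`), a Galois number field; `ι` the inclusion. `frb` gives `σ`; `x = w / 2 ^ H`, `‖ι x‖ ≤ 1`. By induction on `j`: `‖ι (σ ^ j x) - ι x ^ (2 ^ j)‖ < 1` (and so `‖ι (σ ^ j x)‖ ≤ 1`): `ι (σ (σ ^ j x)) = ι (σ ^ j x) ^ 2` modulo the maximal ideal. If `σ ^ j w = w` then `σ ^ j x = x` and `hj` gives `m ∣ j`.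
-/

namespace Pool.Agent.Lib.MP_06b9d2_gr

open NumberField

private theorem two_field (u : PadicAlgCl 2) (hu : IsIntegral ℤ u) :
    ∃ (N : Type) (_ : Field N) (_ : NumberField N) (_ : IsGalois ℚ N) (ι : N →+* PadicAlgCl 2) (w : 𝓞 N),
      ι w = u := by
  have huQ : IsIntegral ℚ u := hu.tower_top
  have hsp : ((minpoly ℚ u).map (algebraMap ℚ (PadicAlgCl 2))).Splits := IsAlgClosed.splits _
  let N : IntermediateField ℚ (PadicAlgCl 2) :=
    IntermediateField.adjoin ℚ ((minpoly ℚ u).rootSet (PadicAlgCl 2))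
  have h1 : (minpoly ℚ u).IsSplittingField ℚ N := IntermediateField.adjoin_rootSet_isSplittingField hsp
  have h2 : FiniteDimensional ℚ N := Polynomial.IsSplittingField.finiteDimensional N (minpoly ℚ u)
  have h3 : Normal ℚ N := Normal.of_isSplittingField (minpoly ℚ u)
  have h4 : IsGalois ℚ N := ⟨⟩
  have h5 : NumberField N := NumberField.of_module_finite ℚ N
  have huN : u ∈ N := by
    refine IntermediateField.subset_adjoin _ _ ?_
    rw [Polynomial.mem_rootSet]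
    exact ⟨minpoly.ne_zero huQ, minpoly.aeval ℚ u⟩
  have hint : IsIntegral ℤ (⟨u, huN⟩ : N) := by
    have h6 := (isIntegral_algHom_iff (N.val.toRingHom.toIntAlgHom) N.val.toRingHom.injective
      (x := (⟨u, huN⟩ : N))).1
    exact h6 hu
  refine ⟨N, inferInstance, h5, ?_, N.val.toRingHom, ⟨⟨u, huN⟩, hint⟩, rfl⟩
  convert h4

theorem two (u : PadicAlgCl 2) (hu : IsIntegral ℤ u) (H m : ℕ) (hx : ‖u / 2 ^ H‖ ≤ 1)
    (hj : ∀ j : ℕ, ‖(u / 2 ^ H) ^ 2 ^ j - u / 2 ^ H‖ < 1 → m ∣ j) :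
    ∃ (N : Type) (_ : Field N) (_ : NumberField N) (ι : N →+* PadicAlgCl 2) (w : 𝓞 N) (σ : N ≃ₐ[ℚ] N),
      ι w = u ∧ ∀ j : ℕ, (σ ^ j) (w : N) = w → m ∣ j := by
  obtain ⟨N, _, _, _, ι, w, hw⟩ := two_field u hu
  obtain ⟨σ, hσ⟩ := frb N ι
  refine ⟨N, inferInstance, inferInstance, ι, w, σ, hw, fun j hwj => ?_⟩
  have hna : ∀ r s : PadicAlgCl 2, ‖r + s‖ ≤ max ‖r‖ ‖s‖ := PadicAlgCl.isNonarchimedean 2
  obtain ⟨x, hx'⟩ : ∃ x : PadicAlgCl 2, x = u / 2 ^ H := ⟨_, rfl⟩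
  obtain ⟨X, hX⟩ : ∃ X : N, X = (w : N) / 2 ^ H := ⟨_, rfl⟩
  have hιX : ι X = x := by
    rw [hX, hx', map_div₀, hw, map_pow, map_ofNat]
  rw [← hx'] at hx hj
  have key : ∀ i : ℕ, ‖ι ((σ ^ i) X) - x ^ 2 ^ i‖ < 1 ∧ ‖ι ((σ ^ i) X)‖ ≤ 1 := by
    intro i
    induction i with
    | zero =>
      rw [pow_zero, pow_zero, pow_one, AlgEquiv.one_apply, hιX, sub_self, norm_zero]
      exact ⟨one_pos, hx⟩
    | succ i ih =>
      obtain ⟨ih1, ih2⟩ := ih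
      obtain ⟨Y, hY⟩ : ∃ Y : N, Y = (σ ^ i) X := ⟨_, rfl⟩
      have e1 : (σ ^ (i + 1)) X = σ Y := by
        rw [hY, pow_succ', AlgEquiv.mul_apply]
      rw [e1]
      rw [← hY] at ih1 ih2
      have h1 := hσ Y ih2
      have hxp : ‖x ^ 2 ^ i‖ ≤ 1 := by
        rw [norm_pow]
        exact pow_le_one₀ (norm_nonneg _) hx
      have h2 : ‖ι Y ^ 2 - (x ^ 2 ^ i) ^ 2‖ < 1 := by
        have e2 : ι Y ^ 2 - (x ^ 2 ^ i) ^ 2 = (ι Y - x ^ 2 ^ i) * (ι Y + x ^ 2 ^ i) := by ring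
        rw [e2, norm_mul]
        have h3 : ‖ι Y + x ^ 2 ^ i‖ ≤ 1 := (hna _ _).trans (max_le ih2 hxp)
        calc ‖ι Y - x ^ 2 ^ i‖ * ‖ι Y + x ^ 2 ^ i‖ ≤ ‖ι Y - x ^ 2 ^ i‖ * 1 :=
              mul_le_mul_of_nonneg_left h3 (norm_nonneg _)
          _ < 1 := by rw [mul_one]; exact ih1
      constructor
      · have e3 : ι (σ Y) - x ^ 2 ^ (i + 1) = (ι (σ Y) - ι Y ^ 2) + (ι Y ^ 2 - (x ^ 2 ^ i) ^ 2) := by
          rw [pow_succ 2 i, pow_mul]
          ring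
        rw [e3]
        exact lt_of_le_of_lt (hna _ _) (max_lt h1 h2)
      · have e4 : ι (σ Y) = (ι (σ Y) - ι Y ^ 2) + ι Y ^ 2 := by ring
        rw [e4]
        refine (hna _ _).trans (max_le h1.le ?_)
        rw [norm_pow]
        exact pow_le_one₀ (norm_nonneg _) ih2
  have hfix : (σ ^ j) X = X := by
    rw [hX, map_div₀, hwj, map_pow, map_ofNat]
  have h1 := (key j).1
  rw [hfix, hιX, norm_sub_rev] at h1
  exact hj j h1

end Pool.Agent.Lib.MP_06b9d2_gr
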