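import Pool.Agent.Lib.MP_4a73e4_nt.WF.NZeta

/-!
Module GR-ZA. Lower bound for the Dedekind zeta function near `1`.

As `near_one` and `zeta_upper` in `WF/NZeta.lean`: `(s - 1) * ∑' n, zt K s n` tends to `r = dedekindZeta_residue K > 0` as `s → 1+`, so it is at least `r / 2` for `1 < s < 1 + δ`; for `1 + δ ≤ s ≤ 2` use `zt K s 1 = 1` (the ideal `⊤` is the only one of norm `1`, so `cI K 1 = 1`; or only `1 ≤ cI K 1`), `sum_ideals_le` with `T = {⊤}`, so `∑' ≥ 1 ≥ δ / (s - 1)`. `C = min (r / 2) δ`.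
-/

namespace Pool.Agent.Lib.MP_06b9d2_gr

open NumberField Filter Topology

theorem low_zeta (K : Type*) [Field K] [NumberField K] : ∃ C : ℝ, 0 < C ∧ ∀ s : ℝ, s ∈ Set.Ioc (1:ℝ) 2 →
    C / (s - 1) ≤ ∑' n, MP_4a73e4_nt.WF.zt K s n := by
  have h := tendsto_sub_one_mul_dedekindZeta_nhdsGT K
  have hr := dedekindZeta_residue_pos K
  have h1 : Tendsto (fun s : ℝ => (s - 1) * (∑' n, MP_4a73e4_nt.WF.zt K s n)) (𝓝[>] 1)
      (𝓝 (dedekindZeta_residue K)) := by
    have h2 := (Complex.continuous_re.tendsto _).comp h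
    refine (h2.congr' ?_)
    filter_upwards [self_mem_nhdsWithin] with s hs
    have hs1 : (1:ℝ) < s := hs
    simp only [Function.comp]
    rw [MP_4a73e4_nt.WF.zeta_eq K s (by linarith)]
    norm_cast
  have h3 : ∀ᶠ s : ℝ in 𝓝[>] 1,
      dedekindZeta_residue K / 2 < (s - 1) * (∑' n, MP_4a73e4_nt.WF.zt K s n) :=
    h1.eventually (lt_mem_nhds (by linarith))
  rw [eventually_nhdsWithin_iff, Metric.eventually_nhds_iff] at h3
  obtain ⟨δ, hδ, h4⟩ := h3
  refine ⟨min (dedekindZeta_residue K / 2) δ, lt_min (by linarith) hδ, fun s hs => ?_⟩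
  have hs1 : 0 < s - 1 := by linarith [hs.1]
  rw [div_le_iff₀ hs1]
  by_cases hc : s < 1 + δ
  · have h5 := h4 (y := s) (by rw [Real.dist_eq, abs_lt]; constructor <;> linarith [hs.1]) hs.1
    have h6 := min_le_left (dedekindZeta_residue K / 2) δ
    rw [mul_comm]
    linarith
  · have h5 := MP_4a73e4_nt.WF.sum_ideals_le K hs.1 ({⊤} : Finset (Ideal (𝓞 K)))
    rw [Finset.sum_singleton, Ideal.absNorm_top, Nat.cast_one, Real.one_rpow] at h5
    have h6 := min_le_right (dedekindZeta_residue K / 2) δ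
    have h7 : δ ≤ s - 1 := by linarith
    nlinarith

end Pool.Agent.Lib.MP_06b9d2_gr
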