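import Pool.Agent.Lib.MP_4a73e4_nt.WF.NZeta

/-!
Module GR-ZB. One half of the Euler product of the Dedekind zeta function, for finite sums.

For a finite set `T` of nonzero ideals let `P` be the set of their prime divisors; `I = ∏ p ^ count p`
and `I ↦ count` is injective into the box of exponents at most `E`; the sum over the box is the
product of the finite geometric sums.
-/

namespace Pool.Agent.Lib.MP_06b9d2_gr

open NumberField UniqueFactorizationMonoid

theorem euler_le (K : Type*) [Field K] [NumberField K] {s : ℝ} (hs : 1 < s)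
    (T : Finset (Ideal (𝓞 K))) (hT : ∀ I ∈ T, I ≠ ⊥) :
    ∃ P : Finset (Ideal (𝓞 K)), (∀ p ∈ P, p.IsPrime ∧ p ≠ ⊥) ∧
      ∑ I ∈ T, (Ideal.absNorm I : ℝ) ^ (-s) ≤ ∏ p ∈ P, (1 - (Ideal.absNorm p : ℝ) ^ (-s))⁻¹ := by
  classical
  set P : Finset (Ideal (𝓞 K)) := T.biUnion fun I => (normalizedFactors I).toFinset with hPdef
  have hP : ∀ p ∈ P, p.IsPrime ∧ p ≠ ⊥ := by
    intro p hp
    obtain ⟨I, -, hI⟩ := Finset.mem_biUnion.mp hp
    have hpr := prime_of_normalized_factor p (Multiset.mem_toFinset.mp hI)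
    exact ⟨Ideal.isPrime_of_prime hpr, hpr.ne_zero⟩
  refine ⟨P, hP, ?_⟩
  set x : Ideal (𝓞 K) → ℝ := fun p => (Ideal.absNorm p : ℝ) ^ (-s) with hx
  have hx0 : ∀ p, 0 ≤ x p := fun p => by positivity
  have hx1 : ∀ p ∈ P, x p < 1 := by
    intro p hp
    have h0 : Ideal.absNorm p ≠ 0 := by
      rw [Ne, Ideal.absNorm_eq_zero_iff]; exact (hP p hp).2
    have h1 : Ideal.absNorm p ≠ 1 := by
      rw [Ne, Ideal.absNorm_eq_one_iff]; exact (hP p hp).1.ne_top
    have h2 : (1 : ℝ) < (Ideal.absNorm p : ℝ) := by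
      have : 1 < Ideal.absNorm p := by omega
      exact_mod_cast this
    exact Real.rpow_lt_one_of_one_lt_of_neg h2 (by linarith)
  set E : ℕ := T.sup fun I => Multiset.card (normalizedFactors I) with hE
  have hsub : ∀ I ∈ T, (normalizedFactors I).toFinset ⊆ P := fun I hI =>
    Finset.subset_biUnion_of_mem (fun I => (normalizedFactors I).toFinset) hI
  have hprod : ∀ I ∈ T, I = ∏ p ∈ P, p ^ (normalizedFactors I).count p := by
    intro I hI
    rw [← Finset.prod_multiset_count_of_subset _ _ (hsub I hI)]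
    exact (Ideal.prod_normalizedFactors_eq_self (hT I hI)).symm
  have key : ∀ I ∈ T, x I = ∏ p ∈ P.attach, x p.1 ^ (normalizedFactors I).count p.1 := by
    intro I hI
    rw [Finset.prod_attach P (fun p => x p ^ (normalizedFactors I).count p)]
    have h1 : (Ideal.absNorm I : ℝ) =
        ∏ p ∈ P, (Ideal.absNorm p : ℝ) ^ (normalizedFactors I).count p := by
      conv_lhs => rw [hprod I hI]
      rw [map_prod, Nat.cast_prod]
      exact Finset.prod_congr rfl fun p _ => by rw [map_pow, Nat.cast_pow]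
    simp only [hx]
    rw [h1, ← Real.finsetProd_rpow _ _ (fun _ _ => by positivity)]
    refine Finset.prod_congr rfl fun p _ => ?_
    rw [← Real.rpow_natCast, ← Real.rpow_natCast, ← Real.rpow_mul (Nat.cast_nonneg _),
      ← Real.rpow_mul (Nat.cast_nonneg _), mul_comm]
  set g : Ideal (𝓞 K) → (p : Ideal (𝓞 K)) → p ∈ P → ℕ :=
    fun I p _ => (normalizedFactors I).count p with hg
  have hinj : Set.InjOn g T := by
    intro I hI J hJ h
    rw [hprod I hI, hprod J hJ]
    refine Finset.prod_congr rfl fun p hp => ?_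
    have := congrFun (congrFun h p) hp
    simp only [hg] at this
    rw [this]
  calc ∑ I ∈ T, x I = ∑ I ∈ T, ∏ p ∈ P.attach, x p.1 ^ (g I p.1 p.2) :=
        Finset.sum_congr rfl fun I hI => key I hI
    _ = ∑ e ∈ T.image g, ∏ p ∈ P.attach, x p.1 ^ (e p.1 p.2) :=
        (Finset.sum_image (f := fun e : (p : Ideal (𝓞 K)) → p ∈ P → ℕ =>
          ∏ p ∈ P.attach, x p.1 ^ (e p.1 p.2)) hinj).symm
    _ ≤ ∑ e ∈ P.pi (fun _ => Finset.range (E + 1)), ∏ p ∈ P.attach, x p.1 ^ (e p.1 p.2) := by
        refine Finset.sum_le_sum_of_subset_of_nonneg ?_ fun e _ _ =>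
          Finset.prod_nonneg fun p _ => pow_nonneg (hx0 _) _
        intro e he
        obtain ⟨I, hI, rfl⟩ := Finset.mem_image.mp he
        rw [Finset.mem_pi]
        intro p hp
        rw [Finset.mem_range]
        exact Nat.lt_succ_of_le ((Multiset.count_le_card _ _).trans
          (Finset.le_sup (f := fun I => Multiset.card (normalizedFactors I)) hI))
    _ = ∏ p ∈ P, ∑ e ∈ Finset.range (E + 1), x p ^ e :=
        (Finset.prod_sum P (fun _ => Finset.range (E + 1)) (fun p e => x p ^ e)).symm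
    _ ≤ ∏ p ∈ P, (1 - x p)⁻¹ := by
        refine Finset.prod_le_prod (fun p _ => Finset.sum_nonneg fun e _ => pow_nonneg (hx0 _) _)
          fun p hp => ?_
        rw [← tsum_geometric_of_lt_one (hx0 p) (hx1 p hp)]
        exact (summable_geometric_of_lt_one (hx0 p) (hx1 p hp)).sum_le_tsum _
          fun _ _ => pow_nonneg (hx0 _) _

end Pool.Agent.Lib.MP_06b9d2_gr
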