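import Pool.Agent.Lib.MP_06b9d2_gr.ZA
import Pool.Agent.Lib.MP_06b9d2_gr.ZB

/-!
Module GR-ZC. `∑ N p ^ (-s) ≥ log (1 / (s - 1)) - C` for a suitable finite set of primes.

By `low_zeta` and `summable_zt` there is an `n` with `C0 / (2 (s - 1)) ≤ ∑_{i < n} zt K s i` (`C0 > 0`; a partial sum); this is the sum of `N I ^ (-s)` over the (finite) set of nonzero ideals of norm `< n` (`zt K s 0 = 0`; `Ideal.finite_setOfPred_absNorm_eq`; as in `sum_ideals_le`). `euler_le` gives `P`; take logarithms: `log (C0 / 2) + log (1 / (s - 1)) ≤ ∑_{p ∈ P} - log (1 - x_p)`, `x_p = N p ^ (-s) ≤ 1 / 2`, and `- log (1 - x) ≤ x + x ^ 2` for `0 ≤ x ≤ 1 / 2`; `∑ x_p ^ 2 ≤ ∑' n, zt K 2 n` (`sum_ideals_le` for `2`, as in `zeta_primes`).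
-/

namespace Pool.Agent.Lib.MP_06b9d2_gr

open NumberField

open MP_4a73e4_nt.WF in
private theorem ZC_partial (K : Type*) [Field K] [NumberField K] {s : ℝ} (hs : 1 < s) (n : ℕ) :
    ∃ T : Finset (Ideal (𝓞 K)), (∀ I ∈ T, I ≠ ⊥) ∧
      ∑ i ∈ Finset.range n, zt K s i ≤ ∑ I ∈ T, (Ideal.absNorm I : ℝ) ^ (-s) := by
  classical
  have hfin : Set.Finite {I : Ideal (𝓞 K) | Ideal.absNorm I ≤ n} := Ideal.finite_setOfPred_absNorm_le n
  obtain ⟨T, hT⟩ : ∃ T : Finset (Ideal (𝓞 K)),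
      T = hfin.toFinset.filter (fun I => Ideal.absNorm I < n ∧ I ≠ ⊥) := ⟨_, rfl⟩
  have hmem : ∀ I : Ideal (𝓞 K), I ∈ T ↔ Ideal.absNorm I < n ∧ I ≠ ⊥ := by
    intro I
    rw [hT, Finset.mem_filter, Set.Finite.mem_toFinset]
    constructor
    · exact fun h => h.2
    · exact fun h => ⟨le_of_lt h.1, h⟩
  refine ⟨T, fun I hI => ((hmem I).1 hI).2, ?_⟩
  rw [← Finset.sum_fiberwise_of_maps_to (s := T) (t := Finset.range n) (g := fun I => Ideal.absNorm I)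
    (fun I hI => Finset.mem_range.2 ((hmem I).1 hI).1)]
  refine Finset.sum_le_sum fun i hi => ?_
  rcases Nat.eq_zero_or_pos i with h0 | h0
  · have h1 : zt K s i = 0 := by
      unfold zt
      rw [h0, Nat.cast_zero, Real.zero_rpow (by linarith), mul_zero]
    rw [h1]
    exact Finset.sum_nonneg fun I _ => by positivity
  · have h1 : ∑ I ∈ T with Ideal.absNorm I = i, (Ideal.absNorm I : ℝ) ^ (-s)
        = ((T.filter (fun I => Ideal.absNorm I = i)).card : ℝ) * (i : ℝ) ^ (-s) := by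
      rw [Finset.sum_congr rfl (g := fun _ => (i : ℝ) ^ (-s))
        (fun I hI => by rw [(Finset.mem_filter.mp hI).2]), Finset.sum_const, nsmul_eq_mul]
    rw [h1]
    unfold zt
    refine mul_le_mul_of_nonneg_right ?_ (by positivity)
    have h2 : cI K i ≤ (T.filter (fun I => Ideal.absNorm I = i)).card := by
      unfold cI
      have h3 : ((T.filter (fun I => Ideal.absNorm I = i) : Finset (Ideal (𝓞 K))) :
          Set (Ideal (𝓞 K))) = {I : Ideal (𝓞 K) | Ideal.absNorm I = i} := by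
        ext I
        rw [Finset.coe_filter, Set.mem_ofPred_eq, Set.mem_ofPred_eq, hmem]
        constructor
        · exact fun h => h.2
        · intro h
          refine ⟨⟨by rw [h]; exact Finset.mem_range.1 hi, ?_⟩, h⟩
          intro hb
          rw [hb, Ideal.absNorm_bot] at h
          omega
      have h4 : Nat.card {I : Ideal (𝓞 K) // Ideal.absNorm I = i} =
          Set.ncard {I : Ideal (𝓞 K) | Ideal.absNorm I = i} := rfl
      rw [h4, ← h3, Set.ncard_coe_finset]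
    exact_mod_cast h2

private theorem ZC_log {x : ℝ} (h0 : 0 ≤ x) (h1 : x ≤ 1 / 2) :
    Real.log (1 - x)⁻¹ ≤ x + 2 * x ^ 2 := by
  have hp : 0 < 1 - x := by linarith
  have h2 := Real.one_sub_inv_le_log_of_pos hp
  rw [Real.log_inv]
  have h3 : (1 - x)⁻¹ - 1 = x / (1 - x) := by
    field_simp
    ring
  have h4 : x / (1 - x) ≤ x + 2 * x ^ 2 := by
    rw [div_le_iff₀ hp]
    nlinarith [mul_nonneg (sq_nonneg x) (by linarith : 0 ≤ 1 - 2 * x)]
  linarith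

theorem low_primes (K : Type*) [Field K] [NumberField K] : ∃ C : ℝ, ∀ s : ℝ, s ∈ Set.Ioc (1:ℝ) 2 →
    ∃ P : Finset (Ideal (𝓞 K)), (∀ p ∈ P, p.IsPrime ∧ p ≠ ⊥) ∧
      Real.log (1 / (s - 1)) - C ≤ ∑ p ∈ P, (Ideal.absNorm p : ℝ) ^ (-s) := by
  obtain ⟨C0, hC0, hlow⟩ := low_zeta K
  refine ⟨|Real.log (C0 / 2)| + 2 * ∑' n, MP_4a73e4_nt.WF.zt K 2 n, fun s hs => ?_⟩
  have hs1 : 0 < s - 1 := by linarith [hs.1]
  obtain ⟨A, hA⟩ : ∃ A : ℝ, A = C0 / (s - 1) := ⟨_, rfl⟩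
  have hA0 : 0 < A := by rw [hA]; positivity
  have hAz : A ≤ ∑' n, MP_4a73e4_nt.WF.zt K s n := by rw [hA]; exact hlow s hs
  have hsum := (MP_4a73e4_nt.WF.summable_zt K hs.1).hasSum.tendsto_sum_nat
  have hev := hsum.eventually (lt_mem_nhds (by linarith : A / 2 < ∑' n, MP_4a73e4_nt.WF.zt K s n))
  obtain ⟨n, hn⟩ := hev.exists
  obtain ⟨T, hT0, hT⟩ := ZC_partial K hs.1 n
  obtain ⟨P, hP, hPe⟩ := euler_le K hs.1 T hT0
  refine ⟨P, hP, ?_⟩
  have hprod : A / 2 ≤ ∏ p ∈ P, (1 - (Ideal.absNorm p : ℝ) ^ (-s))⁻¹ := by linarith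
  have hN : ∀ p ∈ P, (2:ℝ) ≤ (Ideal.absNorm p : ℝ) := by
    intro p hp
    have h0 : Ideal.absNorm p ≠ 0 := by
      rw [Ne, Ideal.absNorm_eq_zero_iff]; exact (hP p hp).2
    have h1 : Ideal.absNorm p ≠ 1 := by
      rw [Ne, Ideal.absNorm_eq_one_iff]; exact (hP p hp).1.ne_top
    have h2 : 2 ≤ Ideal.absNorm p := by omega
    exact_mod_cast h2
  have hx0 : ∀ p ∈ P, 0 ≤ (Ideal.absNorm p : ℝ) ^ (-s) := fun p _ => by positivity
  have hx1 : ∀ p ∈ P, (Ideal.absNorm p : ℝ) ^ (-s) ≤ 1 / 2 := by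
    intro p hp
    have h2 := hN p hp
    calc (Ideal.absNorm p : ℝ) ^ (-s) ≤ (Ideal.absNorm p : ℝ) ^ (-(1:ℝ)) :=
          Real.rpow_le_rpow_of_exponent_le (by linarith) (by linarith [hs.1])
      _ = 1 / (Ideal.absNorm p : ℝ) := by rw [Real.rpow_neg_one, one_div]
      _ ≤ 1 / 2 := one_div_le_one_div_of_le (by norm_num) h2
  have hpos : ∀ p ∈ P, 0 < (1 - (Ideal.absNorm p : ℝ) ^ (-s))⁻¹ := by
    intro p hp
    have := hx1 p hp
    exact inv_pos.2 (by linarith)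
  have hlog : Real.log (C0 / 2) + Real.log (1 / (s - 1)) ≤
      ∑ p ∈ P, Real.log (1 - (Ideal.absNorm p : ℝ) ^ (-s))⁻¹ := by
    rw [← Real.log_prod (fun p hp => (hpos p hp).ne'),
      ← Real.log_mul (by positivity) (by positivity)]
    refine Real.log_le_log (by positivity) ?_
    have h3 : C0 / 2 * (1 / (s - 1)) = A / 2 := by
      rw [hA]
      ring
    rw [h3]
    exact hprod
  have hterm : ∀ p ∈ P, Real.log (1 - (Ideal.absNorm p : ℝ) ^ (-s))⁻¹ ≤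
      (Ideal.absNorm p : ℝ) ^ (-s) + 2 * (Ideal.absNorm p : ℝ) ^ (-(2:ℝ)) := by
    intro p hp
    refine (ZC_log (hx0 p hp) (hx1 p hp)).trans ?_
    have h4 : ((Ideal.absNorm p : ℝ) ^ (-s)) ^ 2 ≤ (Ideal.absNorm p : ℝ) ^ (-(2:ℝ)) := by
      rw [← Real.rpow_natCast, ← Real.rpow_mul (Nat.cast_nonneg _)]
      refine Real.rpow_le_rpow_of_exponent_le (by linarith [hN p hp]) ?_
      push_cast
      linarith [hs.1]
    linarith
  have hZ2 : ∑ p ∈ P, (Ideal.absNorm p : ℝ) ^ (-(2:ℝ)) ≤ ∑' n, MP_4a73e4_nt.WF.zt K 2 n :=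
    MP_4a73e4_nt.WF.sum_ideals_le K (by norm_num) P
  have hfin := Finset.sum_le_sum hterm
  rw [Finset.sum_add_distrib, ← Finset.mul_sum] at hfin
  have habs := neg_abs_le (Real.log (C0 / 2))
  linarith

end Pool.Agent.Lib.MP_06b9d2_gr
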